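import Mathlib

/-!
# The functional `N θ μ f = ∫_0^∞ μ{f > s}^θ ds`
-/

open MeasureTheory Set
open scoped ENNReal NNReal

namespace LorentzBlocks

variable {α : Type*} [MeasurableSpace α]

/-- The functional `∫_0^∞ μ{f > s}^θ ds`. -/
noncomputable def NN (θ : ℝ) (μ : Measure α) (f : α → ℝ) : ℝ≥0∞ :=
  ∫⁻ s in Ioi (0 : ℝ), (μ {a | s < f a}) ^ θ

variable {θ : ℝ} {μ : Measure α}

lemma measurable_dist (μ : Measure α) (f : α → ℝ) : Measurable (fun s : ℝ => μ {a | s < f a}) :=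
  Antitone.measurable (fun _ _ hst => measure_mono (fun _ h => lt_of_le_of_lt hst h))

lemma measurable_dist_rpow (μ : Measure α) (f : α → ℝ) (θ : ℝ) :
    Measurable (fun s : ℝ => (μ {a | s < f a}) ^ θ) :=
  (measurable_dist μ f).pow_const θ

lemma NN_mono (hθ : 0 ≤ θ) {f g : α → ℝ} (h : ∀ᵐ a ∂μ, f a ≤ g a) : NN θ μ f ≤ NN θ μ g := by
  unfold NN
  apply lintegral_mono
  intro s
  apply ENNReal.rpow_le_rpow _ hθ
  apply measure_mono_ae
  filter_upwards [h] with a ha hs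
  exact lt_of_lt_of_le hs ha

lemma NN_congr {f g : α → ℝ} (h : ∀ᵐ a ∂μ, f a = g a) : NN θ μ f = NN θ μ g := by
  unfold NN
  apply lintegral_congr
  intro s
  congr 1
  apply measure_congr
  filter_upwards [h] with a ha
  change (s < f a) = (s < g a)
  rw [ha]

/-- countable subadditivity of `t ↦ t^θ`. -/
lemma tsum_rpow_le {ι : Type*} (hθ : 0 < θ) (hθ1 : θ ≤ 1) (a : ι → ℝ≥0∞) :
    (∑' i, a i) ^ θ ≤ ∑' i, (a i) ^ θ := by
  have hfin : ∀ s : Finset ι, (∑ i ∈ s, a i) ^ θ ≤ ∑ i ∈ s, (a i) ^ θ := by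
    intro s
    classical
    induction s using Finset.induction_on with
    | empty => simp [hθ]
    | insert i s hi ih =>
      rw [Finset.sum_insert hi, Finset.sum_insert hi]
      exact (ENNReal.rpow_add_le_add_rpow _ _ hθ.le hθ1).trans (by gcongr)
  rw [ENNReal.tsum_eq_iSup_sum]
  have : (⨆ s : Finset ι, ∑ i ∈ s, a i) ^ θ = ⨆ s : Finset ι, (∑ i ∈ s, a i) ^ θ := by
    exact (ENNReal.orderIsoRpow θ hθ).map_iSup _
  rw [this]
  apply iSup_le
  intro s
  exact (hfin s).trans (ENNReal.sum_le_tsum s)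

/-- `N` of a countable supremum is bounded by the sum. -/
lemma NN_le_tsum {ι : Type*} [Countable ι] (hθ : 0 < θ) (hθ1 : θ ≤ 1) {f : α → ℝ} {g : ι → α → ℝ}
    (h : ∀ᵐ a ∂μ, ∀ s : ℝ, 0 < s → s < f a → ∃ i, s < g i a) :
    NN θ μ f ≤ ∑' i, NN θ μ (g i) := by
  unfold NN
  rw [← lintegral_tsum (fun i => (measurable_dist_rpow μ (g i) θ).aemeasurable)]
  apply setLIntegral_mono (by
    exact Measurable.tsum (fun i => measurable_dist_rpow μ (g i) θ))
  intro s hs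
  calc (μ {a | s < f a}) ^ θ ≤ (μ (⋃ i, {a | s < g i a})) ^ θ := by
        apply ENNReal.rpow_le_rpow _ hθ.le
        apply measure_mono_ae
        filter_upwards [h] with a ha hs'
        obtain ⟨i, hi⟩ := ha s hs hs'
        exact mem_iUnion.2 ⟨i, hi⟩
    _ ≤ (∑' i, μ {a | s < g i a}) ^ θ := by
        apply ENNReal.rpow_le_rpow _ hθ.le
        exact measure_iUnion_le _
    _ ≤ ∑' i, (μ {a | s < g i a}) ^ θ := tsum_rpow_le hθ hθ1 _

/-- scaling of the Lebesgue integral over a half line. -/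
lemma lintegral_Ioi_comp_mul {c : ℝ} (hc : 0 < c) (F : ℝ → ℝ≥0∞) :
    ∫⁻ s in Ioi (0:ℝ), F (c * s) = ENNReal.ofReal c⁻¹ * ∫⁻ s in Ioi (0:ℝ), F s := by
  have hmap := Real.map_volume_mul_left hc.ne'
  have e := (Homeomorph.mulLeft₀ c hc.ne').toMeasurableEquiv
  have h1 : ∫⁻ s in Ioi (0:ℝ), F s ∂(Measure.map (c * ·) volume)
      = ∫⁻ s in Ioi (0:ℝ), F (c * s) := by
    have h2 : (Measure.map (c * ·) volume).restrict (Ioi (0:ℝ))
        = Measure.map (c * ·) (volume.restrict (Ioi (0:ℝ))) := by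
      rw [Measure.restrict_map (measurable_const_mul c) measurableSet_Ioi]
      congr 2
      ext x
      simp [hc]
    rw [h2]
    exact lintegral_map_equiv F (Homeomorph.mulLeft₀ c hc.ne').toMeasurableEquiv
  rw [← h1, hmap, Measure.restrict_smul, lintegral_smul_measure, abs_of_pos (inv_pos.2 hc)]
  rfl

lemma NN_const_mul {c : ℝ} (hc : 0 < c) (f : α → ℝ) :
    NN θ μ (fun a => c * f a) = ENNReal.ofReal c * NN θ μ f := by
  unfold NN
  have h := lintegral_Ioi_comp_mul (inv_pos.2 hc) (fun s => (μ {a | s < f a}) ^ θ)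
  rw [inv_inv] at h
  rw [← h]
  apply lintegral_congr
  intro s
  congr 2
  ext a
  simp only [Set.mem_ofPred_eq]
  rw [inv_mul_lt_iff₀ hc]

/-- Chebyshev type inequality. -/
lemma mul_meas_rpow_le_NN (hθ : 0 ≤ θ) {v : ℝ} (f : α → ℝ) :
    ENNReal.ofReal v * (μ {a | v ≤ f a}) ^ θ ≤ NN θ μ f := by
  unfold NN
  calc ENNReal.ofReal v * (μ {a | v ≤ f a}) ^ θ
      = ∫⁻ s in Ioo (0:ℝ) v, (μ {a | v ≤ f a}) ^ θ := by
        rw [lintegral_const, Measure.restrict_apply_univ, Real.volume_Ioo, sub_zero, mul_comm]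
    _ ≤ ∫⁻ s in Ioo (0:ℝ) v, (μ {a | s < f a}) ^ θ := by
        apply setLIntegral_mono (measurable_dist_rpow μ f θ)
        intro s hs
        apply ENNReal.rpow_le_rpow _ hθ
        apply measure_mono
        intro a ha
        exact lt_of_lt_of_le hs.2 ha
    _ ≤ ∫⁻ s in Ioi (0:ℝ), (μ {a | s < f a}) ^ θ :=
        lintegral_mono_set (fun s hs => hs.1)

/-- `∫ f ≤ N f` on a probability space. -/
lemma lintegral_le_NN [IsProbabilityMeasure μ] (hθ1 : θ ≤ 1) {f : α → ℝ}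
    (hf0 : ∀ᵐ a ∂μ, 0 ≤ f a) (hf : AEMeasurable f μ) :
    ∫⁻ a, ENNReal.ofReal (f a) ∂μ ≤ NN θ μ f := by
  rw [lintegral_eq_lintegral_meas_lt μ hf0 hf]
  unfold NN
  apply lintegral_mono
  intro s
  have h1 : μ {a | s < f a} ≤ 1 := prob_le_one
  calc μ {a | s < f a} = (μ {a | s < f a}) ^ (1:ℝ) := (ENNReal.rpow_one _).symm
    _ ≤ (μ {a | s < f a}) ^ θ := ENNReal.rpow_le_rpow_of_exponent_ge h1 hθ1

end LorentzBlocks
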