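import Pool.Agent.Lorentz.Basic

/-!
# More properties of `NN`
-/

open MeasureTheory Set
open scoped ENNReal NNReal

namespace LorentzBlocks

variable {α : Type*} [MeasurableSpace α] {θ : ℝ} {μ : Measure α}

lemma NN_add_sq (hθ : 0 < θ) (hθ1 : θ ≤ 1) (x y : α → ℝ) :
    NN θ μ (fun a => (x a + y a) ^ 2) ≤
      4 * NN θ μ (fun a => (x a) ^ 2) + 4 * NN θ μ (fun a => (y a) ^ 2) := by
  have h := NN_le_tsum (μ := μ) (ι := Bool) hθ hθ1 (f := fun a => (x a + y a) ^ 2)
    (g := fun b a => if b then 4 * (x a) ^ 2 else 4 * (y a) ^ 2) (by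
      refine Filter.Eventually.of_forall (fun a s _ hs => ?_)
      by_contra hcon
      push Not at hcon
      have h1 := hcon true
      have h2 := hcon false
      simp only [if_true] at h1
      simp at h2
      nlinarith [sq_nonneg (x a - y a)])
  rw [tsum_bool] at h
  simp only [if_true] at h
  have e1 := NN_const_mul (θ := θ) (μ := μ) (c := 4) (by norm_num) (fun a => (x a) ^ 2)
  have e2 := NN_const_mul (θ := θ) (μ := μ) (c := 4) (by norm_num) (fun a => (y a) ^ 2)
  have h4 : ENNReal.ofReal 4 = 4 := by norm_num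
  rw [h4] at e1 e2
  rw [← e1, ← e2]
  refine h.trans (le_of_eq ?_)
  rw [add_comm]
  simp

/-- geometric quasi-subadditivity, infinite sums -/
lemma NN_hasSum_sq (hθ : 0 < θ) (hθ1 : θ ≤ 1) {f : ℕ → α → ℝ} {F : α → ℝ}
    (h : ∀ᵐ a ∂μ, HasSum (fun n => f n a) (F a)) :
    NN θ μ (fun a => (F a) ^ 2) ≤
      ∑' n, ENNReal.ofReal (4 ^ (n + 1)) * NN θ μ (fun a => (f n a) ^ 2) := by
  have h1 := NN_le_tsum (μ := μ) (ι := ℕ) hθ hθ1 (f := fun a => (F a) ^ 2)
    (g := fun n a => 4 ^ (n + 1) * (f n a) ^ 2) (by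
      filter_upwards [h] with a ha s hs hsF
      by_contra hcon
      push Not at hcon
      have hb : ∀ n, |f n a| ≤ Real.sqrt s / 2 * (1 / 2) ^ n := by
        intro n
        have h3 := hcon n
        have h4 : (2 ^ (n + 1) * |f n a|) ^ 2 ≤ s := by
          rw [mul_pow, sq_abs, ← pow_mul, mul_comm (n + 1) 2, pow_mul]
          norm_num
          exact h3
        have h5 : 2 ^ (n + 1) * |f n a| ≤ Real.sqrt s := Real.le_sqrt_of_sq_le h4
        have h6 : (0:ℝ) < 2 ^ (n + 1) := by positivity
        rw [one_div, inv_pow, div_mul_eq_mul_div, ← div_eq_mul_inv, div_div, le_div_iff₀ (by positivity)]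
        calc |f n a| * (2 ^ n * 2) = 2 ^ (n + 1) * |f n a| := by ring
          _ ≤ Real.sqrt s := h5
      have hg : HasSum (fun n : ℕ => Real.sqrt s / 2 * (1 / 2) ^ n) (Real.sqrt s / 2 * (1 - 1/2)⁻¹) :=
        (hasSum_geometric_of_lt_one (by norm_num) (by norm_num)).mul_left _
      have hle : |F a| ≤ Real.sqrt s := by
        have h7 : |F a| ≤ Real.sqrt s / 2 * (1 - 1/2)⁻¹ := by
          rw [← ha.tsum_eq, ← hg.tsum_eq]
          have hsum : Summable (fun n => |f n a|) :=
            Summable.of_nonneg_of_le (fun n => abs_nonneg _) hb hg.summable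
          have h8 : |∑' n, f n a| ≤ ∑' n, |f n a| := by
            have := norm_tsum_le_tsum_norm (f := fun n => f n a) (by simpa [Real.norm_eq_abs] using hsum)
            simpa [Real.norm_eq_abs] using this
          exact h8.trans (hsum.tsum_le_tsum hb hg.summable)
        have h9 : Real.sqrt s / 2 * (1 - 1/2)⁻¹ = Real.sqrt s := by norm_num
        rwa [h9] at h7
      have h10 : (F a) ^ 2 ≤ s := by
        rw [← sq_abs]
        calc |F a| ^ 2 ≤ (Real.sqrt s) ^ 2 := by gcongr
          _ = s := Real.sq_sqrt hs.le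
      linarith)
  refine h1.trans (le_of_eq ?_)
  congr 1
  ext n
  exact NN_const_mul (by positivity) _

/-- geometric quasi-subadditivity, finite sums -/
lemma NN_sum_sq (hθ : 0 < θ) (hθ1 : θ ≤ 1) (f : ℕ → α → ℝ) (m : ℕ) :
    NN θ μ (fun a => (∑ i ∈ Finset.range m, f i a) ^ 2) ≤
      ∑ i ∈ Finset.range m, ENNReal.ofReal (4 ^ (i + 1)) * NN θ μ (fun a => (f i a) ^ 2) := by
  classical
  have h := NN_hasSum_sq (μ := μ) hθ hθ1 (f := fun n a => if n ∈ Finset.range m then f n a else 0)
    (F := fun a => ∑ i ∈ Finset.range m, f i a) (by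
      refine Filter.Eventually.of_forall (fun a => ?_)
      have this : HasSum (fun n => if n ∈ Finset.range m then f n a else 0)
          (∑ n ∈ Finset.range m, if n ∈ Finset.range m then f n a else 0) :=
        hasSum_sum_of_ne_finset_zero (by intro b hb; simp [hb])
      convert this using 1
      apply Finset.sum_congr rfl
      intro i hi
      simp only [hi, if_true])
  refine h.trans ?_
  rw [tsum_eq_sum (s := Finset.range m)]
  · apply Finset.sum_le_sum
    intro i hi
    simp only [hi, if_true]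
    exact le_rfl
  · intro b hb
    simp only [hb, if_false]
    have : NN θ μ (fun _ => (0:ℝ) ^ 2) = 0 := by
      unfold NN
      rw [lintegral_eq_zero_iff' (measurable_dist_rpow μ _ θ).aemeasurable]
      filter_upwards [ae_restrict_mem measurableSet_Ioi] with s hs
      have : {a : α | s < (0:ℝ) ^ 2} = ∅ := by
        ext a
        simp only [Set.mem_ofPred_eq, Set.mem_empty_iff_false, iff_false, not_lt]
        norm_num
        exact le_of_lt hs
      rw [this]
      simp [hθ]
    rw [this, mul_zero]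

end LorentzBlocks
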