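import Pool.Agent.Lorentz.Basic2

/-!
# Truncation estimates for `NN`
-/

open MeasureTheory Set
open scoped ENNReal NNReal

namespace LorentzBlocks

variable {α : Type*} [MeasurableSpace α] {θ : ℝ} {μ : Measure α}

/-- Markov inequality in real threshold form -/
lemma meas_lt_le_div {f : α → ℝ} (hf : AEMeasurable f μ) {s : ℝ} (hs : 0 < s) :
    μ {a | s < f a} ≤ (∫⁻ a, ENNReal.ofReal (f a) ∂μ) / ENNReal.ofReal s := by
  have h := meas_ge_le_lintegral_div (μ := μ) (f := fun a => ENNReal.ofReal (f a))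
    hf.ennreal_ofReal (ε := ENNReal.ofReal s) (by simpa using hs) ENNReal.ofReal_ne_top
  refine le_trans (measure_mono ?_) h
  intro a ha
  exact ENNReal.ofReal_le_ofReal (le_of_lt ha)

lemma lintegral_rpow_Ioo (hθ1 : θ < 1) {v : ℝ} (hv : 0 < v) :
    ∫⁻ s in Ioo (0:ℝ) v, ENNReal.ofReal (s ^ (-θ)) = ENNReal.ofReal (v ^ (1 - θ) / (1 - θ)) := by
  have hint : IntegrableOn (fun s : ℝ => s ^ (-θ)) (Ioo 0 v) :=
    (intervalIntegral.integrableOn_Ioo_rpow_iff hv).2 (by linarith)
  rw [← ofReal_integral_eq_lintegral_ofReal hint]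
  · congr 1
    rw [← integral_Ioc_eq_integral_Ioo, ← intervalIntegral.integral_of_le hv.le,
      integral_rpow (Or.inl (by linarith))]
    rw [Real.zero_rpow (by linarith)]
    congr 1
    · rw [sub_zero]; congr 1; ring
    · ring
  · filter_upwards [ae_restrict_mem measurableSet_Ioo] with s hs
    exact Real.rpow_nonneg hs.1.le _

/-- Low part. -/
lemma NN_low (hθ : 0 < θ) (hθ1 : θ < 1) {f g : α → ℝ} (hf : AEMeasurable f μ)
    {v : ℝ} (hv : 0 < v) (hgv : ∀ᵐ a ∂μ, g a ≤ v) (hgf : ∀ᵐ a ∂μ, g a ≤ f a) :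
    NN θ μ g ≤ ENNReal.ofReal (v ^ (1 - θ) / (1 - θ)) * (∫⁻ a, ENNReal.ofReal (f a) ∂μ) ^ θ := by
  unfold NN
  have h1 : ∫⁻ s in Ioi (0:ℝ), (μ {a | s < g a}) ^ θ = ∫⁻ s in Ioo (0:ℝ) v, (μ {a | s < g a}) ^ θ := by
    rw [← lintegral_indicator measurableSet_Ioi, ← lintegral_indicator measurableSet_Ioo]
    apply lintegral_congr
    intro s
    by_cases hs : s ∈ Ioo (0:ℝ) v
    · rw [indicator_of_mem hs, indicator_of_mem (show s ∈ Ioi (0:ℝ) from hs.1)]
    · rw [indicator_of_notMem hs]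
      by_cases hs0 : s ∈ Ioi (0:ℝ)
      · rw [indicator_of_mem hs0]
        have : μ {a | s < g a} = 0 := by
          have hvs : v ≤ s := by
            by_contra hlt
            exact hs ⟨hs0, not_le.1 hlt⟩
          have : ∀ᵐ a ∂μ, ¬ (s < g a) := by
            filter_upwards [hgv] with a ha
            exact not_lt.2 (ha.trans hvs)
          exact measure_eq_zero_iff_ae_notMem.2 this
        rw [this, ENNReal.zero_rpow_of_pos hθ]
      · rw [indicator_of_notMem hs0]
  rw [h1, ← lintegral_rpow_Ioo hθ1 hv]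
  have hm : Measurable (fun s : ℝ => ENNReal.ofReal (s ^ (-θ))) := by fun_prop
  rw [← lintegral_mul_const _ hm]
  apply setLIntegral_mono (hm.mul_const _)
  intro s hs
  calc (μ {a | s < g a}) ^ θ ≤ ((∫⁻ a, ENNReal.ofReal (f a) ∂μ) / ENNReal.ofReal s) ^ θ := by
        apply ENNReal.rpow_le_rpow _ hθ.le
        refine le_trans (measure_mono_ae ?_) (meas_lt_le_div hf hs.1)
        filter_upwards [hgf] with a ha hsa
        exact lt_of_lt_of_le hsa ha
    _ = ENNReal.ofReal (s ^ (-θ)) * (∫⁻ a, ENNReal.ofReal (f a) ∂μ) ^ θ := by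
        rw [ENNReal.div_rpow_of_nonneg _ _ hθ.le, ENNReal.ofReal_rpow_of_pos hs.1,
          Real.rpow_neg hs.1.le, ENNReal.ofReal_inv_of_pos (Real.rpow_pos_of_pos hs.1 _),
          ENNReal.div_eq_inv_mul]

/-- High part: `L¹` norm of the part above `v`. -/
lemma lintegral_high (hθ : 0 < θ) (hθ1 : θ ≤ 1) {f g : α → ℝ} (hg : AEMeasurable g μ)
    (hg0 : ∀ᵐ a ∂μ, 0 ≤ g a) {v : ℝ}
    (hgv : ∀ᵐ a ∂μ, 0 < g a → v ≤ f a) (hgf : ∀ᵐ a ∂μ, g a ≤ f a) [IsFiniteMeasure μ] :
    ∫⁻ a, ENNReal.ofReal (g a) ∂μ ≤ (μ {a | v ≤ f a}) ^ (1 - θ) * NN θ μ f := by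
  rw [lintegral_eq_lintegral_meas_lt μ hg0 hg]
  unfold NN
  rw [← lintegral_const_mul _ (measurable_dist_rpow μ f θ)]
  apply setLIntegral_mono ((measurable_dist_rpow μ f θ).const_mul _)
  intro s hs
  have hs0 : (0:ℝ) < s := hs
  have e1 : μ {a | s < g a} ≤ μ {a | v ≤ f a} := by
    apply measure_mono_ae
    filter_upwards [hgv] with a ha hsa
    exact ha (hs0.trans hsa)
  have e2 : μ {a | s < g a} ≤ μ {a | s < f a} := by
    apply measure_mono_ae
    filter_upwards [hgf] with a ha hsa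
    exact lt_of_lt_of_le hsa ha
  by_cases h0 : μ {a | s < g a} = 0
  · rw [h0]; exact zero_le
  calc μ {a | s < g a} = (μ {a | s < g a}) ^ ((1 - θ) + θ) := by
        rw [sub_add_cancel, ENNReal.rpow_one]
    _ = (μ {a | s < g a}) ^ (1 - θ) * (μ {a | s < g a}) ^ θ :=
        ENNReal.rpow_add _ _ h0 (measure_ne_top _ _)
    _ ≤ (μ {a | v ≤ f a}) ^ (1 - θ) * (μ {a | s < f a}) ^ θ :=
        mul_le_mul' (ENNReal.rpow_le_rpow e1 (by linarith)) (ENNReal.rpow_le_rpow e2 hθ.le)

lemma meas_ge_le_of_NN (hθ : 0 < θ) {f : α → ℝ} {v : ℝ} (hv : 0 < v) :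
    μ {a | v ≤ f a} ≤ (NN θ μ f / ENNReal.ofReal v) ^ (1 / θ) := by
  have h := mul_meas_rpow_le_NN (μ := μ) hθ.le (v := v) f
  have h1 : (μ {a | v ≤ f a}) ^ θ ≤ NN θ μ f / ENNReal.ofReal v := by
    rw [ENNReal.le_div_iff_mul_le (Or.inl (by simpa using hv)) (Or.inl ENNReal.ofReal_ne_top)]
    rwa [mul_comm]
  calc μ {a | v ≤ f a} = ((μ {a | v ≤ f a}) ^ θ) ^ (1 / θ) := by
        rw [← ENNReal.rpow_mul, mul_one_div_cancel hθ.ne', ENNReal.rpow_one]
    _ ≤ _ := ENNReal.rpow_le_rpow h1 (by positivity)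

/-- For functions whose level sets have measure `0` or at least `h`. -/
lemma NN_cell [IsFiniteMeasure μ] (hθ1 : θ ≤ 1) {f : α → ℝ}
    (hf0 : ∀ᵐ a ∂μ, 0 ≤ f a) (hf : AEMeasurable f μ) {h : ℝ≥0∞}
    (hcell : ∀ s : ℝ, 0 < s → μ {a | s < f a} = 0 ∨ h ≤ μ {a | s < f a}) (hθ : 0 < θ) :
    NN θ μ f ≤ h ^ (θ - 1) * ∫⁻ a, ENNReal.ofReal (f a) ∂μ := by
  rw [lintegral_eq_lintegral_meas_lt μ hf0 hf]
  unfold NN
  rw [← lintegral_const_mul _ (measurable_dist μ f)]
  apply setLIntegral_mono ((measurable_dist μ f).const_mul _)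
  intro s hs
  rcases hcell s hs with h0 | h1
  · rw [h0, ENNReal.zero_rpow_of_pos hθ]; exact zero_le
  · by_cases h0 : μ {a | s < f a} = 0
    · rw [h0, ENNReal.zero_rpow_of_pos hθ]; exact zero_le
    calc (μ {a | s < f a}) ^ θ = (μ {a | s < f a}) ^ ((θ - 1) + 1) := by
          rw [sub_add_cancel]
      _ = (μ {a | s < f a}) ^ (θ - 1) * (μ {a | s < f a}) ^ (1:ℝ) :=
          ENNReal.rpow_add _ _ h0 (measure_ne_top _ _)
      _ ≤ h ^ (θ - 1) * μ {a | s < f a} := by
          rw [ENNReal.rpow_one]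
          refine mul_le_mul' ?_ le_rfl
          rcases hθ1.eq_or_lt with h2 | h2
          · rw [h2]; simp
          · have h3 : θ - 1 = -(1 - θ) := by ring
            rw [h3, ENNReal.rpow_neg, ENNReal.rpow_neg]
            exact ENNReal.inv_le_inv.2 (ENNReal.rpow_le_rpow h1 (by linarith))

/-- Band decomposition. -/
lemma NN_bands (hθ : 0 < θ) {f : α → ℝ} {g : ℕ → α → ℝ} {b : ℕ → ℝ} (hb0 : 0 < b 0)
    (hb : ∀ n, 2 * b n ≤ b (n + 1))
    (hg0 : ∀ n, ∀ᵐ a ∂μ, g n a ≤ f a)
    (hg1 : ∀ n, ∀ᵐ a ∂μ, 0 < g n a → b n ≤ f a)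
    (hg2 : ∀ n, ∀ᵐ a ∂μ, g n a ≤ b (n + 1)) :
    ∑' n, NN θ μ (g n) ≤ 3 * NN θ μ f := by
  have hbpos : ∀ n, 0 < b n := by
    intro n
    induction n with
    | zero => exact hb0
    | succ n ih => linarith [hb n]
  have hbmono : Monotone b := monotone_nat_of_le_succ (fun n => by linarith [hb n, hbpos n])
  have hm := measurable_dist_rpow μ f θ
  -- each term
  have hterm : ∀ n, NN θ μ (g n) ≤ 2 * (∫⁻ s in Ioo (b n / 2) (b n), (μ {a | s < f a}) ^ θ)
      + ∫⁻ s in Ico (b n) (b (n + 1)), (μ {a | s < f a}) ^ θ := by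
    intro n
    have h1 : NN θ μ (g n) ≤ (∫⁻ s in Ioo (0:ℝ) (b n), (μ {a | b n ≤ f a}) ^ θ)
        + ∫⁻ s in Ico (b n) (b (n + 1)), (μ {a | s < f a}) ^ θ := by
      unfold NN
      rw [← lintegral_indicator measurableSet_Ioi, ← lintegral_indicator measurableSet_Ioo,
        ← lintegral_indicator measurableSet_Ico,
        ← lintegral_add_right _ (hm.indicator measurableSet_Ico)]
      apply lintegral_mono
      intro s
      by_cases hs0 : s ∈ Ioi (0:ℝ)
      · have hs0' : (0:ℝ) < s := hs0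
        simp only [indicator_of_mem hs0]
        by_cases hs1 : s < b n
        · have hm1 : s ∈ Ioo (0:ℝ) (b n) := ⟨hs0, hs1⟩
          rw [indicator_of_mem hm1]
          refine le_trans ?_ le_self_add
          apply ENNReal.rpow_le_rpow _ hθ.le
          apply measure_mono_ae
          filter_upwards [hg1 n] with a ha hsa
          exact ha (hs0'.trans hsa)
        · by_cases hs2 : s < b (n + 1)
          · have hm2 : s ∈ Ico (b n) (b (n+1)) := ⟨not_lt.1 hs1, hs2⟩
            rw [indicator_of_mem hm2]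
            refine le_trans ?_ le_add_self
            apply ENNReal.rpow_le_rpow _ hθ.le
            apply measure_mono_ae
            filter_upwards [hg0 n] with a ha hsa
            exact lt_of_lt_of_le hsa ha
          · have : μ {a | s < g n a} = 0 := by
              have : ∀ᵐ a ∂μ, ¬ (s < g n a) := by
                filter_upwards [hg2 n] with a ha
                exact not_lt.2 (ha.trans (not_lt.1 hs2))
              exact measure_eq_zero_iff_ae_notMem.2 this
            rw [this, ENNReal.zero_rpow_of_pos hθ]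
            exact zero_le
      · rw [indicator_of_notMem hs0]; exact zero_le
    refine h1.trans (add_le_add ?_ le_rfl)
    calc ∫⁻ s in Ioo (0:ℝ) (b n), (μ {a | b n ≤ f a}) ^ θ
        = ENNReal.ofReal (b n) * (μ {a | b n ≤ f a}) ^ θ := by
          rw [lintegral_const, Measure.restrict_apply_univ, Real.volume_Ioo, sub_zero, mul_comm]
      _ = 2 * ∫⁻ s in Ioo (b n / 2) (b n), (μ {a | b n ≤ f a}) ^ θ := by
          rw [lintegral_const, Measure.restrict_apply_univ, Real.volume_Ioo]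
          have : b n - b n / 2 = b n / 2 := by ring
          rw [this, mul_comm _ (ENNReal.ofReal (b n / 2)), ← mul_assoc]
          congr 1
          rw [show (2:ℝ≥0∞) = ENNReal.ofReal 2 by norm_num, ← ENNReal.ofReal_mul (by norm_num)]
          congr 1; ring
      _ ≤ 2 * ∫⁻ s in Ioo (b n / 2) (b n), (μ {a | s < f a}) ^ θ := by
          gcongr 2 * ?_
          apply setLIntegral_mono hm
          intro s hs
          apply ENNReal.rpow_le_rpow _ hθ.le
          apply measure_mono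
          intro a ha
          exact lt_of_lt_of_le hs.2 ha
  refine (ENNReal.tsum_le_tsum hterm).trans ?_
  rw [ENNReal.tsum_add, ENNReal.tsum_mul_left]
  have hd1 : Pairwise (Function.onFun Disjoint (fun n => Ioo (b n / 2) (b n))) := by
    intro i j hij
    rcases lt_or_gt_of_ne hij with h | h
    · refine Set.disjoint_left.2 (fun s hs hs' => ?_)
      have h1 : b (i + 1) ≤ b j := hbmono h
      have := hb i
      simp only [mem_Ioo] at hs hs'
      linarith [hs.2, hs'.1]
    · refine Set.disjoint_left.2 (fun s hs hs' => ?_)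
      have h1 : b (j + 1) ≤ b i := hbmono h
      have := hb j
      simp only [mem_Ioo] at hs hs'
      linarith [hs'.2, hs.1]
  have hd2 : Pairwise (Function.onFun Disjoint (fun n => Ico (b n) (b (n + 1)))) := by
    intro i j hij
    rcases lt_or_gt_of_ne hij with h | h
    · refine Set.disjoint_left.2 (fun s hs hs' => ?_)
      have h1 : b (i + 1) ≤ b j := hbmono h
      simp only [mem_Ico] at hs hs'
      linarith [hs.2, hs'.1]
    · refine Set.disjoint_left.2 (fun s hs hs' => ?_)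
      have h1 : b (j + 1) ≤ b i := hbmono h
      simp only [mem_Ico] at hs hs'
      linarith [hs'.2, hs.1]
  have s1 : ∑' n, (∫⁻ s in Ioo (b n / 2) (b n), (μ {a | s < f a}) ^ θ) ≤ NN θ μ f := by
    rw [← lintegral_iUnion (fun n => measurableSet_Ioo) hd1]
    apply lintegral_mono_set
    intro s hs
    obtain ⟨n, hn⟩ := mem_iUnion.1 hs
    have := hbpos n
    exact lt_trans (by positivity) hn.1
  have s2 : ∑' n, (∫⁻ s in Ico (b n) (b (n + 1)), (μ {a | s < f a}) ^ θ) ≤ NN θ μ f := by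
    rw [← lintegral_iUnion (fun n => measurableSet_Ico) hd2]
    apply lintegral_mono_set
    intro s hs
    obtain ⟨n, hn⟩ := mem_iUnion.1 hs
    exact lt_of_lt_of_le (hbpos n) hn.1
  calc 2 * ∑' n, (∫⁻ s in Ioo (b n / 2) (b n), (μ {a | s < f a}) ^ θ)
        + ∑' n, (∫⁻ s in Ico (b n) (b (n + 1)), (μ {a | s < f a}) ^ θ)
      ≤ 2 * NN θ μ f + NN θ μ f := by gcongr
    _ = 3 * NN θ μ f := by ring

end LorentzBlocks
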