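import Pool.Agent.Lorentz.Cells

/-!
# Density of measurable sets in cells
-/

open MeasureTheory Set Filter
open scoped ENNReal NNReal Topology

namespace LorentzBlocks

lemma cell_ae_eq {L : ℕ} (hL : 0 < L) (k : ℕ) :
    (cell L k : Set ℝ) =ᵐ[volume] Metric.closedBall (((k:ℝ) + 1 / 2) / L) (1 / (2 * L)) := by
  have hL' : (0:ℝ) < L := by exact_mod_cast hL
  rw [Real.closedBall_eq_Icc]
  have e1 : ((k:ℝ) + 1 / 2) / L - 1 / (2 * L) = (k:ℝ) / L := by field_simp; ring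
  have e2 : ((k:ℝ) + 1 / 2) / L + 1 / (2 * L) = ((k:ℝ) + 1) / L := by field_simp; ring
  rw [e1, e2]
  exact Ico_ae_eq_Icc

/-- a.e. point of `f` has density one along cells -/
lemma density_ae (f : Set ℝ) :
    ∀ᵐ t ∂(volume.restrict f), 0 ≤ t →
      Tendsto (fun L : ℕ => volume (f ∩ cell L ⌊(L:ℝ) * t⌋₊) / ENNReal.ofReal (1 / L)) atTop (𝓝 1) := by
  filter_upwards [IsUnifLocDoublingMeasure.ae_tendsto_measure_inter_div (volume : Measure ℝ) f 1] with t ht ht0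
  have h1 := ht (ι := ℕ) (l := atTop) (fun L => ((⌊(L:ℝ) * t⌋₊:ℝ) + 1 / 2) / L) (fun L => 1 / (2 * (L:ℝ))) (by
    rw [tendsto_nhdsWithin_iff]
    constructor
    · have : Tendsto (fun L : ℕ => 1 / (2:ℝ) * (1 / (L:ℝ))) atTop (𝓝 (1 / 2 * 0)) :=
        tendsto_one_div_atTop_nhds_zero_nat.const_mul _
      rw [mul_zero] at this
      refine this.congr (fun L => ?_)
      rw [one_div_mul_one_div]
    · filter_upwards [eventually_gt_atTop 0] with L hL
      have hL' : (0:ℝ) < L := by exact_mod_cast hL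
      rw [mem_Ioi]; positivity) (by
    filter_upwards [eventually_gt_atTop 0] with L hL
    have hL' : (0:ℝ) < L := by exact_mod_cast hL
    have h1 := (mem_cell_iff hL ht0 (k := ⌊(L:ℝ) * t⌋₊)).2 rfl
    unfold cell at h1
    rw [one_mul, Real.closedBall_eq_Icc]
    have e1 : ((⌊(L:ℝ) * t⌋₊:ℝ) + 1 / 2) / L - 1 / (2 * L) = (⌊(L:ℝ) * t⌋₊:ℝ) / L := by field_simp; ring
    have e2 : ((⌊(L:ℝ) * t⌋₊:ℝ) + 1 / 2) / L + 1 / (2 * L) = ((⌊(L:ℝ) * t⌋₊:ℝ) + 1) / L := by field_simp; ring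
    rw [e1, e2]
    exact Ico_subset_Icc_self h1)
  refine h1.congr' ?_
  filter_upwards [eventually_gt_atTop 0] with L hL
  rw [← measure_congr (cell_ae_eq hL _), volume_cell hL]
  congr 1
  apply measure_congr
  exact (ae_eq_refl f).inter (cell_ae_eq hL _).symm

/-- points where `f` has density at least `c` in all cells of scale at least `l0` -/
def dgood (f : Set ℝ) (c : ℝ) (l0 : ℕ) : Set ℝ :=
  {t | t ∈ Ico (0:ℝ) 1 ∧ ∀ L : ℕ, l0 ≤ L → ENNReal.ofReal (c * (1 / L)) ≤ volume (f ∩ cell L ⌊(L:ℝ) * t⌋₊)}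

lemma dgood_mono {f : Set ℝ} {c : ℝ} {l l' : ℕ} (h : l ≤ l') : dgood f c l ⊆ dgood f c l' := by
  intro t ht
  exact ⟨ht.1, fun L hL => ht.2 L (h.trans hL)⟩

lemma exists_dgood_of_tendsto {f : Set ℝ} {c : ℝ} (hc : c < 1) {t : ℝ} (ht : t ∈ Ico (0:ℝ) 1)
    (h : Tendsto (fun L : ℕ => volume (f ∩ cell L ⌊(L:ℝ) * t⌋₊) / ENNReal.ofReal (1 / L)) atTop (𝓝 1)) :
    ∃ l0, t ∈ dgood f c l0 := by
  have h1 : ∀ᶠ L : ℕ in atTop, ENNReal.ofReal c <
      volume (f ∩ cell L ⌊(L:ℝ) * t⌋₊) / ENNReal.ofReal (1 / L) := by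
    apply h.eventually_const_lt
    rw [← ENNReal.ofReal_one, ENNReal.ofReal_lt_ofReal_iff one_pos]
    exact hc
  obtain ⟨l0, hl0⟩ := eventually_atTop.1 (h1.and (eventually_gt_atTop 0))
  refine ⟨l0, ht, fun L hL => ?_⟩
  obtain ⟨h2, h3⟩ := hl0 L hL
  have hL' : (0:ℝ) < L := by exact_mod_cast h3
  have h4 := h2.le
  rw [ENNReal.le_div_iff_mul_le (Or.inl (by positivity)) (Or.inl ENNReal.ofReal_ne_top)] at h4
  by_cases hc0 : 0 ≤ c
  · rwa [ENNReal.ofReal_mul hc0]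
  · push Not at hc0
    rw [ENNReal.ofReal_of_nonpos (by
      apply mul_nonpos_of_nonpos_of_nonneg hc0.le; positivity)]
    exact zero_le

/-- the condition on a pair of sets at scale `l0` -/
def Cond (e f : Set ℝ) (l0 : ℕ) : Prop :=
  0 < l0 ∧ ∃ s0 ∈ Ico (0:ℝ) 1, ∃ η : ℝ, 0 < η ∧ ENNReal.ofReal (4 * η) < mu01 (dgood f (7 / 8) l0) ∧
    ∀ H' : ℕ, l0 ≤ H' → volume (cell H' ⌊(H':ℝ) * s0⌋₊ \ e) ≤ ENNReal.ofReal (η * (1 / H'))

lemma exists_Cond {e f : Set ℝ} (he : MeasurableSet e) (hf : MeasurableSet f)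
    (he0 : mu01 e ≠ 0) (hf0 : mu01 f ≠ 0) : ∃ l, ∀ l0, l ≤ l0 → Cond e f l0 := by
  have hmu : ∀ s : Set ℝ, MeasurableSet s → mu01 s = volume (s ∩ Ico 0 1) := by
    intro s hs
    unfold mu01
    rw [Measure.restrict_apply hs]
  have hae : ∀ s : Set ℝ, MeasurableSet s → ∀ᵐ t ∂mu01, t ∈ s →
      Tendsto (fun L : ℕ => volume (s ∩ cell L ⌊(L:ℝ) * t⌋₊) / ENNReal.ofReal (1 / L)) atTop (𝓝 1) := by
    intro s hs
    have h1 := density_ae s
    rw [ae_restrict_iff' hs] at h1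
    unfold mu01
    rw [ae_restrict_iff' measurableSet_Ico]
    filter_upwards [h1] with t ht ht1 ht2
    exact ht ht2 ht1.1
  -- dgood for f
  have hf1 : mu01 (⋃ l, dgood f (7 / 8) l) ≠ 0 := by
    intro h0
    apply hf0
    have h2 : ∀ᵐ t ∂mu01, t ∉ f := by
      filter_upwards [hae f hf, measure_eq_zero_iff_ae_notMem.1 h0,
        (ae_restrict_mem measurableSet_Ico : ∀ᵐ t ∂mu01, t ∈ Ico (0:ℝ) 1)] with t h1 h3 h4 h5
      obtain ⟨l, hl⟩ := exists_dgood_of_tendsto (c := 7 / 8) (by norm_num) h4 (h1 h5)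
      exact h3 (mem_iUnion.2 ⟨l, hl⟩)
    exact measure_eq_zero_iff_ae_notMem.2 h2
  have hf2 : ∃ l, mu01 (dgood f (7 / 8) l) ≠ 0 := by
    by_contra hcon
    push Not at hcon
    exact hf1 (measure_iUnion_null hcon)
  obtain ⟨l1, hl1⟩ := hf2
  obtain ⟨η, hη, hη'⟩ : ∃ η : ℝ, 0 < η ∧ ENNReal.ofReal (4 * η) < mu01 (dgood f (7 / 8) l1) := by
    obtain ⟨r, hr0, hr⟩ := ENNReal.lt_iff_exists_nnreal_btwn.1 (pos_iff_ne_zero.2 hl1)
    refine ⟨(r:ℝ) / 4, ?_, ?_⟩
    · have : (0:ℝ) < r := by exact_mod_cast hr0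
      positivity
    · rw [mul_div_cancel₀ _ (by norm_num : (4:ℝ) ≠ 0), ENNReal.ofReal_coe_nnreal]
      exact hr
  -- density point of e
  have he1 : ∃ t, t ∈ e ∧ t ∈ Ico (0:ℝ) 1 ∧
      Tendsto (fun L : ℕ => volume (e ∩ cell L ⌊(L:ℝ) * t⌋₊) / ENNReal.ofReal (1 / L)) atTop (𝓝 1) := by
    by_contra hcon
    push Not at hcon
    apply he0
    apply measure_eq_zero_iff_ae_notMem.2
    filter_upwards [hae e he, (ae_restrict_mem measurableSet_Ico : ∀ᵐ t ∂mu01, t ∈ Ico (0:ℝ) 1)]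
      with t h1 h2 h3
    exact hcon t h3 h2 (h1 h3)
  obtain ⟨s0, hs0e, hs0, hs0t⟩ := he1
  obtain ⟨l2, hl2⟩ := exists_dgood_of_tendsto (c := 1 - η) (by linarith) hs0 hs0t
  refine ⟨max (max l1 l2) 1, fun l0 hl0 => ⟨by omega, s0, hs0, η, hη, ?_, ?_⟩⟩
  · exact hη'.trans_le (measure_mono (dgood_mono (by omega)))
  · intro H' hH'
    have hH'0 : 0 < H' := by omega
    have hH'' : (0:ℝ) < H' := by exact_mod_cast hH'0
    have h1 := hl2.2 H' (by omega)
    have h2 : volume (e ∩ cell H' ⌊(H':ℝ) * s0⌋₊) + volume (cell H' ⌊(H':ℝ) * s0⌋₊ \ e) =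
        ENNReal.ofReal (1 / H') := by
      rw [inter_comm, measure_inter_add_sdiff _ he, volume_cell hH'0]
    have hfin : volume (e ∩ cell H' ⌊(H':ℝ) * s0⌋₊) ≠ ∞ := by
      intro h; rw [h] at h2; simp at h2
    have h3 : volume (cell H' ⌊(H':ℝ) * s0⌋₊ \ e) =
        ENNReal.ofReal (1 / H') - volume (e ∩ cell H' ⌊(H':ℝ) * s0⌋₊) := by
      rw [← h2, ENNReal.add_sub_cancel_left hfin]
    rw [h3]
    calc ENNReal.ofReal (1 / H') - volume (e ∩ cell H' ⌊(H':ℝ) * s0⌋₊)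
        ≤ ENNReal.ofReal (1 / H') - ENNReal.ofReal ((1 - η) * (1 / H')) := tsub_le_tsub_left h1 _
      _ ≤ ENNReal.ofReal (η * (1 / H')) := by
          rw [tsub_le_iff_right]
          refine le_trans (le_of_eq ?_) ENNReal.ofReal_add_le
          congr 1
          ring

lemma cell_sub_cell {D H' : ℕ} (hD : 0 < D) (hH' : 0 < H') (b A : ℕ) (hA : A < D) :
    cell (D * H') (b * D + A) ⊆ cell H' b := by
  have hD' : (0:ℝ) < D := by exact_mod_cast hD
  have hH'' : (0:ℝ) < H' := by exact_mod_cast hH'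
  have hA' : (A:ℝ) + 1 ≤ D := by exact_mod_cast hA
  unfold cell
  apply Ico_subset_Ico
  · rw [div_le_div_iff₀ hH'' (by positivity)]
    push_cast
    nlinarith [mul_nonneg (Nat.cast_nonneg (α := ℝ) A) hH''.le]
  · rw [div_le_div_iff₀ (by positivity) hH'']
    push_cast
    nlinarith [mul_nonneg (sub_nonneg.2 hA') hH''.le]

/-- finding the index `k` -/
lemma exists_index {e f : Set ℝ} (he : MeasurableSet e) {l0 : ℕ} (hc : Cond e f l0) {D H' : ℕ} (hD : 0 < D)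
    (hH' : l0 ≤ H') :
    ∃ k < D * H', ∃ t0 ∈ dgood f (7 / 8) l0, k % D = ⌊(D:ℝ) * t0⌋₊ ∧
      ENNReal.ofReal (3 / 4 * (1 / ((D * H' : ℕ) : ℝ))) ≤ volume (e ∩ cell (D * H') k) := by
  classical
  obtain ⟨hl0, s0, hs0, η, hη, hη1, hη2⟩ := hc
  have hH'0 : 0 < H' := by omega
  have hD' : (0:ℝ) < D := by exact_mod_cast hD
  have hH'' : (0:ℝ) < H' := by exact_mod_cast hH'0
  have hDH : 0 < D * H' := Nat.mul_pos hD hH'0
  set b := ⌊(H':ℝ) * s0⌋₊ with hb
  have hbH : b < H' := floor_lt_of_mem hH'0 hs0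
  by_contra hcon
  push Not at hcon
  set 𝒜 : Finset ℕ := (Finset.range D).filter (fun A =>
    volume (e ∩ cell (D * H') (b * D + A)) < ENNReal.ofReal (3 / 4 * (1 / ((D * H' : ℕ) : ℝ)))) with h𝒜
  have hkey : ∀ t ∈ dgood f (7 / 8) l0, ⌊(D:ℝ) * t⌋₊ ∈ 𝒜 := by
    intro t ht
    have hA : ⌊(D:ℝ) * t⌋₊ < D := floor_lt_of_mem hD ht.1
    rw [h𝒜, Finset.mem_filter]
    refine ⟨Finset.mem_range.2 hA, ?_⟩
    apply hcon (b * D + ⌊(D:ℝ) * t⌋₊) _ t ht
    · rw [mul_comm b D, Nat.mul_add_mod]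
      exact Nat.mod_eq_of_lt hA
    · calc b * D + ⌊(D:ℝ) * t⌋₊ < b * D + D := by omega
        _ = D * (b + 1) := by ring
        _ ≤ D * H' := Nat.mul_le_mul_left _ hbH
  -- the measure of the good set
  have hmeas : mu01 (dgood f (7 / 8) l0) ≤ 𝒜.card * ENNReal.ofReal (1 / D) := by
    calc mu01 (dgood f (7 / 8) l0) ≤ mu01 (⋃ A ∈ 𝒜, cell D A) := by
          apply measure_mono
          intro t ht
          rw [mem_iUnion₂]
          exact ⟨_, hkey t ht, (mem_cell_iff hD ht.1.1).2 rfl⟩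
      _ ≤ ∑ A ∈ 𝒜, mu01 (cell D A) := measure_biUnion_finset_le _ _
      _ = ∑ A ∈ 𝒜, ENNReal.ofReal (1 / D) := by
          apply Finset.sum_congr rfl
          intro A hA
          rw [h𝒜, Finset.mem_filter, Finset.mem_range] at hA
          exact mu01_cell hD hA.1
      _ = _ := by rw [Finset.sum_const, nsmul_eq_mul]
  -- the measure of the bad part
  have hbad : 𝒜.card * ENNReal.ofReal (1 / 4 * (1 / ((D * H' : ℕ) : ℝ))) ≤ ENNReal.ofReal (η * (1 / H')) := by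
    refine le_trans ?_ (hη2 H' hH')
    calc 𝒜.card * ENNReal.ofReal (1 / 4 * (1 / ((D * H' : ℕ) : ℝ)))
        = ∑ A ∈ 𝒜, ENNReal.ofReal (1 / 4 * (1 / ((D * H' : ℕ) : ℝ))) := by
          rw [Finset.sum_const, nsmul_eq_mul]
      _ ≤ ∑ A ∈ 𝒜, volume (cell (D * H') (b * D + A) \ e) := by
          apply Finset.sum_le_sum
          intro A hA
          rw [h𝒜, Finset.mem_filter] at hA
          have h2 : volume (e ∩ cell (D * H') (b * D + A)) + volume (cell (D * H') (b * D + A) \ e) =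
              ENNReal.ofReal (1 / ((D * H' : ℕ) : ℝ)) := by
            rw [inter_comm, measure_inter_add_sdiff _ he, volume_cell hDH]
          have h3 : ENNReal.ofReal (1 / ((D * H' : ℕ) : ℝ)) =
              ENNReal.ofReal (3 / 4 * (1 / ((D * H' : ℕ) : ℝ))) + ENNReal.ofReal (1 / 4 * (1 / ((D * H' : ℕ) : ℝ))) := by
            rw [← ENNReal.ofReal_add (by positivity) (by positivity)]
            congr 1; ring
          by_contra hlt
          push Not at hlt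
          have h4 := ENNReal.add_lt_add hA.2 hlt
          rw [h2, ← h3] at h4
          exact lt_irrefl _ h4
      _ = volume (⋃ A ∈ 𝒜, cell (D * H') (b * D + A) \ e) := by
          rw [measure_biUnion_finset]
          · intro A _ A' _ hne
            apply Disjoint.mono sdiff_subset sdiff_subset
            exact cell_disjoint hDH (fun h => hne (by omega))
          · intro A _
            exact (measurableSet_cell _ _).diff he
      _ ≤ volume (cell H' b \ e) := by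
          apply measure_mono
          apply iUnion₂_subset
          intro A hA
          rw [h𝒜, Finset.mem_filter, Finset.mem_range] at hA
          exact sdiff_subset_sdiff_left (cell_sub_cell hD hH'0 b A hA.1)
  have hfin : ENNReal.ofReal (4 * η) < ENNReal.ofReal (4 * η) := by
    refine hη1.trans_le (hmeas.trans ?_)
    have e1 : (𝒜.card : ℝ≥0∞) * ENNReal.ofReal (1 / D) = (𝒜.card * ENNReal.ofReal (1 / 4 * (1 / ((D * H' : ℕ) : ℝ)))) * ENNReal.ofReal (4 * H') := by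
      rw [mul_assoc, ← ENNReal.ofReal_mul (by positivity)]
      congr 2
      push_cast
      field_simp
    rw [e1]
    calc (𝒜.card * ENNReal.ofReal (1 / 4 * (1 / ((D * H' : ℕ) : ℝ)))) * ENNReal.ofReal (4 * H')
        ≤ ENNReal.ofReal (η * (1 / H')) * ENNReal.ofReal (4 * H') := by gcongr
      _ = ENNReal.ofReal (4 * η) := by
          rw [← ENNReal.ofReal_mul (by positivity)]
          congr 1
          field_simp
  exact lt_irrefl _ hfin

end LorentzBlocks
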