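import Pool.Agent.Lorentz.StageProps
import Pool.Agent.Lorentz.Density

/-!
# Lower bound for the blocks of a stage operator
-/

open MeasureTheory Set Filter
open scoped ENNReal NNReal Topology

namespace LorentzBlocks

variable {θ : ℝ}

lemma NN_const_indicator_le {α : Type*} [MeasurableSpace α] {μ : Measure α} (hθ : 0 < θ) (c : ℝ) (E : Set α) :
    NN θ μ (E.indicator (fun _ => c)) ≤ ENNReal.ofReal c * (μ E) ^ θ := by
  unfold NN
  calc ∫⁻ s in Ioi (0:ℝ), (μ {a | s < E.indicator (fun _ => c) a}) ^ θ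
      ≤ ∫⁻ s in Ioi (0:ℝ), (Ioo (0:ℝ) c).indicator (fun _ => (μ E) ^ θ) s := by
        apply setLIntegral_mono (measurable_const.indicator measurableSet_Ioo)
        intro s hs
        have hs0 : (0:ℝ) < s := hs
        by_cases hc : s < c
        · rw [indicator_of_mem (show s ∈ Ioo (0:ℝ) c from ⟨hs0, hc⟩)]
          apply ENNReal.rpow_le_rpow _ hθ.le
          apply measure_mono
          intro a ha
          have ha' : s < E.indicator (fun _ => c) a := ha
          by_contra hcon
          rw [indicator_of_notMem hcon] at ha'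
          linarith
        · have : {a | s < E.indicator (fun _ => c) a} = ∅ := by
            apply eq_empty_iff_forall_notMem.2
            intro a ha
            have ha' : s < E.indicator (fun _ => c) a := ha
            by_cases haE : a ∈ E
            · rw [indicator_of_mem haE] at ha'
              exact hc ha'
            · rw [indicator_of_notMem haE] at ha'
              linarith
          rw [this, measure_empty, ENNReal.zero_rpow_of_pos hθ]
          exact zero_le
    _ ≤ ∫⁻ s, (Ioo (0:ℝ) c).indicator (fun _ => (μ E) ^ θ) s := setLIntegral_le_lintegral _ _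
    _ = ENNReal.ofReal c * (μ E) ^ θ := by
        rw [lintegral_indicator measurableSet_Ioo, lintegral_const, Measure.restrict_apply_univ,
          Real.volume_Ioo, sub_zero, mul_comm]

lemma geo_sum_le (n : ℕ) (a : ℕ → ℝ) (ha : ∀ i, 0 ≤ a i) (h2 : ∀ i, i + 1 ≤ n → 2 * a i ≤ a (i + 1)) :
    ∑ i ∈ Finset.range n, a i ≤ a n := by
  induction n with
  | zero => simpa using ha 0
  | succ n ih =>
    rw [Finset.sum_range_succ]
    have h1 := ih (fun i hi => h2 i (by omega))
    have h3 := h2 n le_rfl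
    linarith

lemma max_sum (n : ℕ) (a b : ℕ → ℝ) (ha : ∀ i, 0 ≤ a i) (h2 : ∀ i, i + 1 < n → 2 * a i ≤ a (i + 1))
    (hb : ∀ i, i < n → |b i| ≤ a i) :
    (∀ i, i < n → b i = 0) ∨ ∃ m, m < n ∧ b m ≠ 0 ∧ ∑ i ∈ Finset.range n, |b i| ≤ 2 * a m := by
  induction n with
  | zero => left; intro i hi; omega
  | succ n ih =>
    rcases ih (fun i hi => h2 i (by omega)) (fun i hi => hb i (by omega)) with h | ⟨m, hm, hbm, hsum⟩
    · by_cases hn : b n = 0
      · left
        intro i hi
        rcases Nat.lt_succ_iff_lt_or_eq.1 hi with h' | h'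
        · exact h i h'
        · rw [h']; exact hn
      · right
        refine ⟨n, by omega, hn, ?_⟩
        rw [Finset.sum_range_succ, Finset.sum_eq_zero (fun i hi => by
          rw [h i (Finset.mem_range.1 hi), abs_zero]), zero_add]
        linarith [hb n (by omega), ha n]
    · right
      by_cases hn : b n = 0
      · refine ⟨m, by omega, hbm, ?_⟩
        rw [Finset.sum_range_succ, hn, abs_zero, add_zero]
        exact hsum
      · refine ⟨n, by omega, hn, ?_⟩
        rw [Finset.sum_range_succ]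
        have h3 : ∑ i ∈ Finset.range n, |b i| ≤ ∑ i ∈ Finset.range n, a i :=
          Finset.sum_le_sum (fun i hi => hb i (by have := Finset.mem_range.1 hi; omega))
        have h4 := geo_sum_le n a ha (fun i hi => h2 i (by omega))
        linarith [hb n (by omega)]

lemma sum_offdiag_le (n j : ℕ) (hj : j < n) (w : ℕ → ℝ) {ρ : ℝ} (hρ : 0 < ρ) (hρ1 : ρ < 1)
    (hlt : ∀ i, i < j → |w i| ≤ 2 * ρ ^ (j - i)) (hgt : ∀ i, j < i → i < n → |w i| ≤ 2 * ρ ^ (i - j)) :
    w j - 4 * (ρ / (1 - ρ)) ≤ ∑ i ∈ Finset.range n, w i := by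
  have h1ρ : 0 < 1 - ρ := by linarith
  have hgeo : ∀ m : ℕ, ∑ i ∈ Finset.range m, ρ ^ (i + 1) ≤ ρ / (1 - ρ) := by
    intro m
    have h := geom_sum_eq (ne_of_lt hρ1) m
    have e1 : ∑ i ∈ Finset.range m, ρ ^ (i + 1) = ρ * ∑ i ∈ Finset.range m, ρ ^ i := by
      rw [Finset.mul_sum]
      exact Finset.sum_congr rfl (fun i _ => by ring)
    rw [e1, h, div_eq_mul_inv ρ]
    have : (ρ ^ m - 1) / (ρ - 1) ≤ (1 - ρ)⁻¹ := by
      rw [← neg_div_neg_eq, neg_sub, neg_sub, div_eq_mul_inv]
      have h3 : 0 ≤ ρ ^ m := by positivity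
      have h4 : 0 < (1 - ρ)⁻¹ := inv_pos.2 h1ρ
      nlinarith
    gcongr
  have hsplit : ∑ i ∈ Finset.range n, w i = ∑ i ∈ Finset.range j, w i + (w j + ∑ i ∈ Finset.Ico (j + 1) n, w i) := by
    rw [Finset.range_eq_Ico, ← Finset.sum_Ico_consecutive _ (Nat.zero_le j) hj.le,
      Finset.sum_eq_sum_Ico_succ_bot hj, Finset.range_eq_Ico]
  have hA : |∑ i ∈ Finset.range j, w i| ≤ 2 * (ρ / (1 - ρ)) := by
    calc |∑ i ∈ Finset.range j, w i| ≤ ∑ i ∈ Finset.range j, |w i| := Finset.abs_sum_le_sum_abs _ _
      _ ≤ ∑ i ∈ Finset.range j, 2 * ρ ^ (j - i) := Finset.sum_le_sum (fun i hi => hlt i (Finset.mem_range.1 hi))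
      _ = ∑ i ∈ Finset.range j, 2 * ρ ^ (i + 1) := by
          rw [← Finset.sum_range_reflect]
          apply Finset.sum_congr rfl
          intro i hi
          rw [Finset.mem_range] at hi
          congr 2
          omega
      _ = 2 * ∑ i ∈ Finset.range j, ρ ^ (i + 1) := by rw [Finset.mul_sum]
      _ ≤ _ := by gcongr; exact hgeo j
  have hB : |∑ i ∈ Finset.Ico (j + 1) n, w i| ≤ 2 * (ρ / (1 - ρ)) := by
    calc |∑ i ∈ Finset.Ico (j + 1) n, w i| ≤ ∑ i ∈ Finset.Ico (j + 1) n, |w i| := Finset.abs_sum_le_sum_abs _ _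
      _ ≤ ∑ i ∈ Finset.Ico (j + 1) n, 2 * ρ ^ (i - j) := Finset.sum_le_sum (fun i hi => by
          rw [Finset.mem_Ico] at hi
          exact hgt i (by omega) hi.2)
      _ = ∑ i ∈ Finset.range (n - (j + 1)), 2 * ρ ^ (i + 1) := by
          rw [Finset.sum_Ico_eq_sum_range]
          apply Finset.sum_congr rfl
          intro i _
          congr 2
          omega
      _ = 2 * ∑ i ∈ Finset.range (n - (j + 1)), ρ ^ (i + 1) := by rw [Finset.mul_sum]
      _ ≤ _ := by gcongr; exact hgeo _
  rw [hsplit]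
  have h1 := neg_abs_le (∑ i ∈ Finset.range j, w i)
  have h2 := neg_abs_le (∑ i ∈ Finset.Ico (j + 1) n, w i)
  linarith

namespace Stage

variable (S : Stage)

/-- unnormalized building block of the test function -/
noncomputable def gfun (θ : ℝ) (k i : ℕ) (t : ℝ) : ℝ := (S.L i : ℝ) ^ ((θ - 1) / 2) * S.phi i k t

/-- the test function -/
noncomputable def test (θ : ℝ) (k : ℕ) (f : Set ℝ) (t : ℝ) : ℝ :=
  f.indicator (fun t => 1 / Real.sqrt S.lam * ∑ i ∈ Finset.range S.lam, S.gfun θ k i t) t

lemma gfun_measurable (k i : ℕ) : Measurable (S.gfun θ k i) := (S.phi_measurable i k).const_mul _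

lemma test_measurable (k : ℕ) {f : Set ℝ} (hf : MeasurableSet f) : Measurable (S.test θ k f) :=
  ((Finset.measurable_fun_sum _ (fun i _ => S.gfun_measurable k i)).const_mul _).indicator hf

lemma gfun_bound (k i : ℕ) (t : ℝ) : |S.gfun θ k i t| ≤ Real.sqrt 2 * (S.L i : ℝ) ^ (θ / 2) := by
  unfold gfun
  have hL := S.L_pos i
  rw [abs_mul, abs_of_nonneg (Real.rpow_nonneg hL.le _)]
  calc (S.L i : ℝ) ^ ((θ - 1) / 2) * |S.phi i k t| ≤ (S.L i : ℝ) ^ ((θ - 1) / 2) * (Real.sqrt 2 * Real.sqrt (S.L i)) := by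
        gcongr; exact S.phi_bound i k t
    _ = Real.sqrt 2 * ((S.L i : ℝ) ^ ((θ - 1) / 2) * (S.L i : ℝ) ^ ((1:ℝ) / 2)) := by
        rw [Real.sqrt_eq_rpow (S.L i : ℝ)]; ring
    _ = Real.sqrt 2 * (S.L i : ℝ) ^ (θ / 2) := by
        rw [← Real.rpow_add hL]; congr 2; ring

lemma gfun_eq_zero (k i : ℕ) {t : ℝ} (ht : t ∉ cell (S.L i) (S.idx i k)) : S.gfun θ k i t = 0 := by
  unfold gfun phi
  rw [indicator_of_notMem ht, mul_zero]

/-- pointwise bound of the test function -/
lemma test_sq_le (hsep : ∀ i, i + 1 < S.lam → 2 * (S.L i : ℝ) ^ (θ / 2) ≤ (S.L (i + 1) : ℝ) ^ (θ / 2))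
    (k : ℕ) (f : Set ℝ) (t : ℝ) :
    S.test θ k f t = 0 ∨ ∃ m, m < S.lam ∧ t ∈ cell (S.L m) (S.idx m k) ∧
      (S.test θ k f t) ^ 2 ≤ 8 / S.lam * (S.L m : ℝ) ^ θ := by
  have hlam : (0:ℝ) < S.lam := by exact_mod_cast S.hlam
  by_cases htf : t ∈ f
  · rcases max_sum S.lam (fun i => Real.sqrt 2 * (S.L i : ℝ) ^ (θ / 2)) (fun i => S.gfun θ k i t)
      (fun i => by have := S.L_pos i; positivity) (fun i hi => by
        have := hsep i hi
        have h2 : 0 < Real.sqrt 2 := by positivity
        nlinarith) (fun i _ => S.gfun_bound k i t) with h | ⟨m, hm, hgm, hsum⟩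
    · left
      unfold test
      rw [indicator_of_mem htf, Finset.sum_eq_zero (fun i hi => h i (Finset.mem_range.1 hi)), mul_zero]
    · right
      refine ⟨m, hm, ?_, ?_⟩
      · by_contra hcon
        exact hgm (S.gfun_eq_zero k m hcon)
      · unfold test
        rw [indicator_of_mem htf, mul_pow, div_pow, one_pow, Real.sq_sqrt hlam.le]
        have hLm := S.L_pos m
        have h3 : |∑ i ∈ Finset.range S.lam, S.gfun θ k i t| ≤ 2 * (Real.sqrt 2 * (S.L m : ℝ) ^ (θ / 2)) :=
          (Finset.abs_sum_le_sum_abs _ _).trans hsum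
        have h4 : (∑ i ∈ Finset.range S.lam, S.gfun θ k i t) ^ 2 ≤ 8 * (S.L m : ℝ) ^ θ := by
          rw [← sq_abs]
          calc |∑ i ∈ Finset.range S.lam, S.gfun θ k i t| ^ 2 ≤ (2 * (Real.sqrt 2 * (S.L m : ℝ) ^ (θ / 2))) ^ 2 := by
                gcongr
            _ = 4 * (Real.sqrt 2) ^ 2 * ((S.L m : ℝ) ^ (θ / 2)) ^ 2 := by ring
            _ = 8 * (S.L m : ℝ) ^ θ := by
                rw [Real.sq_sqrt (by norm_num), ← Real.rpow_natCast ((S.L m : ℝ) ^ (θ / 2)), ← Real.rpow_mul hLm.le]
                have : θ / 2 * ((2:ℕ):ℝ) = θ := by push_cast; ring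
                rw [this]; ring
        calc 1 / (S.lam:ℝ) * (∑ i ∈ Finset.range S.lam, S.gfun θ k i t) ^ 2 ≤ 1 / (S.lam:ℝ) * (8 * (S.L m : ℝ) ^ θ) := by
              gcongr
          _ = _ := by ring
  · left
    unfold test
    rw [indicator_of_notMem htf]

lemma test_NN (hθ : 0 < θ) (hθ1 : θ < 1)
    (hsep : ∀ i, i + 1 < S.lam → 2 * (S.L i : ℝ) ^ (θ / 2) ≤ (S.L (i + 1) : ℝ) ^ (θ / 2))
    (k : ℕ) (f : Set ℝ) :
    NN θ mu01 (fun t => (S.test θ k f t) ^ 2) ≤ 8 := by
  have hlam : (0:ℝ) < S.lam := by exact_mod_cast S.hlam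
  have h1 := NN_le_tsum (μ := mu01) (ι := Fin S.lam) hθ hθ1.le (f := fun t => (S.test θ k f t) ^ 2)
    (g := fun i => (cell (S.L i) (S.idx i k)).indicator (fun _ => 8 / S.lam * (S.L i : ℝ) ^ θ)) (by
      refine Filter.Eventually.of_forall (fun t s hs hst => ?_)
      rcases S.test_sq_le hsep k f t with h | ⟨m, hm, htm, hle⟩
      · have hst' : s < (S.test θ k f t) ^ 2 := hst
        rw [h] at hst'
        norm_num at hst'
        linarith
      · refine ⟨⟨m, hm⟩, ?_⟩
        have hst' : s < (S.test θ k f t) ^ 2 := hst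
        change s < (cell (S.L m) (S.idx m k)).indicator (fun _ => 8 / S.lam * (S.L m : ℝ) ^ θ) t
        rw [indicator_of_mem htm]
        exact hst'.trans_le hle)
  refine h1.trans ?_
  calc ∑' i : Fin S.lam, NN θ mu01 ((cell (S.L i) (S.idx i k)).indicator (fun _ => 8 / S.lam * (S.L i : ℝ) ^ θ))
      ≤ ∑' i : Fin S.lam, ENNReal.ofReal (8 / S.lam) := by
        apply ENNReal.tsum_le_tsum
        intro i
        have hL := S.L_pos i
        refine (NN_const_indicator_le hθ _ _).trans (le_of_eq ?_)
        rw [mu01_cell (S.hL i) (S.idx_lt i k), ENNReal.ofReal_rpow_of_pos (by positivity),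
          ← ENNReal.ofReal_mul (by positivity)]
        congr 1
        rw [mul_assoc, ← Real.mul_rpow (by positivity) (by positivity), mul_one_div_cancel hL.ne',
          Real.one_rpow, mul_one]
    _ = 8 := by
        rw [ENNReal.tsum_const, ENat.card_eq_coe_fintype_card, Fintype.card_fin]
        have : ((S.lam : ℕ∞) : ℝ≥0∞) = ENNReal.ofReal S.lam := by simp
        rw [this, ← ENNReal.ofReal_mul (by positivity), mul_div_cancel₀ _ hlam.ne']
        norm_num

/-- the matrix entry -/
noncomputable def Mat (f : Set ℝ) (k i j : ℕ) : ℝ := ∫ t, f.indicator (fun t => S.phi i k t * S.phi j k t) t ∂mu01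

lemma integrable_phi_phi (k i j : ℕ) : Integrable (fun t => S.phi i k t * S.phi j k t) mu01 :=
  (S.phi_memLp i k 2).integrable_mul (S.phi_memLp j k 2)

lemma test_memLp (k : ℕ) {f : Set ℝ} (hf : MeasurableSet f) : MemLp (S.test θ k f) 2 mu01 := by
  have h : MemLp (fun t => 1 / Real.sqrt S.lam * ∑ i ∈ Finset.range S.lam, S.gfun θ k i t) 2 mu01 := by
    apply MemLp.const_mul
    apply memLp_finsetSum
    intro i _
    exact (S.phi_memLp i k 2).const_mul _
  exact h.indicator hf

lemma coef_test (k : ℕ) {f : Set ℝ} (hf : MeasurableSet f) (j : ℕ) :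
    S.coef (S.test θ k f) j k = 1 / Real.sqrt S.lam *
      ∑ i ∈ Finset.range S.lam, (S.L i : ℝ) ^ ((θ - 1) / 2) * S.Mat f k i j := by
  unfold coef Mat
  have e1 : ∀ t, S.test θ k f t * S.phi j k t = 1 / Real.sqrt S.lam *
      ∑ i ∈ Finset.range S.lam, (S.L i : ℝ) ^ ((θ - 1) / 2) * f.indicator (fun t => S.phi i k t * S.phi j k t) t := by
    intro t
    unfold test gfun
    by_cases ht : t ∈ f
    · simp only [indicator_of_mem ht]
      rw [mul_assoc, Finset.sum_mul]
      congr 1
      exact Finset.sum_congr rfl (fun i _ => by ring)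
    · simp only [indicator_of_notMem ht]
      simp
  simp_rw [e1]
  rw [integral_const_mul, integral_finsetSum]
  · congr 1
    apply Finset.sum_congr rfl
    intro i _
    rw [integral_const_mul]
  · intro i _
    exact ((S.integrable_phi_phi k i j).indicator hf).const_mul _

lemma Mat_diag (k j : ℕ) (hk : k < S.H) {f : Set ℝ} (hf : MeasurableSet f)
    (hdens : ENNReal.ofReal (7 / 8 * (1 / S.L j)) ≤ volume (f ∩ cell (S.L j) (S.idx j k))) :
    3 / 4 ≤ S.Mat f k j j := by
  have hL := S.L_pos j
  have h1 : ∫ t, S.phi j k t * S.phi j k t ∂mu01 = 1 := by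
    rw [S.phi_orth hk hk, if_pos rfl]
  have h2 : ∫ t, S.phi j k t * S.phi j k t ∂mu01 = S.Mat f k j j +
      ∫ t, fᶜ.indicator (fun t => S.phi j k t * S.phi j k t) t ∂mu01 := by
    unfold Mat
    rw [← integral_add ((S.integrable_phi_phi k j j).indicator hf) ((S.integrable_phi_phi k j j).indicator hf.compl)]
    congr 1
    ext t
    by_cases ht : t ∈ f
    · rw [indicator_of_mem ht, indicator_of_notMem (by simpa using ht), add_zero]
    · rw [indicator_of_notMem ht, indicator_of_mem (by simpa using ht), zero_add]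
  have h3 : ∫ t, fᶜ.indicator (fun t => S.phi j k t * S.phi j k t) t ∂mu01 ≤
      ∫ t, (cell (S.L j) (S.idx j k) \ f).indicator (fun _ => 2 * (S.L j : ℝ)) t ∂mu01 := by
    apply integral_mono
    · exact (S.integrable_phi_phi k j j).indicator hf.compl
    · exact (integrable_const _).indicator ((measurableSet_cell _ _).diff hf)
    · intro t
      by_cases ht : t ∈ f
      · simp only [indicator_of_notMem (show t ∉ fᶜ by simpa using ht),
          indicator_of_notMem (show t ∉ cell (S.L j) (S.idx j k) \ f from fun h => h.2 ht)]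
        exact le_rfl
      · simp only [indicator_of_mem (show t ∈ fᶜ by simpa using ht)]
        by_cases hc : t ∈ cell (S.L j) (S.idx j k)
        · rw [indicator_of_mem (show t ∈ cell (S.L j) (S.idx j k) \ f from ⟨hc, ht⟩)]
          have h4 := S.phi_bound j k t
          have h5 : (Real.sqrt 2 * Real.sqrt (S.L j)) * (Real.sqrt 2 * Real.sqrt (S.L j)) = 2 * S.L j := by
            have h6 : Real.sqrt 2 * Real.sqrt 2 = 2 := Real.mul_self_sqrt (by norm_num)
            have h7 : Real.sqrt (S.L j) * Real.sqrt (S.L j) = S.L j := Real.mul_self_sqrt hL.le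
            calc (Real.sqrt 2 * Real.sqrt (S.L j)) * (Real.sqrt 2 * Real.sqrt (S.L j))
                = (Real.sqrt 2 * Real.sqrt 2) * (Real.sqrt (S.L j) * Real.sqrt (S.L j)) := by ring
              _ = _ := by rw [h6, h7]
          rw [← h5, ← abs_mul_abs_self (S.phi j k t)]
          exact mul_self_le_mul_self (abs_nonneg _) h4
        · have h4 : S.phi j k t = 0 := by unfold phi; rw [indicator_of_notMem hc]
          rw [indicator_of_notMem (fun h => hc h.1), h4, mul_zero]
  have h4 : ∫ t, (cell (S.L j) (S.idx j k) \ f).indicator (fun _ => 2 * (S.L j : ℝ)) t ∂mu01 ≤ 1 / 4 := by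
    rw [integral_indicator ((measurableSet_cell _ _).diff hf), setIntegral_const, smul_eq_mul]
    have hsub : cell (S.L j) (S.idx j k) \ f ⊆ Ico (0:ℝ) 1 :=
      sdiff_subset.trans (cell_subset (S.hL j) (S.idx_lt j k))
    have h5 : volume (cell (S.L j) (S.idx j k) \ f) ≤ ENNReal.ofReal (1 / 8 * (1 / S.L j)) := by
      have h6 : volume (f ∩ cell (S.L j) (S.idx j k)) + volume (cell (S.L j) (S.idx j k) \ f) =
          ENNReal.ofReal (1 / S.L j) := by
        rw [inter_comm, measure_inter_add_sdiff _ hf, volume_cell (S.hL j)]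
      have h7 : ENNReal.ofReal (1 / (S.L j : ℝ)) = ENNReal.ofReal (7 / 8 * (1 / S.L j)) + ENNReal.ofReal (1 / 8 * (1 / S.L j)) := by
        rw [← ENNReal.ofReal_add (by positivity) (by positivity)]
        congr 1; ring
      by_contra hlt
      push Not at hlt
      have h8 := ENNReal.add_lt_add_of_le_of_lt ENNReal.ofReal_ne_top hdens hlt
      rw [h6, ← h7] at h8
      exact lt_irrefl _ h8
    have h6 : mu01.real (cell (S.L j) (S.idx j k) \ f) ≤ 1 / 8 * (1 / S.L j) := by
      rw [measureReal_def, mu01_apply_of_subset hsub]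
      exact ENNReal.toReal_le_of_le_ofReal (by positivity) h5
    calc mu01.real (cell (S.L j) (S.idx j k) \ f) * (2 * (S.L j : ℝ)) ≤ 1 / 8 * (1 / S.L j) * (2 * (S.L j : ℝ)) := by
          gcongr
      _ = 1 / 4 := by field_simp; norm_num
  linarith

lemma Mat_offdiag (k i j : ℕ) (f : Set ℝ) :
    |S.Mat f k i j| ≤ 2 * (Real.sqrt (S.L i) * Real.sqrt (S.L j)) * min (1 / (S.L i : ℝ)) (1 / S.L j) := by
  have hLi := S.L_pos i
  have hLj := S.L_pos j
  unfold Mat
  have hm : mu01.real (cell (S.L i) (S.idx i k) ∩ cell (S.L j) (S.idx j k)) ≤ min (1 / (S.L i : ℝ)) (1 / S.L j) := by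
    apply le_min
    · calc mu01.real (cell (S.L i) (S.idx i k) ∩ cell (S.L j) (S.idx j k)) ≤ mu01.real (cell (S.L i) (S.idx i k)) :=
            measureReal_mono inter_subset_left
        _ = 1 / S.L i := by
            rw [measureReal_def, mu01_cell (S.hL i) (S.idx_lt i k), ENNReal.toReal_ofReal (by positivity)]
    · calc mu01.real (cell (S.L i) (S.idx i k) ∩ cell (S.L j) (S.idx j k)) ≤ mu01.real (cell (S.L j) (S.idx j k)) :=
            measureReal_mono inter_subset_right
        _ = 1 / S.L j := by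
            rw [measureReal_def, mu01_cell (S.hL j) (S.idx_lt j k), ENNReal.toReal_ofReal (by positivity)]
  calc |∫ t, f.indicator (fun t => S.phi i k t * S.phi j k t) t ∂mu01|
      ≤ ∫ t, (cell (S.L i) (S.idx i k) ∩ cell (S.L j) (S.idx j k)).indicator
          (fun _ => 2 * (Real.sqrt (S.L i) * Real.sqrt (S.L j))) t ∂mu01 := by
        rw [← Real.norm_eq_abs]
        apply norm_integral_le_of_norm_le
        · exact (integrable_const _).indicator ((measurableSet_cell _ _).inter (measurableSet_cell _ _))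
        · refine Filter.Eventually.of_forall (fun t => ?_)
          rw [Real.norm_eq_abs]
          by_cases hi : t ∈ cell (S.L i) (S.idx i k)
          · by_cases hj : t ∈ cell (S.L j) (S.idx j k)
            · rw [indicator_of_mem (show t ∈ cell (S.L i) (S.idx i k) ∩ cell (S.L j) (S.idx j k) from ⟨hi, hj⟩)]
              have h0 : |f.indicator (fun t => S.phi i k t * S.phi j k t) t| ≤ |S.phi i k t * S.phi j k t| := by
                by_cases ht : t ∈ f
                · rw [indicator_of_mem ht]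
                · rw [indicator_of_notMem ht, abs_zero]; exact abs_nonneg _
              refine h0.trans ?_
              rw [abs_mul]
              calc |S.phi i k t| * |S.phi j k t| ≤ (Real.sqrt 2 * Real.sqrt (S.L i)) * (Real.sqrt 2 * Real.sqrt (S.L j)) := by
                    gcongr
                    · exact S.phi_bound i k t
                    · exact S.phi_bound j k t
                _ = (Real.sqrt 2 * Real.sqrt 2) * (Real.sqrt (S.L i) * Real.sqrt (S.L j)) := by ring
                _ = _ := by rw [Real.mul_self_sqrt (by norm_num)]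
            · have h4 : ∀ s, s = t → S.phi j k s = 0 := by intro s hs; rw [hs]; unfold phi; rw [indicator_of_notMem hj]
              have h5 : f.indicator (fun t => S.phi i k t * S.phi j k t) t = 0 := by
                by_cases ht : t ∈ f
                · rw [indicator_of_mem ht, h4 t rfl, mul_zero]
                · rw [indicator_of_notMem ht]
              rw [h5, abs_zero, indicator_of_notMem (fun h => hj h.2)]
          · have h4 : S.phi i k t = 0 := by unfold phi; rw [indicator_of_notMem hi]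
            have h5 : f.indicator (fun t => S.phi i k t * S.phi j k t) t = 0 := by
              by_cases ht : t ∈ f
              · rw [indicator_of_mem ht, h4, zero_mul]
              · rw [indicator_of_notMem ht]
            rw [h5, abs_zero, indicator_of_notMem (fun h => hi h.1)]
    _ = mu01.real (cell (S.L i) (S.idx i k) ∩ cell (S.L j) (S.idx j k)) * (2 * (Real.sqrt (S.L i) * Real.sqrt (S.L j))) := by
        rw [integral_indicator ((measurableSet_cell _ _).inter (measurableSet_cell _ _)), setIntegral_const, smul_eq_mul]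
    _ ≤ _ := by
        rw [mul_comm]
        gcongr

end Stage

end LorentzBlocks
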