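import Pool.Agent.Lorentz.Block

/-!
# Lower bound for the blocks of a stage operator, II
-/

open MeasureTheory Set Filter
open scoped ENNReal NNReal Topology

namespace LorentzBlocks

variable {θ : ℝ}

namespace Stage

variable (S : Stage)

/-- separation of scales iterated -/
lemma sep_iter {ρ : ℝ} (hρ : 0 < ρ) (hsep : ∀ i, i + 1 < S.lam → (S.L i : ℝ) ^ (θ / 2) ≤ ρ * (S.L (i + 1) : ℝ) ^ (θ / 2))
    (i d : ℕ) (h : i + d < S.lam) : (S.L i : ℝ) ^ (θ / 2) ≤ ρ ^ d * (S.L (i + d) : ℝ) ^ (θ / 2) := by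
  induction d with
  | zero => simp
  | succ d ih =>
    have h1 := ih (by omega)
    have h2 := hsep (i + d) (by omega)
    calc (S.L i : ℝ) ^ (θ / 2) ≤ ρ ^ d * (S.L (i + d) : ℝ) ^ (θ / 2) := h1
      _ ≤ ρ ^ d * (ρ * (S.L (i + d + 1) : ℝ) ^ (θ / 2)) := by gcongr
      _ = _ := by rw [pow_succ]; ring_nf

/-- off-diagonal weights -/
lemma weight_le (hθ : 0 < θ) (hθ1 : θ < 1) (k i j : ℕ) (f : Set ℝ) {r : ℝ} (hr : 0 < r) (hr1 : r ≤ 1)
    (h : (min (S.L i : ℝ) (S.L j)) ^ (θ / 2) ≤ r * (max (S.L i : ℝ) (S.L j)) ^ (θ / 2)) :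
    |(S.L j : ℝ) ^ ((1 - θ) / 2) * ((S.L i : ℝ) ^ ((θ - 1) / 2) * S.Mat f k i j)| ≤ 2 * r := by
  have hLi := S.L_pos i
  have hLj := S.L_pos j
  have hM := S.Mat_offdiag k i j f
  rw [abs_mul, abs_mul, abs_of_nonneg (Real.rpow_nonneg hLj.le _), abs_of_nonneg (Real.rpow_nonneg hLi.le _)]
  rcases le_total (S.L i : ℝ) (S.L j) with hij | hij
  · rw [min_eq_left hij, max_eq_right hij] at h
    have h1 : min (1 / (S.L i : ℝ)) (1 / S.L j) ≤ 1 / S.L j := min_le_right _ _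
    calc (S.L j : ℝ) ^ ((1 - θ) / 2) * ((S.L i : ℝ) ^ ((θ - 1) / 2) * |S.Mat f k i j|)
        ≤ (S.L j : ℝ) ^ ((1 - θ) / 2) * ((S.L i : ℝ) ^ ((θ - 1) / 2) *
            (2 * (Real.sqrt (S.L i) * Real.sqrt (S.L j)) * (1 / S.L j))) := by
          gcongr
          exact hM.trans (by gcongr)
      _ = 2 * (((S.L i : ℝ) ^ ((θ - 1) / 2) * (S.L i : ℝ) ^ ((1:ℝ) / 2)) *
            ((S.L j : ℝ) ^ ((1 - θ) / 2) * (S.L j : ℝ) ^ ((1:ℝ) / 2) * (S.L j : ℝ) ^ (-1 : ℝ))) := by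
          rw [Real.sqrt_eq_rpow, Real.sqrt_eq_rpow, Real.rpow_neg_one]
          ring
      _ = 2 * ((S.L i : ℝ) ^ (θ / 2) * (S.L j : ℝ) ^ (-(θ / 2))) := by
          rw [← Real.rpow_add hLi, ← Real.rpow_add hLj, ← Real.rpow_add hLj]
          congr 3 <;> ring
      _ ≤ 2 * ((r * (S.L j : ℝ) ^ (θ / 2)) * (S.L j : ℝ) ^ (-(θ / 2))) := by gcongr
      _ = 2 * r := by
          rw [mul_assoc r, ← Real.rpow_add hLj]
          simp
  · rw [min_eq_right hij, max_eq_left hij] at h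
    have h1 : min (1 / (S.L i : ℝ)) (1 / S.L j) ≤ 1 / S.L i := min_le_left _ _
    have hratio : (S.L j : ℝ) / S.L i ≤ 1 := by rw [div_le_one hLi]; exact hij
    calc (S.L j : ℝ) ^ ((1 - θ) / 2) * ((S.L i : ℝ) ^ ((θ - 1) / 2) * |S.Mat f k i j|)
        ≤ (S.L j : ℝ) ^ ((1 - θ) / 2) * ((S.L i : ℝ) ^ ((θ - 1) / 2) *
            (2 * (Real.sqrt (S.L i) * Real.sqrt (S.L j)) * (1 / S.L i))) := by
          gcongr
          exact hM.trans (by gcongr)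
      _ = 2 * (((S.L j : ℝ) ^ ((1 - θ) / 2) * (S.L j : ℝ) ^ ((1:ℝ) / 2)) *
            ((S.L i : ℝ) ^ ((θ - 1) / 2) * (S.L i : ℝ) ^ ((1:ℝ) / 2) * (S.L i : ℝ) ^ (-1 : ℝ))) := by
          rw [Real.sqrt_eq_rpow, Real.sqrt_eq_rpow, Real.rpow_neg_one]
          ring
      _ = 2 * ((S.L j : ℝ) ^ (1 - θ / 2) * (S.L i : ℝ) ^ (-(1 - θ / 2))) := by
          rw [← Real.rpow_add hLi, ← Real.rpow_add hLj, ← Real.rpow_add hLi]
          congr 3 <;> ring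
      _ = 2 * ((S.L j : ℝ) / S.L i) ^ (1 - θ / 2) := by
          rw [Real.div_rpow hLj.le hLi.le, Real.rpow_neg hLi.le, ← div_eq_mul_inv]
      _ ≤ 2 * ((S.L j : ℝ) / S.L i) ^ (θ / 2) := by
          gcongr 2 * ?_
          apply Real.rpow_le_rpow_of_exponent_ge (by positivity) hratio (by linarith)
      _ ≤ 2 * r := by
          gcongr
          rw [Real.div_rpow hLj.le hLi.le, div_le_iff₀ (by positivity)]
          exact h

/-- value of `T test` on the cell of `k` -/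
lemma T_test_ge (hθ : 0 < θ) (hθ1 : θ < 1) (k : ℕ) (hk : k < S.H) {f : Set ℝ} (hf : MeasurableSet f)
    (hmono : ∀ i j, i ≤ j → (S.L i : ℝ) ≤ S.L j)
    (hsep : ∀ i, i + 1 < S.lam → (S.L i : ℝ) ^ (θ / 2) ≤ (1 / 20) * (S.L (i + 1) : ℝ) ^ (θ / 2))
    (hdens : ∀ j, j < S.lam → ENNReal.ofReal (7 / 8 * (1 / S.L j)) ≤ volume (f ∩ cell (S.L j) (S.idx j k)))
    {t : ℝ} (ht : t ∈ cell S.H k) :
    (S.H : ℝ) ^ θ / 4 ≤ (S.T θ (S.test θ k f) t) ^ 2 := by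
  have hH := S.H_pos
  have hlam : (0:ℝ) < S.lam := by exact_mod_cast S.hlam
  have ht0 : 0 ≤ t := (cell_subset S.hH hk ht).1
  have htk : ⌊(S.H : ℝ) * t⌋₊ = k := (mem_cell_iff S.hH ht0).1 ht
  have hrow : ∀ j, j < S.lam → 1 / 2 ≤ ∑ i ∈ Finset.range S.lam,
      (S.L j : ℝ) ^ ((1 - θ) / 2) * ((S.L i : ℝ) ^ ((θ - 1) / 2) * S.Mat f k i j) := by
    intro j hj
    have h1 := sum_offdiag_le S.lam j hj (fun i => (S.L j : ℝ) ^ ((1 - θ) / 2) * ((S.L i : ℝ) ^ ((θ - 1) / 2) * S.Mat f k i j))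
      (ρ := 1 / 20) (by norm_num) (by norm_num) (by
        intro i hi
        apply S.weight_le hθ hθ1 k i j f (by positivity) (pow_le_one₀ (by norm_num) (by norm_num))
        have h2 := hmono i j hi.le
        rw [min_eq_left h2, max_eq_right h2]
        have h3 := S.sep_iter (θ := θ) (ρ := 1 / 20) (by norm_num) hsep i (j - i) (by omega)
        rwa [Nat.add_sub_cancel' hi.le] at h3) (by
        intro i hi hin
        apply S.weight_le hθ hθ1 k i j f (by positivity) (pow_le_one₀ (by norm_num) (by norm_num))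
        have h2 := hmono j i hi.le
        rw [min_eq_right h2, max_eq_left h2]
        have h3 := S.sep_iter (θ := θ) (ρ := 1 / 20) (by norm_num) hsep j (i - j) (by omega)
        rwa [Nat.add_sub_cancel' hi.le] at h3)
    have h4 : 3 / 4 ≤ (S.L j : ℝ) ^ ((1 - θ) / 2) * ((S.L j : ℝ) ^ ((θ - 1) / 2) * S.Mat f k j j) := by
      rw [← mul_assoc, ← Real.rpow_add (S.L_pos j)]
      have : (1 - θ) / 2 + (θ - 1) / 2 = 0 := by ring
      rw [this, Real.rpow_zero, one_mul]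
      exact S.Mat_diag k j hk hf (hdens j hj)
    refine le_trans ?_ h1
    norm_num at h4 ⊢
    linarith
  have hval : S.T θ (S.test θ k f) t = (S.H : ℝ) ^ (θ / 2) * (1 / S.lam * ∑ j ∈ Finset.range S.lam,
      ∑ i ∈ Finset.range S.lam, (S.L j : ℝ) ^ ((1 - θ) / 2) * ((S.L i : ℝ) ^ ((θ - 1) / 2) * S.Mat f k i j)) := by
    unfold T op
    rw [htk]
    have e1 : ∀ j, (S.H : ℝ) ^ (θ / 2) * (S.L j : ℝ) ^ ((1 - θ) / 2) * S.coef (S.test θ k f) j k =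
        1 / Real.sqrt S.lam * (S.H : ℝ) ^ (θ / 2) *
          ∑ i ∈ Finset.range S.lam, (S.L j : ℝ) ^ ((1 - θ) / 2) * ((S.L i : ℝ) ^ ((θ - 1) / 2) * S.Mat f k i j) := by
      intro j
      rw [S.coef_test k hf j, ← Finset.mul_sum]
      ring
    simp_rw [e1]
    rw [← Finset.mul_sum]
    have h2 : 1 / Real.sqrt S.lam * (1 / Real.sqrt S.lam) = 1 / S.lam := by
      rw [one_div_mul_one_div, Real.mul_self_sqrt hlam.le]
    calc _ = (1 / Real.sqrt S.lam * (1 / Real.sqrt S.lam)) * (S.H : ℝ) ^ (θ / 2) * ∑ j ∈ Finset.range S.lam,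
          ∑ i ∈ Finset.range S.lam, (S.L j : ℝ) ^ ((1 - θ) / 2) * ((S.L i : ℝ) ^ ((θ - 1) / 2) * S.Mat f k i j) := by
            ring
      _ = _ := by rw [h2]; ring
  have hge : (S.H : ℝ) ^ (θ / 2) * (1 / 2) ≤ S.T θ (S.test θ k f) t := by
    rw [hval]
    gcongr
    rw [one_div, one_div, ← div_eq_inv_mul, le_div_iff₀ hlam]
    calc (2:ℝ)⁻¹ * S.lam = ∑ j ∈ Finset.range S.lam, (1 / 2 : ℝ) := by
          rw [Finset.sum_const, Finset.card_range, nsmul_eq_mul]; ring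
      _ ≤ _ := Finset.sum_le_sum (fun j hj => hrow j (Finset.mem_range.1 hj))
  have hpos : 0 ≤ (S.H : ℝ) ^ (θ / 2) * (1 / 2) := by positivity
  calc (S.H : ℝ) ^ θ / 4 = ((S.H : ℝ) ^ (θ / 2) * (1 / 2)) ^ 2 := by
        rw [mul_pow, ← Real.rpow_natCast ((S.H : ℝ) ^ (θ / 2)), ← Real.rpow_mul hH.le]
        have : θ / 2 * ((2:ℕ):ℝ) = θ := by push_cast; ring
        rw [this]; ring
    _ ≤ _ := by gcongr

lemma idx_eq_floor (i k : ℕ) {t0 : ℝ} (h : k % S.D = ⌊(S.D:ℝ) * t0⌋₊) :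
    S.idx i k = ⌊(S.L i : ℝ) * t0⌋₊ := by
  obtain ⟨c, hc⟩ := S.hLD i
  have hL := S.hL i
  have hc0 : 0 < c := by
    rcases Nat.eq_zero_or_pos c with h0 | h0
    · have := S.hD
      rw [hc, h0, mul_zero] at this
      omega
    · exact h0
  have hDL : S.D / S.L i = c := by rw [hc, Nat.mul_div_cancel_left _ hL]
  unfold idx
  rw [h, hDL, ← Nat.floor_div_natCast]
  congr 1
  have hc' : (c:ℝ) ≠ 0 := by exact_mod_cast hc0.ne'
  rw [hc]
  push_cast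
  field_simp

/-- the block lower bound -/
lemma block (hθ : 0 < θ) (hθ1 : θ < 1)
    (hmono : ∀ i j, i ≤ j → (S.L i : ℝ) ≤ S.L j)
    (hsep : ∀ i, i + 1 < S.lam → (S.L i : ℝ) ^ (θ / 2) ≤ (1 / 20) * (S.L (i + 1) : ℝ) ^ (θ / 2))
    {l0 H' : ℕ} (hL0 : ∀ i, l0 ≤ S.L i) (hHD : S.H = S.D * H') (hH' : l0 ≤ H')
    {e f : Set ℝ} (he : MeasurableSet e) (hf : MeasurableSet f) (hc : Cond e f l0) :
    ∃ x : ℝ → ℝ, Measurable x ∧ MemLp x 2 mu01 ∧ (∀ t, t ∉ f → x t = 0) ∧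
      (∀ t, (x t) ^ 2 ≤ 8 * (S.D : ℝ) ^ θ) ∧
      NN θ mu01 (fun t => (x t) ^ 2) ≤ 8 ∧
      ENNReal.ofReal (3 / 16) ≤ NN θ mu01 (fun t => (e.indicator (S.T θ x) t) ^ 2) := by
  have hH := S.H_pos
  have hlam : (0:ℝ) < S.lam := by exact_mod_cast S.hlam
  have hlam1 : (1:ℝ) ≤ S.lam := by exact_mod_cast S.hlam
  obtain ⟨k, hk, t0, ht0, hkt, hek⟩ := exists_index he hc S.hD hH'
  rw [← hHD] at hk hek
  have hsep2 : ∀ i, i + 1 < S.lam → 2 * (S.L i : ℝ) ^ (θ / 2) ≤ (S.L (i + 1) : ℝ) ^ (θ / 2) := by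
    intro i hi
    have h1 := hsep i hi
    have h2 : 0 ≤ (S.L (i+1) : ℝ) ^ (θ / 2) := Real.rpow_nonneg (S.L_pos _).le _
    linarith
  have hdens : ∀ j, j < S.lam → ENNReal.ofReal (7 / 8 * (1 / S.L j)) ≤ volume (f ∩ cell (S.L j) (S.idx j k)) := by
    intro j _
    rw [S.idx_eq_floor j k hkt]
    exact ht0.2 _ (hL0 j)
  refine ⟨S.test θ k f, S.test_measurable k hf, S.test_memLp k hf, ?_, ?_, S.test_NN hθ hθ1 hsep2 k f, ?_⟩
  · intro t ht
    unfold test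
    rw [indicator_of_notMem ht]
  · intro t
    have hDpos : (0:ℝ) < S.D := by exact_mod_cast S.hD
    rcases S.test_sq_le hsep2 k f t with h | ⟨m, hm, _, h⟩
    · rw [h]; norm_num; positivity
    · refine h.trans ?_
      have hL := S.L_pos m
      have h1 : (S.L m : ℝ) ≤ S.D := by exact_mod_cast Nat.le_of_dvd S.hD (S.hLD m)
      have h2 : 8 / (S.lam : ℝ) ≤ 8 := by
        rw [div_le_iff₀ hlam]; linarith
      gcongr
  · have hval : ∀ t ∈ cell S.H k, (S.H : ℝ) ^ θ / 4 ≤ (S.T θ (S.test θ k f) t) ^ 2 :=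
      fun t ht => S.T_test_ge hθ hθ1 k hk hf hmono hsep hdens ht
    have h1 := mul_meas_rpow_le_NN (μ := mu01) hθ.le (v := (S.H : ℝ) ^ θ / 4)
      (fun t => (e.indicator (S.T θ (S.test θ k f)) t) ^ 2)
    refine le_trans ?_ h1
    have h2 : ENNReal.ofReal (3 / 4 * (1 / (S.H : ℝ))) ≤
        mu01 {a | (S.H : ℝ) ^ θ / 4 ≤ (e.indicator (S.T θ (S.test θ k f)) a) ^ 2} := by
      refine hek.trans ?_
      rw [← mu01_apply_of_subset (inter_subset_right.trans (cell_subset S.hH hk))]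
      apply measure_mono
      intro a ha
      change (S.H : ℝ) ^ θ / 4 ≤ (e.indicator (S.T θ (S.test θ k f)) a) ^ 2
      rw [indicator_of_mem ha.1]
      exact hval a ha.2
    calc ENNReal.ofReal (3 / 16) ≤ ENNReal.ofReal ((S.H : ℝ) ^ θ / 4 * (3 / 4 * (1 / (S.H : ℝ))) ^ θ) := by
          apply ENNReal.ofReal_le_ofReal
          rw [Real.mul_rpow (by norm_num) (by positivity)]
          have h3 : (S.H : ℝ) ^ θ * (1 / (S.H : ℝ)) ^ θ = 1 := by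
            rw [← Real.mul_rpow hH.le (by positivity), mul_one_div_cancel hH.ne', Real.one_rpow]
          have h4 : (3 / 4 : ℝ) ≤ (3 / 4 : ℝ) ^ θ := by
            calc (3 / 4 : ℝ) = (3 / 4 : ℝ) ^ (1:ℝ) := (Real.rpow_one _).symm
              _ ≤ (3 / 4 : ℝ) ^ θ := Real.rpow_le_rpow_of_exponent_ge (by norm_num) (by norm_num) hθ1.le
          calc (3 / 16 : ℝ) ≤ 1 / 4 * (3 / 4 : ℝ) ^ θ := by linarith
            _ = 1 / 4 * (3 / 4 : ℝ) ^ θ * ((S.H : ℝ) ^ θ * (1 / (S.H : ℝ)) ^ θ) := by rw [h3, mul_one]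
            _ = _ := by ring
      _ = ENNReal.ofReal ((S.H : ℝ) ^ θ / 4) * (ENNReal.ofReal (3 / 4 * (1 / (S.H : ℝ)))) ^ θ := by
          rw [ENNReal.ofReal_rpow_of_pos (by positivity), ENNReal.ofReal_mul (by positivity)]
      _ ≤ _ := by gcongr

end Stage

end LorentzBlocks
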