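import Pool.Agent.Lorentz.Basic3

/-!
# Cells `[k/H,(k+1)/H)` of the unit interval, Bessel inequality
-/

open MeasureTheory Set
open scoped ENNReal NNReal

namespace LorentzBlocks

/-- Lebesgue measure on `[0,1)`. -/
noncomputable def mu01 : Measure ℝ := volume.restrict (Ico (0:ℝ) 1)

instance : IsProbabilityMeasure mu01 := by
  constructor
  unfold mu01
  rw [Measure.restrict_apply_univ, Real.volume_Ico]
  norm_num

/-- the cell `[k/H,(k+1)/H)` -/
def cell (H k : ℕ) : Set ℝ := Ico ((k:ℝ) / H) ((k + 1 : ℝ) / H)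

lemma measurableSet_cell (H k : ℕ) : MeasurableSet (cell H k) := measurableSet_Ico

lemma mem_cell_iff {H : ℕ} (hH : 0 < H) {k : ℕ} {t : ℝ} (ht : 0 ≤ t) :
    t ∈ cell H k ↔ ⌊(H:ℝ) * t⌋₊ = k := by
  have hH' : (0:ℝ) < H := by exact_mod_cast hH
  unfold cell
  rw [mem_Ico, Nat.floor_eq_iff (by positivity), div_le_iff₀ hH', lt_div_iff₀ hH', mul_comm t]

lemma volume_cell {H : ℕ} (hH : 0 < H) (k : ℕ) : volume (cell H k) = ENNReal.ofReal (1 / H) := by
  have hH' : (0:ℝ) < H := by exact_mod_cast hH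
  unfold cell
  rw [Real.volume_Ico]
  congr 1
  field_simp
  ring

lemma cell_subset {H : ℕ} (hH : 0 < H) {k : ℕ} (hk : k < H) : cell H k ⊆ Ico (0:ℝ) 1 := by
  have hH' : (0:ℝ) < H := by exact_mod_cast hH
  intro t ht
  unfold cell at ht
  rw [mem_Ico] at ht ⊢
  have h1 : (0:ℝ) ≤ (k:ℝ) / H := by positivity
  have h2 : ((k:ℝ) + 1) / H ≤ 1 := by
    rw [div_le_one hH']
    exact_mod_cast hk
  exact ⟨h1.trans ht.1, ht.2.trans_le h2⟩

lemma cell_disjoint {H : ℕ} (hH : 0 < H) : Pairwise (Function.onFun Disjoint (cell H)) := by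
  intro i j hij
  rw [Function.onFun, Set.disjoint_left]
  intro t hi hj
  have ht : 0 ≤ t := by
    have : (0:ℝ) ≤ (i:ℝ) / H := by positivity
    exact this.trans hi.1
  rw [mem_cell_iff hH ht] at hi hj
  exact hij (hi.symm.trans hj)

lemma iUnion_cell {H : ℕ} (hH : 0 < H) : (⋃ k ∈ Finset.range H, cell H k) = Ico (0:ℝ) 1 := by
  have hH' : (0:ℝ) < H := by exact_mod_cast hH
  apply Subset.antisymm
  · apply iUnion₂_subset
    intro k hk
    exact cell_subset hH (Finset.mem_range.1 hk)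
  · intro t ht
    rw [mem_iUnion₂]
    refine ⟨⌊(H:ℝ) * t⌋₊, ?_, (mem_cell_iff hH ht.1).2 rfl⟩
    rw [Finset.mem_range, Nat.floor_lt (mul_nonneg hH'.le ht.1)]
    calc (H:ℝ) * t < H * 1 := by
          apply mul_lt_mul_of_pos_left ht.2 hH'
      _ = H := mul_one _

lemma floor_lt_of_mem {H : ℕ} (hH : 0 < H) {t : ℝ} (ht : t ∈ Ico (0:ℝ) 1) : ⌊(H:ℝ) * t⌋₊ < H := by
  have hH' : (0:ℝ) < H := by exact_mod_cast hH
  rw [Nat.floor_lt (mul_nonneg hH'.le ht.1)]
  calc (H:ℝ) * t < H * 1 := by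
        apply mul_lt_mul_of_pos_left ht.2 hH'
    _ = H := mul_one _

lemma mu01_apply_of_subset {s : Set ℝ} (hs : s ⊆ Ico (0:ℝ) 1) : mu01 s = volume s := by
  unfold mu01
  exact Measure.restrict_eq_self _ hs

lemma mu01_cell {H : ℕ} (hH : 0 < H) {k : ℕ} (hk : k < H) : mu01 (cell H k) = ENNReal.ofReal (1 / H) := by
  rw [mu01_apply_of_subset (cell_subset hH hk), volume_cell hH]

lemma lintegral_mu01_cells {H : ℕ} (hH : 0 < H) (F : ℝ → ℝ≥0∞) :
    ∫⁻ t, F t ∂mu01 = ∑ k ∈ Finset.range H, ∫⁻ t in cell H k, F t := by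
  unfold mu01
  rw [← iUnion_cell hH]
  exact lintegral_biUnion_finset (fun i _ j _ hij => cell_disjoint hH hij)
    (fun k _ => measurableSet_cell H k) F

lemma lintegral_mu01_step {H : ℕ} (hH : 0 < H) (g : ℕ → ℝ≥0∞) :
    ∫⁻ t, g ⌊(H:ℝ) * t⌋₊ ∂mu01 = ENNReal.ofReal (1 / H) * ∑ k ∈ Finset.range H, g k := by
  rw [lintegral_mu01_cells hH, Finset.mul_sum]
  apply Finset.sum_congr rfl
  intro k hk
  have : ∫⁻ t in cell H k, g ⌊(H:ℝ) * t⌋₊ = ∫⁻ t in cell H k, g k := by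
    apply setLIntegral_congr_fun (measurableSet_cell H k)
    intro t ht
    have ht0 : 0 ≤ t := (cell_subset hH (Finset.mem_range.1 hk) ht).1
    have := (mem_cell_iff hH ht0).1 ht
    simp only [this]
  rw [this, lintegral_const, Measure.restrict_apply_univ, volume_cell hH, mul_comm]

lemma measurable_step (H : ℕ) {β : Type*} [MeasurableSpace β] (g : ℕ → β) :
    Measurable (fun t : ℝ => g ⌊(H:ℝ) * t⌋₊) := by
  have h1 : Measurable (fun t : ℝ => ⌊(H:ℝ) * t⌋₊) := Nat.measurable_floor.comp (measurable_const_mul _)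
  exact (measurable_from_nat (f := g)).comp h1

lemma mu01_step {H : ℕ} (hH : 0 < H) (P : ℕ → Prop) [DecidablePred P] :
    mu01 {t | P ⌊(H:ℝ) * t⌋₊} = ENNReal.ofReal (1 / H) * ((Finset.range H).filter P).card := by
  have h1 : mu01 {t | P ⌊(H:ℝ) * t⌋₊} = ∫⁻ t, (fun k => if P k then (1:ℝ≥0∞) else 0) ⌊(H:ℝ) * t⌋₊ ∂mu01 := by
    have hmeas : MeasurableSet {t : ℝ | P ⌊(H:ℝ) * t⌋₊} := by
      have h2 : Measurable (fun t : ℝ => ⌊(H:ℝ) * t⌋₊) := Nat.measurable_floor.comp (measurable_const_mul _)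
      exact h2 (MeasurableSet.of_discrete (s := {k | P k}))
    rw [← lintegral_indicator_one hmeas]
    apply lintegral_congr
    intro t
    by_cases h : P ⌊(H:ℝ) * t⌋₊
    · rw [indicator_of_mem (show t ∈ {t : ℝ | P ⌊(H:ℝ) * t⌋₊} from h)]
      simp [h]
    · rw [indicator_of_notMem (show t ∉ {t : ℝ | P ⌊(H:ℝ) * t⌋₊} from h)]
      simp [h]
  rw [h1, lintegral_mu01_step hH (fun k => if P k then (1:ℝ≥0∞) else 0)]
  congr 1
  rw [Finset.sum_ite, Finset.sum_const_zero, add_zero, Finset.sum_const, nsmul_eq_mul, mul_one]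

/-- level sets of step functions have measure `0` or `≥ 1/H` -/
lemma step_level {H : ℕ} (hH : 0 < H) (g : ℕ → ℝ) (s : ℝ) :
    mu01 {t | s < g ⌊(H:ℝ) * t⌋₊} = 0 ∨
      ENNReal.ofReal (1 / H) ≤ mu01 {t | s < g ⌊(H:ℝ) * t⌋₊} := by
  classical
  rw [mu01_step hH (fun k => s < g k)]
  by_cases h : ((Finset.range H).filter (fun k => s < g k)).card = 0
  · left; rw [h]; simp
  · right
    calc ENNReal.ofReal (1 / H) = ENNReal.ofReal (1 / H) * 1 := (mul_one _).symm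
      _ ≤ _ := by
          gcongr
          exact_mod_cast Nat.one_le_iff_ne_zero.2 h

/-- Bessel's inequality in `L²(mu01)`. -/
lemma bessel {ι : Type*} [DecidableEq ι] (s : Finset ι) (φ : ι → ℝ → ℝ) (hφ : ∀ i, MemLp (φ i) 2 mu01)
    (horth : ∀ i j, ∫ t, φ i t * φ j t ∂mu01 = if i = j then 1 else 0)
    {x : ℝ → ℝ} (hx : MemLp x 2 mu01) :
    ∑ i ∈ s, (∫ t, x t * φ i t ∂mu01) ^ 2 ≤ ∫ t, (x t) ^ 2 ∂mu01 := by
  set v : ι → Lp ℝ 2 mu01 := fun i => (hφ i).toLp (φ i) with hv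
  set X : Lp ℝ 2 mu01 := hx.toLp x with hX
  have hin : ∀ (f g : ℝ → ℝ) (hf : MemLp f 2 mu01) (hg : MemLp g 2 mu01),
      inner ℝ (hf.toLp f) (hg.toLp g) = ∫ t, f t * g t ∂mu01 := by
    intro f g hf hg
    rw [L2.inner_def]
    apply integral_congr_ae
    filter_upwards [hf.coeFn_toLp, hg.coeFn_toLp] with t h1 h2
    rw [h1, h2, real_inner_eq_re_inner]
    simp [mul_comm]
  have hon : Orthonormal ℝ v := by
    rw [orthonormal_iff_ite]
    intro i j
    rw [hv]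
    simp only
    rw [hin _ _ (hφ i) (hφ j), horth]
  have h := hon.sum_inner_products_le (x := X) (s := s)
  have e1 : ∀ i, ‖inner ℝ (v i) X‖ ^ 2 = (∫ t, x t * φ i t ∂mu01) ^ 2 := by
    intro i
    rw [hv, hX]
    simp only
    rw [hin _ _ (hφ i) hx, Real.norm_eq_abs, sq_abs]
    congr 2
    ext t
    ring
  have e2 : ‖X‖ ^ 2 = ∫ t, (x t) ^ 2 ∂mu01 := by
    rw [← real_inner_self_eq_norm_sq, hX, hin _ _ hx hx]
    congr 1
    ext t
    ring
  rw [e2] at h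
  simp_rw [e1] at h
  exact h

end LorentzBlocks
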