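import Pool.Agent.Lorentz.Basic

/-!
# Lorentz spaces on `[0,1]` and the class `D(L^{p,q})`
-/

open MeasureTheory Set Filter
open scoped ENNReal NNReal Topology

namespace LorentzBlocks

/-- Lebesgue measure on `[0,1]` -/
noncomputable def leb : Measure ℝ := volume.restrict (Icc (0:ℝ) 1)

/-- the non-increasing rearrangement `x*` of `|x|` at `t` -/
noncomputable def rearr (x : ℝ →ₘ[leb] ℝ) (t : ℝ) : ℝ≥0∞ :=
  sInf {s : ℝ≥0∞ | leb {r | s < ‖x r‖ₑ} ≤ ENNReal.ofReal t}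

/-- the Lorentz (quasi)norm `‖x‖_{p,q}` -/
noncomputable def lorentzNorm (p : ℝ) (q : ℝ≥0∞) (x : ℝ →ₘ[leb] ℝ) : ℝ≥0∞ :=
  if q = ∞ then ⨆ t ∈ Ioc (0:ℝ) 1, ENNReal.ofReal (t ^ (1 / p)) * rearr x t
  else (∫⁻ t in Ioc (0:ℝ) 1, (ENNReal.ofReal (t ^ (1 / p)) * rearr x t) ^ q.toReal *
    ENNReal.ofReal (1 / t)) ^ (1 / q.toReal)

lemma rearr_antitone (x : ℝ →ₘ[leb] ℝ) {t t' : ℝ} (h : t ≤ t') : rearr x t' ≤ rearr x t := by
  unfold rearr
  apply sInf_le_sInf
  intro s hs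
  exact le_trans (show leb {r | s < ‖x r‖ₑ} ≤ ENNReal.ofReal t from hs) (ENNReal.ofReal_le_ofReal h)

lemma measurable_rearr (x : ℝ →ₘ[leb] ℝ) : Measurable (rearr x) :=
  Antitone.measurable (fun _ _ h => rearr_antitone x h)

lemma meas_le_of_rearr_lt {x : ℝ →ₘ[leb] ℝ} {t : ℝ} {a : ℝ≥0∞} (h : rearr x t < a) :
    leb {r | a < ‖x r‖ₑ} ≤ ENNReal.ofReal t := by
  unfold rearr at h
  obtain ⟨s, hs, hsa⟩ := sInf_lt_iff.1 h
  refine le_trans (measure_mono ?_) (show leb {r | s < ‖x r‖ₑ} ≤ ENNReal.ofReal t from hs)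
  intro r hr
  exact hsa.trans (show a < ‖x r‖ₑ from hr)

lemma rearr_le_of_meas {x : ℝ →ₘ[leb] ℝ} {t : ℝ} {a : ℝ≥0∞} (h : leb {r | a < ‖x r‖ₑ} ≤ ENNReal.ofReal t) :
    rearr x t ≤ a := sInf_le h

lemma rearr_add_le (x y : ℝ →ₘ[leb] ℝ) {t : ℝ} (ht : 0 ≤ t) :
    rearr (x + y) t ≤ rearr x (t / 2) + rearr y (t / 2) := by
  by_cases hx : rearr x (t / 2) = ∞
  · rw [hx, top_add]; exact le_top
  by_cases hy : rearr y (t / 2) = ∞
  · rw [hy, add_top]; exact le_top
  apply ENNReal.le_of_forall_pos_le_add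
  intro ε hε _
  have hε2 : (0:ℝ≥0∞) < ε / 2 := by
    apply ENNReal.div_pos _ (by norm_num)
    exact_mod_cast hε.ne'
  have h1 := meas_le_of_rearr_lt (ENNReal.lt_add_right hx hε2.ne')
  have h2 := meas_le_of_rearr_lt (ENNReal.lt_add_right hy hε2.ne')
  apply rearr_le_of_meas
  calc leb {r | rearr x (t / 2) + rearr y (t / 2) + ε < ‖(x + y) r‖ₑ}
      ≤ leb ({r | rearr x (t / 2) + ε / 2 < ‖x r‖ₑ} ∪ {r | rearr y (t / 2) + ε / 2 < ‖y r‖ₑ}) := by
        apply measure_mono_ae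
        filter_upwards [AEEqFun.coeFn_add x y] with r hr hlt
        have hlt' : rearr x (t / 2) + rearr y (t / 2) + ε < ‖(x + y) r‖ₑ := hlt
        rw [hr, Pi.add_apply] at hlt'
        by_contra hcon
        have hcon' : ¬ (rearr x (t / 2) + ε / 2 < ‖x r‖ₑ ∨ rearr y (t / 2) + ε / 2 < ‖y r‖ₑ) := hcon
        push Not at hcon'
        have h3 : ‖x r + y r‖ₑ ≤ rearr x (t / 2) + rearr y (t / 2) + ε := by
          calc ‖x r + y r‖ₑ ≤ ‖x r‖ₑ + ‖y r‖ₑ := enorm_add_le _ _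
            _ ≤ (rearr x (t / 2) + ε / 2) + (rearr y (t / 2) + ε / 2) := add_le_add hcon'.1 hcon'.2
            _ = rearr x (t / 2) + rearr y (t / 2) + (ε / 2 + ε / 2) := by ring
            _ = _ := by rw [ENNReal.add_halves]
        exact absurd hlt' (not_lt.2 h3)
    _ ≤ _ := measure_union_le _ _
    _ ≤ ENNReal.ofReal (t / 2) + ENNReal.ofReal (t / 2) := add_le_add h1 h2
    _ = ENNReal.ofReal t := by
        rw [← ENNReal.ofReal_add (by linarith) (by linarith)]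
        congr 1; ring

lemma rearr_smul_le (c : ℝ) (x : ℝ →ₘ[leb] ℝ) (t : ℝ) (ht : 0 ≤ t) :
    rearr (c • x) t ≤ ‖c‖ₑ * rearr x t := by
  by_cases hc : c = 0
  · subst hc
    have : rearr ((0:ℝ) • x) t ≤ 0 := by
      apply rearr_le_of_meas
      have h0 : leb {r | (0:ℝ≥0∞) < ‖((0:ℝ) • x) r‖ₑ} = 0 := by
        rw [measure_eq_zero_iff_ae_notMem]
        filter_upwards [AEEqFun.coeFn_smul (0:ℝ) x] with r hr h
        have h' : (0:ℝ≥0∞) < ‖((0:ℝ) • x) r‖ₑ := h
        rw [hr] at h'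
        simp at h'
      rw [h0]; exact zero_le
    exact this.trans zero_le
  by_cases hx : rearr x t = ∞
  · rw [hx, ENNReal.mul_top (by simpa using hc)]; exact le_top
  have hc0 : ‖c‖ₑ ≠ 0 := by simpa using hc
  have hctop : ‖c‖ₑ ≠ ∞ := enorm_ne_top
  have key : ∀ a, rearr x t < a → rearr (c • x) t ≤ ‖c‖ₑ * a := by
    intro a ha
    have h1 := meas_le_of_rearr_lt ha
    apply rearr_le_of_meas
    refine le_trans (measure_mono_ae ?_) h1
    filter_upwards [AEEqFun.coeFn_smul c x] with r hr h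
    have h' : ‖c‖ₑ * a < ‖(c • x) r‖ₑ := h
    rw [hr, Pi.smul_apply, smul_eq_mul, enorm_mul] at h'
    change a < ‖x r‖ₑ
    by_contra hcon
    push Not at hcon
    exact absurd h' (not_lt.2 (mul_le_mul' le_rfl hcon))
  rw [mul_comm, ← ENNReal.div_le_iff hc0 hctop]
  apply le_of_forall_gt_imp_ge_of_dense
  intro a ha
  rw [ENNReal.div_le_iff hc0 hctop, mul_comm]
  exact key a ha

lemma rearr_zero {t : ℝ} : rearr 0 t = 0 := by
  rw [← nonpos_iff_eq_zero]
  apply rearr_le_of_meas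
  have h0 : leb {r | (0:ℝ≥0∞) < ‖(0 : ℝ →ₘ[leb] ℝ) r‖ₑ} = 0 := by
    rw [measure_eq_zero_iff_ae_notMem]
    filter_upwards [AEEqFun.coeFn_zero (α := ℝ) (β := ℝ) (μ := leb)] with r hr h
    have h' : (0:ℝ≥0∞) < ‖(0 : ℝ →ₘ[leb] ℝ) r‖ₑ := h
    rw [hr] at h'
    simp at h'
  rw [h0]; exact zero_le

lemma rearr_mono {x y : ℝ →ₘ[leb] ℝ} (h : ∀ᵐ r ∂leb, ‖x r‖ₑ ≤ ‖y r‖ₑ) (t : ℝ) : rearr x t ≤ rearr y t := by
  unfold rearr
  apply sInf_le_sInf
  intro s hs
  have hs' : leb {r | s < ‖y r‖ₑ} ≤ ENNReal.ofReal t := hs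
  refine le_trans (measure_mono_ae ?_) hs'
  filter_upwards [h] with r hr h1
  exact lt_of_lt_of_le (show s < ‖x r‖ₑ from h1) hr

lemma lorentzNorm_mono {p : ℝ} {q : ℝ≥0∞} {x y : ℝ →ₘ[leb] ℝ} (h : ∀ᵐ r ∂leb, ‖x r‖ₑ ≤ ‖y r‖ₑ) :
    lorentzNorm p q x ≤ lorentzNorm p q y := by
  unfold lorentzNorm
  split_ifs
  · apply iSup₂_mono
    intro t _
    gcongr
    exact rearr_mono h t
  · apply ENNReal.rpow_le_rpow _ (by positivity)
    exact lintegral_mono (fun t => mul_le_mul' (ENNReal.rpow_le_rpow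
      (mul_le_mul' le_rfl (rearr_mono h t)) ENNReal.toReal_nonneg) le_rfl)

lemma lorentzNorm_zero_q (p : ℝ) (x : ℝ →ₘ[leb] ℝ) : lorentzNorm p 0 x = 1 := by
  unfold lorentzNorm
  rw [if_neg ENNReal.zero_ne_top]
  simp

lemma lorentzNorm_lt_top_of_dil {p : ℝ} {q : ℝ≥0∞} {u : ℝ → ℝ≥0∞} (hu : Measurable u) :
    (∫⁻ t in Ioc (0:ℝ) 1, (ENNReal.ofReal (t ^ (1 / p)) * u (t / 2)) ^ q.toReal * ENNReal.ofReal (1 / t)) ≤
     ENNReal.ofReal ((2:ℝ) ^ (1 / p)) ^ q.toReal *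
      ∫⁻ t in Ioc (0:ℝ) 1, (ENNReal.ofReal (t ^ (1 / p)) * u t) ^ q.toReal * ENNReal.ofReal (1 / t) := by
  set F : ℝ → ℝ≥0∞ := fun t => (Ioc (0:ℝ) 1).indicator (fun t => (ENNReal.ofReal (t ^ (1 / p)) * u t) ^ q.toReal *
    ENNReal.ofReal (1 / t)) t with hF
  have h1 : ∫⁻ t in Ioc (0:ℝ) 1, (ENNReal.ofReal (t ^ (1 / p)) * u (t / 2)) ^ q.toReal * ENNReal.ofReal (1 / t) ≤
      ∫⁻ t in Ioi (0:ℝ), ENNReal.ofReal ((2:ℝ) ^ (1 / p)) ^ q.toReal * (ENNReal.ofReal (1 / 2) * F (1 / 2 * t)) := by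
    rw [← lintegral_indicator measurableSet_Ioc, ← lintegral_indicator measurableSet_Ioi]
    apply lintegral_mono
    intro t
    by_cases ht : t ∈ Ioc (0:ℝ) 1
    · rw [indicator_of_mem ht, indicator_of_mem (show t ∈ Ioi (0:ℝ) from ht.1)]
      simp only [hF]
      have ht0 : (0:ℝ) < t := ht.1
      rw [indicator_of_mem (show 1 / 2 * t ∈ Ioc (0:ℝ) 1 from ⟨by linarith, by linarith [ht.2]⟩)]
      have e1 : t / 2 = 1 / 2 * t := by ring
      rw [e1]
      have e2 : ENNReal.ofReal (t ^ (1 / p)) = ENNReal.ofReal ((2:ℝ) ^ (1 / p)) * ENNReal.ofReal ((1 / 2 * t) ^ (1 / p)) := by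
        rw [← ENNReal.ofReal_mul (by positivity), ← Real.mul_rpow (by norm_num) (by positivity)]
        congr 2; ring
      have e3 : ENNReal.ofReal (1 / t) = ENNReal.ofReal (1 / 2) * ENNReal.ofReal (1 / (1 / 2 * t)) := by
        rw [← ENNReal.ofReal_mul (by positivity)]
        congr 1; field_simp
      rw [e2, e3, mul_assoc, ENNReal.mul_rpow_of_nonneg _ _ ENNReal.toReal_nonneg]
      apply le_of_eq
      ring
    · rw [indicator_of_notMem ht]; exact zero_le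
  refine h1.trans ?_
  have hFm : Measurable F := by
    apply Measurable.indicator _ measurableSet_Ioc
    apply Measurable.mul
    · apply Measurable.pow_const
      apply Measurable.mul _ hu
      fun_prop
    · fun_prop
  have hFm2 : Measurable (fun t => F (1 / 2 * t)) := hFm.comp (measurable_const_mul _)
  rw [lintegral_const_mul _ (hFm2.const_mul _)]
  refine mul_le_mul' le_rfl ?_
  rw [lintegral_const_mul _ hFm2, lintegral_Ioi_comp_mul (by norm_num)]
  rw [← mul_assoc, ← ENNReal.ofReal_mul (by norm_num)]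
  norm_num
  rw [← lintegral_indicator measurableSet_Ioi, ← lintegral_indicator measurableSet_Ioc]
  apply lintegral_mono
  intro t
  by_cases ht : t ∈ Ioi (0:ℝ)
  · rw [indicator_of_mem ht]
    simp [hF]
  · rw [indicator_of_notMem ht]; exact zero_le

lemma lorentzNorm_add_lt_top {p : ℝ} {q : ℝ≥0∞} {x y : ℝ →ₘ[leb] ℝ} (hx : lorentzNorm p q x < ∞)
    (hy : lorentzNorm p q y < ∞) : lorentzNorm p q (x + y) < ∞ := by
  by_cases hq0 : q = 0
  · rw [hq0, lorentzNorm_zero_q]; exact ENNReal.one_lt_top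
  by_cases hq : q = ∞
  · unfold lorentzNorm at *
    rw [if_pos hq] at *
    refine lt_of_le_of_lt ?_ (ENNReal.mul_lt_top (ENNReal.ofReal_lt_top (r := (2:ℝ) ^ (1 / p))) (ENNReal.add_lt_top.2 ⟨hx, hy⟩))
    apply iSup₂_le
    intro t ht
    have ht0 : (0:ℝ) < t := ht.1
    have ht2 : t / 2 ∈ Ioc (0:ℝ) 1 := ⟨by linarith, by linarith [ht.2]⟩
    have e2 : ENNReal.ofReal (t ^ (1 / p)) = ENNReal.ofReal ((2:ℝ) ^ (1 / p)) * ENNReal.ofReal ((t / 2) ^ (1 / p)) := by
      rw [← ENNReal.ofReal_mul (by positivity), ← Real.mul_rpow (by norm_num) (by positivity)]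
      congr 2; ring
    calc ENNReal.ofReal (t ^ (1 / p)) * rearr (x + y) t
        ≤ ENNReal.ofReal (t ^ (1 / p)) * (rearr x (t / 2) + rearr y (t / 2)) := by
          gcongr; exact rearr_add_le x y ht0.le
      _ = ENNReal.ofReal ((2:ℝ) ^ (1 / p)) * (ENNReal.ofReal ((t / 2) ^ (1 / p)) * rearr x (t / 2) +
            ENNReal.ofReal ((t / 2) ^ (1 / p)) * rearr y (t / 2)) := by
          rw [e2]; ring
      _ ≤ _ := by
          gcongr
          · exact le_iSup₂ (f := fun t (_ : t ∈ Ioc (0:ℝ) 1) => ENNReal.ofReal (t ^ (1 / p)) * rearr x t) (t / 2) ht2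
          · exact le_iSup₂ (f := fun t (_ : t ∈ Ioc (0:ℝ) 1) => ENNReal.ofReal (t ^ (1 / p)) * rearr y t) (t / 2) ht2
  · have hqr : 0 < q.toReal := ENNReal.toReal_pos hq0 hq
    have hfin : ∀ z : ℝ →ₘ[leb] ℝ, lorentzNorm p q z < ∞ →
        ∫⁻ t in Ioc (0:ℝ) 1, (ENNReal.ofReal (t ^ (1 / p)) * rearr z t) ^ q.toReal * ENNReal.ofReal (1 / t) < ∞ := by
      intro z hz
      unfold lorentzNorm at hz
      rw [if_neg hq] at hz
      by_contra hcon
      push Not at hcon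
      rw [top_le_iff] at hcon
      rw [hcon, ENNReal.top_rpow_of_pos (by positivity)] at hz
      exact lt_irrefl _ hz
    have hx' := hfin x hx
    have hy' := hfin y hy
    unfold lorentzNorm
    rw [if_neg hq]
    apply ENNReal.rpow_lt_top_of_nonneg (by positivity)
    have hdx := lorentzNorm_lt_top_of_dil (p := p) (q := q) (measurable_rearr x)
    have hdy := lorentzNorm_lt_top_of_dil (p := p) (q := q) (measurable_rearr y)
    have hC : ENNReal.ofReal ((2:ℝ) ^ (1 / p)) ^ q.toReal < ∞ :=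
      ENNReal.rpow_lt_top_of_nonneg hqr.le ENNReal.ofReal_ne_top
    have hgx := lt_of_le_of_lt hdx (ENNReal.mul_lt_top hC hx')
    have hgy := lt_of_le_of_lt hdy (ENNReal.mul_lt_top hC hy')
    have hm : ∀ z : ℝ →ₘ[leb] ℝ, Measurable (fun t : ℝ => (ENNReal.ofReal (t ^ (1 / p)) * rearr z (t / 2)) ^ q.toReal *
        ENNReal.ofReal (1 / t)) := by
      intro z
      apply Measurable.mul
      · apply Measurable.pow_const
        apply Measurable.mul
        · fun_prop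
        · exact (measurable_rearr z).comp (measurable_id.div_const 2)
      · fun_prop
    refine ne_of_lt (lt_of_le_of_lt ?_ (ENNReal.mul_lt_top (ENNReal.rpow_lt_top_of_nonneg hqr.le (by norm_num : (2:ℝ≥0∞) ≠ ∞))
      (ENNReal.add_lt_top.2 ⟨hgx, hgy⟩)))
    have hm2 : Measurable (fun t : ℝ => (ENNReal.ofReal (t ^ (1 / p)) * rearr x (t / 2)) ^ q.toReal *
        ENNReal.ofReal (1 / t) + (ENNReal.ofReal (t ^ (1 / p)) * rearr y (t / 2)) ^ q.toReal *
        ENNReal.ofReal (1 / t)) := (hm x).add (hm y)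
    rw [← lintegral_add_left (hm x), ← lintegral_const_mul _ hm2]
    apply setLIntegral_mono (hm2.const_mul _)
    intro t ht
    have hmax : ∀ a b : ℝ≥0∞, (a + b) ^ q.toReal ≤ 2 ^ q.toReal * (a ^ q.toReal + b ^ q.toReal) := by
      intro a b
      calc (a + b) ^ q.toReal ≤ (2 * max a b) ^ q.toReal := by
            apply ENNReal.rpow_le_rpow _ hqr.le
            rw [two_mul]
            exact add_le_add (le_max_left _ _) (le_max_right _ _)
        _ = 2 ^ q.toReal * (max a b) ^ q.toReal := ENNReal.mul_rpow_of_nonneg _ _ hqr.le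
        _ ≤ _ := by
            gcongr
            rcases le_total a b with h | h
            · rw [max_eq_right h]; exact le_add_self
            · rw [max_eq_left h]; exact le_self_add
    calc (ENNReal.ofReal (t ^ (1 / p)) * rearr (x + y) t) ^ q.toReal * ENNReal.ofReal (1 / t)
        ≤ (ENNReal.ofReal (t ^ (1 / p)) * rearr x (t / 2) + ENNReal.ofReal (t ^ (1 / p)) * rearr y (t / 2)) ^ q.toReal *
            ENNReal.ofReal (1 / t) := by
          rw [← mul_add]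
          gcongr
          exact rearr_add_le x y ht.1.le
      _ ≤ (2 ^ q.toReal * ((ENNReal.ofReal (t ^ (1 / p)) * rearr x (t / 2)) ^ q.toReal +
            (ENNReal.ofReal (t ^ (1 / p)) * rearr y (t / 2)) ^ q.toReal)) * ENNReal.ofReal (1 / t) := by
          gcongr
          exact hmax _ _
      _ = _ := by ring

lemma lorentzNorm_smul_lt_top {p : ℝ} {q : ℝ≥0∞} (c : ℝ) {x : ℝ →ₘ[leb] ℝ} (hx : lorentzNorm p q x < ∞) :
    lorentzNorm p q (c • x) < ∞ := by
  by_cases hq0 : q = 0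
  · rw [hq0, lorentzNorm_zero_q]; exact ENNReal.one_lt_top
  by_cases hq : q = ∞
  · unfold lorentzNorm at *
    rw [if_pos hq] at *
    refine lt_of_le_of_lt ?_ (ENNReal.mul_lt_top (enorm_lt_top (x := c)) hx)
    apply iSup₂_le
    intro t ht
    calc ENNReal.ofReal (t ^ (1 / p)) * rearr (c • x) t ≤ ENNReal.ofReal (t ^ (1 / p)) * (‖c‖ₑ * rearr x t) := by
          gcongr; exact rearr_smul_le c x t ht.1.le
      _ = ‖c‖ₑ * (ENNReal.ofReal (t ^ (1 / p)) * rearr x t) := by ring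
      _ ≤ _ := by
          gcongr
          exact le_iSup₂ (f := fun t (_ : t ∈ Ioc (0:ℝ) 1) => ENNReal.ofReal (t ^ (1 / p)) * rearr x t) t ht
  · have hqr : 0 < q.toReal := ENNReal.toReal_pos hq0 hq
    have hx' : ∫⁻ t in Ioc (0:ℝ) 1, (ENNReal.ofReal (t ^ (1 / p)) * rearr x t) ^ q.toReal * ENNReal.ofReal (1 / t) < ∞ := by
      unfold lorentzNorm at hx
      rw [if_neg hq] at hx
      by_contra hcon
      push Not at hcon
      rw [top_le_iff] at hcon
      rw [hcon, ENNReal.top_rpow_of_pos (by positivity)] at hx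
      exact lt_irrefl _ hx
    unfold lorentzNorm
    rw [if_neg hq]
    apply ENNReal.rpow_lt_top_of_nonneg (by positivity)
    have hC : ‖c‖ₑ ^ q.toReal < ∞ := ENNReal.rpow_lt_top_of_nonneg hqr.le enorm_ne_top
    refine ne_of_lt (lt_of_le_of_lt ?_ (ENNReal.mul_lt_top hC hx'))
    have hm : Measurable (fun t : ℝ => (ENNReal.ofReal (t ^ (1 / p)) * rearr x t) ^ q.toReal * ENNReal.ofReal (1 / t)) := by
      apply Measurable.mul
      · apply Measurable.pow_const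
        apply Measurable.mul
        · fun_prop
        · exact measurable_rearr x
      · fun_prop
    rw [← lintegral_const_mul _ hm]
    apply setLIntegral_mono (hm.const_mul _)
    intro t ht
    calc (ENNReal.ofReal (t ^ (1 / p)) * rearr (c • x) t) ^ q.toReal * ENNReal.ofReal (1 / t)
        ≤ (‖c‖ₑ * (ENNReal.ofReal (t ^ (1 / p)) * rearr x t)) ^ q.toReal * ENNReal.ofReal (1 / t) := by
          apply mul_le_mul' (ENNReal.rpow_le_rpow _ hqr.le) le_rfl
          calc ENNReal.ofReal (t ^ (1 / p)) * rearr (c • x) t ≤ ENNReal.ofReal (t ^ (1 / p)) * (‖c‖ₑ * rearr x t) := by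
                gcongr; exact rearr_smul_le c x t ht.1.le
            _ = ‖c‖ₑ * (ENNReal.ofReal (t ^ (1 / p)) * rearr x t) := by ring
      _ = _ := by
          rw [ENNReal.mul_rpow_of_nonneg _ _ hqr.le, mul_assoc]

lemma lorentzNorm_zero_lt_top (p : ℝ) (q : ℝ≥0∞) : lorentzNorm p q 0 < ∞ := by
  by_cases hq0 : q = 0
  · rw [hq0, lorentzNorm_zero_q]; exact ENNReal.one_lt_top
  unfold lorentzNorm
  by_cases hq : q = ∞
  · rw [if_pos hq]
    simp [rearr_zero]
  · have hqr : 0 < q.toReal := ENNReal.toReal_pos hq0 hq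
    rw [if_neg hq]
    simp [rearr_zero, ENNReal.zero_rpow_of_pos hqr]
    exact ENNReal.rpow_lt_top_of_nonneg (by positivity) (by simp)

/-- the Lorentz space `L^{p,q}` on `[0,1]`, a linear subspace of the space of classes of
measurable functions modulo a.e. equality -/
noncomputable def Lor (p : ℝ) (q : ℝ≥0∞) : Submodule ℝ (ℝ →ₘ[leb] ℝ) where
  carrier := {x | lorentzNorm p q x < ∞}
  add_mem' := fun hx hy => lorentzNorm_add_lt_top hx hy
  zero_mem' := lorentzNorm_zero_lt_top p q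
  smul_mem' := fun c _ hx => lorentzNorm_smul_lt_top c hx

/-- multiplication `Q_e` by the indicator of `e`, on `L^{p,q}` -/
noncomputable def mulInd {p : ℝ} {q : ℝ≥0∞} (e : Set ℝ) (he : MeasurableSet e) (x : Lor p q) : Lor p q :=
  ⟨AEEqFun.mk (e.indicator (x : ℝ →ₘ[leb] ℝ)) ((x : ℝ →ₘ[leb] ℝ).aestronglyMeasurable.indicator he), by
    have h := x.2
    change lorentzNorm p q _ < ∞ at h
    change lorentzNorm p q _ < ∞
    refine lt_of_le_of_lt (lorentzNorm_mono ?_) h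
    filter_upwards [AEEqFun.coeFn_mk (e.indicator (x : ℝ →ₘ[leb] ℝ))
      ((x : ℝ →ₘ[leb] ℝ).aestronglyMeasurable.indicator he)] with r hr
    rw [hr]
    by_cases hre : r ∈ e
    · rw [indicator_of_mem hre]
    · rw [indicator_of_notMem hre]; simp⟩

/-- the norm of the block `Q_e T Q_f` of an operator on `L^{p,q}` -/
noncomputable def blockNorm {p : ℝ} {q : ℝ≥0∞} (T : Lor p q →ₗ[ℝ] Lor p q) (e f : Set ℝ)
    (he : MeasurableSet e) (hf : MeasurableSet f) : ℝ≥0∞ :=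
  ⨆ (x : Lor p q) (_ : lorentzNorm p q x ≤ 1), lorentzNorm p q (mulInd e he (T (mulInd f hf x)))

/-- `σ(T, L^{p,q})` -/
noncomputable def sigma {p : ℝ} {q : ℝ≥0∞} (T : Lor p q →ₗ[ℝ] Lor p q) : ℝ≥0∞ :=
  ⨅ (e : Set ℝ) (f : Set ℝ) (he : MeasurableSet e) (hf : MeasurableSet f) (_ : e ⊆ Icc 0 1) (_ : f ⊆ Icc 0 1)
    (_ : 0 < volume e * volume f), blockNorm T e f he hf

/-- `D(L^{p,q})`: the bounded linear operators `T` on `L^{p,q}` with `σ(T, L^{p,q}) > 0` -/
def calD (p : ℝ) (q : ℝ≥0∞) : Set (Lor p q →ₗ[ℝ] Lor p q) :=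
  {T | (∃ C : ℝ≥0, ∀ x : Lor p q, lorentzNorm p q (T x) ≤ C * lorentzNorm p q x) ∧ 0 < sigma T}

/-- the statement `D(L^{p,q}) ≠ ∅` -/
def DNonempty (p : ℝ) (q : ℝ≥0∞) : Prop := (calD p q).Nonempty

end LorentzBlocks
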