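import Pool.Agent.Lorentz.Params

/-!
# The sum over all stages
-/

open MeasureTheory Set Filter
open scoped ENNReal NNReal Topology

namespace LorentzBlocks

variable {θ : ℝ}

/-- error sizes -/
noncomputable def epsS (n : ℕ) : ℝ := (1 / 16) ^ n / 16384

lemma epsS_pos (n : ℕ) : 0 < epsS n := by unfold epsS; positivity

lemma epsS_le (n : ℕ) : epsS n ≤ 1 / 1024 := by
  unfold epsS
  have : ((1:ℝ) / 16) ^ n ≤ 1 := pow_le_one₀ (by norm_num) (by norm_num)
  rw [div_le_div_iff₀ (by norm_num) (by norm_num)]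
  linarith

lemma epsS_le' (n : ℕ) : epsS n ≤ (1 / 16) ^ n := by
  unfold epsS
  have : (0:ℝ) ≤ ((1:ℝ) / 16) ^ n := by positivity
  rw [div_le_iff₀ (by norm_num)]
  linarith

lemma tsum_epsS (c : ℝ) (hc : 0 ≤ c) :
    ∑' n : ℕ, ENNReal.ofReal (4 ^ (n + 1)) * ENNReal.ofReal (c * epsS n) ≤ ENNReal.ofReal (c / 3072) := by
  have h1 : ∀ n : ℕ, ENNReal.ofReal (4 ^ (n + 1)) * ENNReal.ofReal (c * epsS n) =
      ENNReal.ofReal (c / 4096 * (1 / 4) ^ n) := by
    intro n
    rw [← ENNReal.ofReal_mul (by positivity)]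
    congr 1
    unfold epsS
    have : (4:ℝ) ^ n * (1 / 16) ^ n = (1 / 4) ^ n := by
      rw [← mul_pow]; norm_num
    rw [← this, pow_succ]
    ring
  simp_rw [h1]
  have hs : Summable (fun n : ℕ => c / 4096 * (1 / 4 : ℝ) ^ n) :=
    (summable_geometric_of_lt_one (by norm_num) (by norm_num)).mul_left _
  rw [← ENNReal.ofReal_tsum_of_nonneg (fun n => by positivity) hs, tsum_mul_left,
    tsum_geometric_of_lt_one (by norm_num) (by norm_num)]
  apply ENNReal.ofReal_le_ofReal
  apply le_of_eq
  norm_num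
  ring

/-- family of stages -/
structure Family (S : ℕ → Stage) (θ : ℝ) (B : ℕ → ℝ) : Prop where
  hθ : 0 < θ
  hθ1 : θ < 1
  hB0 : B 0 = 8
  facts : ∀ n, StageFacts (S n) θ (B n) (B (n + 1)) (epsS n) (n + 1)

lemma exists_family (hθ : 0 < θ) (hθ1 : θ < 1) : ∃ (S : ℕ → Stage) (B : ℕ → ℝ), Family S θ B := by
  have step : ∀ (n : ℕ) (b : ℝ), ∃ q : Stage × ℝ, 8 ≤ b → StageFacts q.1 θ b q.2 (epsS n) (n + 1) := by
    intro n b
    by_cases hb : 8 ≤ b
    · obtain ⟨S, B', h⟩ := stage_exists hθ hθ1 hb (epsS_pos n) (epsS_le n) (Nat.succ_pos n)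
      exact ⟨(S, B'), fun _ => h⟩
    · obtain ⟨S, B', h⟩ := stage_exists hθ hθ1 (le_refl (8:ℝ)) (epsS_pos n) (epsS_le n) (Nat.succ_pos n)
      exact ⟨(S, B'), fun h' => absurd h' hb⟩
  choose F hF using step
  set B : ℕ → ℝ := fun n => Nat.rec 8 (fun n b => (F n b).2) n with hB
  have hB0 : B 0 = 8 := rfl
  have hB1 : ∀ n, B (n + 1) = (F n (B n)).2 := fun n => rfl
  have hBge : ∀ n, 8 ≤ B n := by
    intro n
    induction n with
    | zero => rw [hB0]
    | succ n ih =>
      have := (hF n (B n) ih).hBB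
      rw [← hB1] at this
      linarith
  refine ⟨fun n => (F n (B n)).1, B, hθ, hθ1, hB0, fun n => ?_⟩
  rw [hB1]
  exact hF n (B n) (hBge n)

/-- a.e. summability -/
lemma summable_ae {y : ℕ → ℝ → ℝ} (hy : ∀ n, Measurable (y n)) {c : ℝ≥0∞} (hc : c ≠ ∞)
    (h : ∀ n, ∫⁻ s, ENNReal.ofReal ((y n s) ^ 2) ∂mu01 ≤ ENNReal.ofReal ((1 / 16) ^ n) * c) :
    ∀ᵐ s ∂mu01, Summable (fun n => y n s) := by
  have hGm : ∀ n, Measurable (fun s => ENNReal.ofReal (4 ^ n) * ENNReal.ofReal ((y n s) ^ 2)) :=
    fun n => ((hy n).pow_const 2).ennreal_ofReal.const_mul _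
  have hG : ∫⁻ s, ∑' n, ENNReal.ofReal (4 ^ n) * ENNReal.ofReal ((y n s) ^ 2) ∂mu01 ≠ ∞ := by
    rw [lintegral_tsum (fun n => (hGm n).aemeasurable)]
    have h1 : ∀ n, ∫⁻ s, ENNReal.ofReal (4 ^ n) * ENNReal.ofReal ((y n s) ^ 2) ∂mu01 ≤
        ENNReal.ofReal ((1 / 4) ^ n) * c := by
      intro n
      rw [lintegral_const_mul _ ((hy n).pow_const 2).ennreal_ofReal]
      calc ENNReal.ofReal (4 ^ n) * ∫⁻ s, ENNReal.ofReal ((y n s) ^ 2) ∂mu01
          ≤ ENNReal.ofReal (4 ^ n) * (ENNReal.ofReal ((1 / 16) ^ n) * c) := by gcongr; exact h n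
        _ = ENNReal.ofReal ((1 / 4) ^ n) * c := by
            rw [← mul_assoc, ← ENNReal.ofReal_mul (by positivity), ← mul_pow]
            norm_num
    refine ne_top_of_le_ne_top ?_ (ENNReal.tsum_le_tsum h1)
    rw [ENNReal.tsum_mul_right]
    apply ENNReal.mul_ne_top _ hc
    exact (summable_geometric_of_lt_one (by norm_num) (by norm_num)).tsum_ofReal_ne_top
  filter_upwards [ae_lt_top (Measurable.tsum (fun n => hGm n)) hG] with s hs
  set M : ℝ := (∑' n, ENNReal.ofReal (4 ^ n) * ENNReal.ofReal ((y n s) ^ 2)).toReal with hM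
  have hbound : ∀ n, ‖y n s‖ ≤ Real.sqrt M * (1 / 2) ^ n := by
    intro n
    have h1 : ENNReal.ofReal (4 ^ n) * ENNReal.ofReal ((y n s) ^ 2) ≤
        ∑' n, ENNReal.ofReal (4 ^ n) * ENNReal.ofReal ((y n s) ^ 2) := ENNReal.le_tsum n
    rw [← ENNReal.ofReal_mul (by positivity), ENNReal.ofReal_le_iff_le_toReal hs.ne, ← hM] at h1
    have h2 : (2 ^ n * |y n s|) ^ 2 ≤ M := by
      rw [mul_pow, sq_abs, ← pow_mul, mul_comm n 2, pow_mul]
      norm_num
      exact h1
    have h3 : 2 ^ n * |y n s| ≤ Real.sqrt M := Real.le_sqrt_of_sq_le h2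
    rw [Real.norm_eq_abs]
    have h4 : (2:ℝ) ^ n * (1 / 2) ^ n = 1 := by rw [← mul_pow]; norm_num
    calc |y n s| = (2 ^ n * |y n s|) * (1 / 2) ^ n := by
          calc |y n s| = ((2:ℝ) ^ n * (1 / 2) ^ n) * |y n s| := by rw [h4, one_mul]
            _ = _ := by ring
      _ ≤ Real.sqrt M * (1 / 2) ^ n := by gcongr
  exact Summable.of_norm_bounded ((summable_geometric_of_lt_one (by norm_num) (by norm_num)).mul_left _) hbound

/-- level separation -/
lemma level_sum (β b : ℕ → ℝ) (h0 : 0 ≤ β 0) (h2 : ∀ i, 2 * β i ≤ β (i + 1))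
    (hb : ∀ i, |b i| ≤ β (i + 1) / 2) (hb2 : ∀ i, b i = 0 ∨ β i < |b i|) (n : ℕ) :
    (∑ i ∈ Finset.range n, b i = 0) ∨ ∃ m, m < n ∧ (∑ i ∈ Finset.range n, b i) ^ 2 ≤ 4 * (b m) ^ 2 := by
  have hsum : ∀ n, ∑ i ∈ Finset.range n, |b i| ≤ β n := by
    intro n
    induction n with
    | zero => simpa using h0
    | succ n ih =>
      rw [Finset.sum_range_succ]
      have := hb n
      have := h2 n
      linarith
  induction n with
  | zero => left; simp
  | succ n ih =>
    by_cases hn : b n = 0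
    · rw [Finset.sum_range_succ, hn, add_zero]
      rcases ih with h | ⟨m, hm, h⟩
      · left; exact h
      · right; exact ⟨m, by omega, h⟩
    · right
      refine ⟨n, by omega, ?_⟩
      have h1 : β n < |b n| := by
        rcases hb2 n with h | h
        · exact absurd h hn
        · exact h
      have h3 : |∑ i ∈ Finset.range (n + 1), b i| ≤ 2 * |b n| := by
        rw [Finset.sum_range_succ]
        calc |∑ i ∈ Finset.range n, b i + b n| ≤ |∑ i ∈ Finset.range n, b i| + |b n| := abs_add_le _ _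
          _ ≤ ∑ i ∈ Finset.range n, |b i| + |b n| := by gcongr; exact Finset.abs_sum_le_sum_abs _ _
          _ ≤ 2 * |b n| := by linarith [hsum n]
      rw [← sq_abs]
      calc |∑ i ∈ Finset.range (n + 1), b i| ^ 2 ≤ (2 * |b n|) ^ 2 := by gcongr
        _ = 4 * (b n) ^ 2 := by rw [mul_pow, sq_abs]; ring

namespace Family

variable {S : ℕ → Stage} {B : ℕ → ℝ}

/-- the operator -/
noncomputable def Tsum (S : ℕ → Stage) (θ : ℝ) (x : ℝ → ℝ) (s : ℝ) : ℝ := ∑' n, (S n).T θ x s

lemma Tsum_smul (c : ℝ) (x : ℝ → ℝ) (s : ℝ) : Tsum S θ (fun r => c * x r) s = c * Tsum S θ x s := by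
  unfold Tsum
  simp_rw [Stage.T_smul]
  exact tsum_mul_left

lemma Tsum_congr {x y : ℝ → ℝ} (h : ∀ᵐ s ∂mu01, x s = y s) (s : ℝ) : Tsum S θ x s = Tsum S θ y s := by
  unfold Tsum
  simp_rw [Stage.T_congr _ h]

lemma Tsum_measurable (x : ℝ → ℝ) : Measurable (Tsum S θ x) := by
  unfold Tsum
  exact Measurable.tsum (fun n => (S n).T_measurable x)

variable (F : Family S θ B)
include F

lemma Bge (n : ℕ) : 8 ≤ B n := by
  induction n with
  | zero => rw [F.hB0]
  | succ n ih => have := (F.facts n).hBB; linarith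

lemma Bmono {m n : ℕ} (h : m ≤ n) : B m ≤ B n := by
  induction n, h using Nat.le_induction with
  | base => exact le_rfl
  | succ n _ ih => have := (F.facts n).hBB; have := F.Bge n; linarith

lemma l2 (n : ℕ) {x : ℝ → ℝ} (hx : MemLp x 2 mu01) :
    ∫⁻ s, ENNReal.ofReal (((S n).T θ x s) ^ 2) ∂mu01 ≤
      ENNReal.ofReal ((1 / 16) ^ n) * ∫⁻ s, ENNReal.ofReal ((x s) ^ 2) ∂mu01 := by
  refine ((F.facts n).l2 x hx).trans ?_
  gcongr
  exact epsS_le' n

lemma lintegral_ne_top {x : ℝ → ℝ} (hx : MemLp x 2 mu01) :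
    ∫⁻ s, ENNReal.ofReal ((x s) ^ 2) ∂mu01 ≠ ∞ := by
  rw [← ofReal_integral_sq hx]; exact ENNReal.ofReal_ne_top

lemma summable_T {x : ℝ → ℝ} (hx : MemLp x 2 mu01) : ∀ᵐ s ∂mu01, Summable (fun n => (S n).T θ x s) :=
  summable_ae (fun n => (S n).T_measurable x) (F.lintegral_ne_top hx) (fun n => F.l2 n hx)

lemma Tsum_add {x y : ℝ → ℝ} (hx : MemLp x 2 mu01) (hy : MemLp y 2 mu01) :
    ∀ᵐ s ∂mu01, Tsum S θ (fun r => x r + y r) s = Tsum S θ x s + Tsum S θ y s := by
  filter_upwards [F.summable_T hx, F.summable_T hy] with s h1 h2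
  unfold Tsum
  rw [← h1.tsum_add h2]
  congr 1
  ext n
  exact (S n).T_add hx hy s

lemma decomp (x : ℝ → ℝ) (n : ℕ) (s : ℝ) :
    x s = Good.low B x n s + (Good.mid B x n s + Good.high B x n s) := by
  have h1 := (F.facts n).hBB
  have h2 := F.Bge n
  unfold Good.low Good.mid Good.high
  by_cases ha : |x s| < B n
  · rw [if_pos ha, if_neg (by intro hc; linarith [hc.1]), if_neg (by intro hc; linarith)]
    ring
  · by_cases hb : |x s| < B (n + 1)
    · rw [if_neg ha, if_pos ⟨not_lt.1 ha, hb⟩, if_neg (not_le.2 hb)]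
      ring
    · rw [if_neg ha, if_neg (fun hc => hb hc.2), if_pos (not_lt.1 hb)]
      ring

/-- the normalized upper bound -/
theorem upper_one {x : ℝ → ℝ} (hxm : Measurable x) (hN : NN θ mu01 (fun s => (x s) ^ 2) ≤ 1) :
    NN θ mu01 (fun s => (Tsum S θ x s) ^ 2) ≤ 4 + 48 * Good.CT θ := by
  have hθ := F.hθ
  have hθ1 := F.hθ1
  have hx : MemLp x 2 mu01 := memLp_of_NN hθ1 hxm (ne_top_of_le_ne_top (by simp) hN)
  have hx1 := lintegral_le_one_of_NN hθ1 hxm hN
  set lo := fun n => Good.low B x n with hlo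
  set mi := fun n => Good.mid B x n with hmi
  set hi := fun n => Good.high B x n with hhi
  have hlom : ∀ n, Measurable (lo n) := fun n => Good.low_measurable hxm n
  have hmim : ∀ n, Measurable (mi n) := fun n => Good.mid_measurable hxm n
  have hhim : ∀ n, Measurable (hi n) := fun n => Good.high_measurable hxm n
  have hloL : ∀ n, MemLp (lo n) 2 mu01 := fun n => memLp_of_abs_le hx (hlom n) (Good.abs_low_le x n)
  have hmiL : ∀ n, MemLp (mi n) 2 mu01 := fun n => memLp_of_abs_le hx (hmim n) (Good.abs_mid_le x n)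
  have hhiL : ∀ n, MemLp (hi n) 2 mu01 := fun n => memLp_of_abs_le hx (hhim n) (Good.abs_high_le x n)
  have hmiN : ∀ n, NN θ mu01 (fun s => (mi n s) ^ 2) ≤ 1 := fun n =>
    (NN_mono hθ.le (Filter.Eventually.of_forall (fun s => Good.sq_le_of_abs (Good.abs_mid_le x n s)))).trans hN
  have hhiN : ∀ n, NN θ mu01 (fun s => (hi n s) ^ 2) ≤ 1 := fun n =>
    (NN_mono hθ.le (Filter.Eventually.of_forall (fun s => Good.sq_le_of_abs (Good.abs_high_le x n s)))).trans hN
  set sm : ℕ → ℝ → ℝ := fun n s => if |(S n).T θ (mi n) s| ≤ B n then (S n).T θ (mi n) s else 0 with hsm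
  set bg : ℕ → ℝ → ℝ := fun n s => if |(S n).T θ (mi n) s| ≤ B n then 0 else (S n).T θ (mi n) s with hbg
  set er : ℕ → ℝ → ℝ := fun n s => (S n).T θ (lo n) s + ((S n).T θ (hi n) s + sm n s) with her
  have hTsplit : ∀ n s, (S n).T θ x s = er n s + bg n s := by
    intro n s
    have e1 : (S n).T θ x s = (S n).T θ (lo n) s + ((S n).T θ (mi n) s + (S n).T θ (hi n) s) := by
      have hmh : MemLp (fun s => mi n s + hi n s) 2 mu01 := (hmiL n).add (hhiL n)
      rw [← (S n).T_add (hmiL n) (hhiL n), ← (S n).T_add (hloL n) hmh]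
      congr 1
      ext r
      exact F.decomp x n r
    rw [e1]
    simp only [her, hsm, hbg]
    split_ifs <;> ring
  -- error terms
  have herN : ∀ n, NN θ mu01 (fun s => (er n s) ^ 2) ≤ ENNReal.ofReal (36 * epsS n) := by
    intro n
    have hε := epsS_pos n
    have h1 : NN θ mu01 (fun s => ((S n).T θ (lo n) s) ^ 2) ≤ ENNReal.ofReal (epsS n) := by
      apply (F.facts n).bdd _ (hlom n)
      refine Filter.Eventually.of_forall (fun s => ?_)
      simp only [hlo]
      unfold Good.low
      split_ifs with h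
      · exact h
      · rw [abs_zero]; linarith [F.Bge n]
    have h2 : NN θ mu01 (fun s => ((S n).T θ (hi n) s) ^ 2) ≤ ENNReal.ofReal (epsS n) := by
      apply (F.facts n).high _ (hhim n) _ (hhiN n)
      intro s
      simp only [hhi]
      unfold Good.high
      split_ifs with h
      · right; exact h
      · left; rfl
    have h3 : NN θ mu01 (fun s => (sm n s) ^ 2) ≤ ENNReal.ofReal (epsS n) :=
      (F.facts n).small _ (hmim n) (hmiN n)
    calc NN θ mu01 (fun s => (er n s) ^ 2)
        ≤ 4 * NN θ mu01 (fun s => ((S n).T θ (lo n) s) ^ 2) +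
          4 * NN θ mu01 (fun s => ((S n).T θ (hi n) s + sm n s) ^ 2) := NN_add_sq hθ hθ1.le _ _
      _ ≤ 4 * ENNReal.ofReal (epsS n) + 4 * (4 * ENNReal.ofReal (epsS n) + 4 * ENNReal.ofReal (epsS n)) := by
          gcongr
          exact (NN_add_sq hθ hθ1.le _ _).trans (by gcongr)
      _ = ENNReal.ofReal (36 * epsS n) := by
          rw [show (36:ℝ) * epsS n = 4 * epsS n + 4 * (4 * epsS n + 4 * epsS n) by ring,
            ENNReal.ofReal_add (by positivity) (by positivity), ENNReal.ofReal_mul (by norm_num),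
            ENNReal.ofReal_mul (by norm_num), ENNReal.ofReal_add (by positivity) (by positivity),
            ENNReal.ofReal_mul (by norm_num)]
          norm_num
  -- summability
  have hsumT := F.summable_T hx
  have hsumM : ∀ᵐ s ∂mu01, Summable (fun n => (S n).T θ (mi n) s) := by
    apply summable_ae (fun n => (S n).T_measurable (mi n)) (c := 1) (by simp)
    intro n
    refine (F.l2 n (hmiL n)).trans ?_
    gcongr
    exact lintegral_le_one_of_NN hθ1 (hmim n) (hmiN n)
  have hbgfin : ∀ᵐ s ∂mu01, ∃ N, ∀ n, N ≤ n → bg n s = 0 := by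
    filter_upwards [hsumM] with s hs
    have h1 := hs.tendsto_atTop_zero
    have h2 : ∀ᶠ n in atTop, |(S n).T θ (mi n) s| < 1 := by
      have := (h1.abs).eventually_lt_const (u := 1) (by simp)
      exact this
    obtain ⟨N, hN⟩ := eventually_atTop.1 h2
    refine ⟨N, fun n hn => ?_⟩
    simp only [hbg]
    rw [if_pos]
    linarith [hN n hn, F.Bge n]
  have hbgsum : ∀ᵐ s ∂mu01, Summable (fun n => bg n s) := by
    filter_upwards [hbgfin] with s hs
    obtain ⟨N, hN⟩ := hs
    apply summable_of_ne_finset_zero (s := Finset.range N)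
    intro n hn
    exact hN n (by simpa using hn)
  have hersum : ∀ᵐ s ∂mu01, HasSum (fun n => er n s) (∑' n, er n s) := by
    filter_upwards [hbgsum, hsumT] with s h1 h2
    apply Summable.hasSum
    have : (fun n => er n s) = fun n => (S n).T θ x s - bg n s := by
      ext n; rw [hTsplit]; ring
    rw [this]
    exact h2.sub h1
  have htot : ∀ᵐ s ∂mu01, Tsum S θ x s = (∑' n, er n s) + ∑' n, bg n s := by
    filter_upwards [hbgsum, hersum] with s h1 h2
    unfold Tsum
    rw [← h2.summable.tsum_add h1]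
    congr 1
    ext n
    exact hTsplit n s
  -- first part
  have hpart1 : NN θ mu01 (fun s => (∑' n, er n s) ^ 2) ≤ 1 := by
    calc NN θ mu01 (fun s => (∑' n, er n s) ^ 2)
        ≤ ∑' n, ENNReal.ofReal (4 ^ (n + 1)) * NN θ mu01 (fun s => (er n s) ^ 2) :=
          NN_hasSum_sq hθ hθ1.le hersum
      _ ≤ ∑' n, ENNReal.ofReal (4 ^ (n + 1)) * ENNReal.ofReal (36 * epsS n) :=
          ENNReal.tsum_le_tsum (fun n => by gcongr; exact herN n)
      _ ≤ ENNReal.ofReal (36 / 3072) := tsum_epsS 36 (by norm_num)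
      _ ≤ 1 := by
          rw [← ENNReal.ofReal_one]
          exact ENNReal.ofReal_le_ofReal (by norm_num)
  -- second part
  have hpart2 : NN θ mu01 (fun s => (∑' n, bg n s) ^ 2) ≤ 12 * Good.CT θ := by
    have h1 := NN_le_tsum (μ := mu01) (ι := ℕ) hθ hθ1.le (f := fun s => (∑' n, bg n s) ^ 2)
      (g := fun n s => 4 * (bg n s) ^ 2) (by
        filter_upwards [hbgfin, (ae_restrict_mem measurableSet_Ico : ∀ᵐ t ∂mu01, t ∈ Ico (0:ℝ) 1)]
          with s hs hs01 r hr hrs
        obtain ⟨N, hN⟩ := hs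
        have e1 : ∑' n, bg n s = ∑ n ∈ Finset.range N, bg n s := by
          apply tsum_eq_sum
          intro n hn
          exact hN n (by simpa using hn)
        rcases level_sum B (fun n => bg n s) (by linarith [F.Bge 0]) (fun i => (F.facts i).hBB)
          (fun i => by
            simp only [hbg]
            have h2 := (F.facts i).sup _ (hmim i) (hmiN i) s hs01
            split_ifs
            · rw [abs_zero]; linarith [F.Bge (i + 1)]
            · exact h2) (fun i => by
            simp only [hbg]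
            split_ifs with h
            · left; rfl
            · right; exact not_le.1 h) N with h | ⟨m, hm, h⟩
        · have hrs' : r < (∑' n, bg n s) ^ 2 := hrs
          rw [e1, h] at hrs'
          norm_num at hrs'
          linarith
        · refine ⟨m, ?_⟩
          have hrs' : r < (∑' n, bg n s) ^ 2 := hrs
          rw [e1] at hrs'
          exact hrs'.trans_le h)
    refine h1.trans ?_
    have h2 : ∀ n, NN θ mu01 (fun s => 4 * (bg n s) ^ 2) ≤ 4 * (Good.CT θ * NN θ mu01 (fun s => (mi n s) ^ 2)) := by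
      intro n
      rw [NN_const_mul (by norm_num) (fun s => (bg n s) ^ 2), show ENNReal.ofReal 4 = 4 by norm_num]
      gcongr
      calc NN θ mu01 (fun s => (bg n s) ^ 2) ≤ NN θ mu01 (fun s => ((S n).T θ (mi n) s) ^ 2) := by
            apply NN_mono hθ.le
            refine Filter.Eventually.of_forall (fun s => ?_)
            simp only [hbg]
            split_ifs
            · norm_num; positivity
            · exact le_rfl
        _ ≤ Good.CT θ * NN θ mu01 (fun s => (mi n s) ^ 2) :=
            scale_bound hθ1.le (Tm := (S n).T θ) (fun c x s => (S n).T_smul c x s)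
              (fun x y h s => (S n).T_congr h s) (fun x hx hN => (F.facts n).unit x hx hN) (hmim n)
              (ne_top_of_le_ne_top (by simp) (hmiN n))
    calc ∑' n, NN θ mu01 (fun s => 4 * (bg n s) ^ 2)
        ≤ ∑' n, 4 * (Good.CT θ * NN θ mu01 (fun s => (mi n s) ^ 2)) := ENNReal.tsum_le_tsum h2
      _ = 4 * (Good.CT θ * ∑' n, NN θ mu01 (fun s => (mi n s) ^ 2)) := by
          rw [ENNReal.tsum_mul_left, ENNReal.tsum_mul_left]
      _ ≤ 4 * (Good.CT θ * (3 * NN θ mu01 (fun s => (x s) ^ 2))) := by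
          gcongr
          have hBpos : ∀ n, 0 < B n := fun n => by linarith [F.Bge n]
          apply NN_bands hθ (b := fun n => (B n) ^ 2) (g := fun n s => (mi n s) ^ 2)
          · have := hBpos 0; positivity
          · intro n
            have h1 := (F.facts n).hBB
            have h2 := hBpos n
            nlinarith
          · intro n
            exact Filter.Eventually.of_forall (fun s => Good.sq_le_of_abs (Good.abs_mid_le x n s))
          · intro n
            refine Filter.Eventually.of_forall (fun s hs => ?_)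
            simp only [hmi] at hs
            unfold Good.mid at hs
            split_ifs at hs with h
            · rw [← sq_abs (x s)]
              exact pow_le_pow_left₀ (hBpos n).le h.1 2
            · norm_num at hs
          · intro n
            refine Filter.Eventually.of_forall (fun s => ?_)
            simp only [hmi]
            unfold Good.mid
            split_ifs with h
            · rw [← sq_abs (x s)]
              exact pow_le_pow_left₀ (abs_nonneg _) h.2.le 2
            · have := hBpos (n + 1)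
              norm_num; positivity
      _ ≤ 4 * (Good.CT θ * (3 * 1)) := by gcongr
      _ = 12 * Good.CT θ := by ring
  calc NN θ mu01 (fun s => (Tsum S θ x s) ^ 2)
      = NN θ mu01 (fun s => ((∑' n, er n s) + ∑' n, bg n s) ^ 2) := by
        apply NN_congr
        filter_upwards [htot] with s hs
        rw [hs]
    _ ≤ 4 * NN θ mu01 (fun s => (∑' n, er n s) ^ 2) + 4 * NN θ mu01 (fun s => (∑' n, bg n s) ^ 2) :=
        NN_add_sq hθ hθ1.le _ _
    _ ≤ 4 * 1 + 4 * (12 * Good.CT θ) := by gcongr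
    _ = 4 + 48 * Good.CT θ := by ring

/-- the upper bound -/
theorem upper {x : ℝ → ℝ} (hxm : Measurable x) (hN : NN θ mu01 (fun s => (x s) ^ 2) ≠ ∞) :
    NN θ mu01 (fun s => (Tsum S θ x s) ^ 2) ≤ (4 + 48 * Good.CT θ) * NN θ mu01 (fun s => (x s) ^ 2) :=
  scale_bound F.hθ1.le (Tm := Tsum S θ) (fun c x s => Tsum_smul c x s)
    (fun _ _ h s => Tsum_congr h s) (fun _ hx hN => F.upper_one hx hN) hxm hN

/-- the lower bound for the blocks -/
theorem lower {e f : Set ℝ} (he : MeasurableSet e) (hf : MeasurableSet f) (he0 : mu01 e ≠ 0)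
    (hf0 : mu01 f ≠ 0) :
    ∃ x : ℝ → ℝ, Measurable x ∧ (∀ t, t ∉ f → x t = 0) ∧ NN θ mu01 (fun t => (x t) ^ 2) ≤ 8 ∧
      ENNReal.ofReal (1 / 256) ≤ NN θ mu01 (fun t => (e.indicator (Tsum S θ x) t) ^ 2) := by
  have hθ := F.hθ
  have hθ1 := F.hθ1
  obtain ⟨n, hn⟩ := exists_Cond he hf he0 hf0
  obtain ⟨x, hxm, hxf, hxB, hxB', hxN, hxT⟩ := (F.facts n).block e f he hf (hn (n + 1) (Nat.le_succ n))
  refine ⟨x, hxm, hxf, hxN, ?_⟩
  have hx : MemLp x 2 mu01 := memLp_of_NN hθ1 hxm (ne_top_of_le_ne_top (by norm_num) hxN)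
  set r : ℕ → ℝ → ℝ := fun m s => if m = n then 0 else (S m).T θ x s with hr
  have hrsum : ∀ᵐ s ∂mu01, HasSum (fun m => r m s) (Tsum S θ x s - (S n).T θ x s) := by
    filter_upwards [F.summable_T hx] with s hs
    exact hasSum_ite_sub_hasSum hs.hasSum n
  have hrN : ∀ m, NN θ mu01 (fun s => (r m s) ^ 2) ≤ ENNReal.ofReal (9 * epsS m) := by
    intro m
    have hε := epsS_pos m
    rcases lt_trichotomy m n with hmn | hmn | hmn
    · -- m < n
      have h1 : NN θ mu01 (fun s => ((S m).T θ (fun s => 1 / 3 * x s) s) ^ 2) ≤ ENNReal.ofReal (epsS m) := by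
        apply (F.facts m).high _ (hxm.const_mul _)
        · intro s
          rcases hxB s with h | h
          · left; rw [h, mul_zero]
          · right
            rw [abs_mul, abs_of_pos (by norm_num : (0:ℝ) < 1 / 3)]
            have := F.Bmono (show m + 1 ≤ n by omega)
            linarith
        · rw [NN_smul_sq (1 / 3) (by norm_num)]
          calc ENNReal.ofReal ((1 / 3) ^ 2) * NN θ mu01 (fun s => (x s) ^ 2)
              ≤ ENNReal.ofReal ((1 / 3) ^ 2) * ENNReal.ofReal 8 := by
                gcongr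
                refine hxN.trans (le_of_eq ?_)
                norm_num
            _ ≤ 1 := by
                rw [← ENNReal.ofReal_mul (by norm_num), ← ENNReal.ofReal_one]
                exact ENNReal.ofReal_le_ofReal (by norm_num)
      calc NN θ mu01 (fun s => (r m s) ^ 2)
          = NN θ mu01 (fun s => (3 * (S m).T θ (fun s => 1 / 3 * x s) s) ^ 2) := by
            apply NN_congr
            refine Filter.Eventually.of_forall (fun s => ?_)
            simp only [hr]
            rw [if_neg hmn.ne, Stage.T_smul]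
            ring
        _ = ENNReal.ofReal (3 ^ 2) * NN θ mu01 (fun s => ((S m).T θ (fun s => 1 / 3 * x s) s) ^ 2) :=
            NN_smul_sq 3 (by norm_num) _
        _ ≤ ENNReal.ofReal (3 ^ 2) * ENNReal.ofReal (epsS m) := by gcongr
        _ = ENNReal.ofReal (9 * epsS m) := by
            rw [← ENNReal.ofReal_mul (by norm_num)]; norm_num
    · -- m = n
      have : (fun s => (r m s) ^ 2) = fun s => (0:ℝ → ℝ) s := by
        ext s
        simp only [hr]
        rw [if_pos hmn]
        norm_num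
      rw [this]
      have h0 : NN θ mu01 (fun s => (0:ℝ → ℝ) s) = 0 := by
        have := NN_const_indicator_le (μ := mu01) hθ 0 (Set.univ)
        rw [indicator_univ, ENNReal.ofReal_zero, zero_mul, nonpos_iff_eq_zero] at this
        exact this
      rw [h0]
      exact zero_le
    · -- m > n
      have h1 : NN θ mu01 (fun s => ((S m).T θ x s) ^ 2) ≤ ENNReal.ofReal (epsS m) := by
        apply (F.facts m).bdd _ hxm
        refine Filter.Eventually.of_forall (fun s => ?_)
        exact (hxB' s).trans_le (F.Bmono (by omega))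
      calc NN θ mu01 (fun s => (r m s) ^ 2)
          = NN θ mu01 (fun s => ((S m).T θ x s) ^ 2) := by
            simp only [hr, if_neg hmn.ne']
        _ ≤ ENNReal.ofReal (epsS m) := h1
        _ ≤ ENNReal.ofReal (9 * epsS m) := ENNReal.ofReal_le_ofReal (by linarith)
  have hrtot : NN θ mu01 (fun s => (Tsum S θ x s - (S n).T θ x s) ^ 2) ≤ ENNReal.ofReal (9 / 3072) := by
    calc NN θ mu01 (fun s => (Tsum S θ x s - (S n).T θ x s) ^ 2)
        ≤ ∑' m, ENNReal.ofReal (4 ^ (m + 1)) * NN θ mu01 (fun s => (r m s) ^ 2) :=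
          NN_hasSum_sq hθ hθ1.le hrsum
      _ ≤ ∑' m, ENNReal.ofReal (4 ^ (m + 1)) * ENNReal.ofReal (9 * epsS m) :=
          ENNReal.tsum_le_tsum (fun m => by gcongr; exact hrN m)
      _ ≤ _ := tsum_epsS 9 (by norm_num)
  by_contra hcon
  push Not at hcon
  have h1 : NN θ mu01 (fun t => (e.indicator ((S n).T θ x) t) ^ 2) ≤
      4 * NN θ mu01 (fun t => (e.indicator (Tsum S θ x) t) ^ 2) + 4 * ENNReal.ofReal (9 / 3072) := by
    have e1 : (fun t => (e.indicator ((S n).T θ x) t) ^ 2) =
        fun t => (e.indicator (Tsum S θ x) t + - e.indicator (fun s => Tsum S θ x s - (S n).T θ x s) t) ^ 2 := by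
      ext t
      by_cases ht : t ∈ e
      · simp only [indicator_of_mem ht]; ring
      · simp only [indicator_of_notMem ht]; ring
    rw [e1]
    refine (NN_add_sq hθ hθ1.le _ _).trans ?_
    gcongr
    refine le_trans ?_ hrtot
    apply NN_mono hθ.le
    refine Filter.Eventually.of_forall (fun t => ?_)
    by_cases ht : t ∈ e
    · simp only [indicator_of_mem ht]; rw [neg_sq]
    · simp only [indicator_of_notMem ht]; norm_num; positivity
  have h2 : ENNReal.ofReal (1 / 32) < ENNReal.ofReal (1 / 32) := by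
    calc ENNReal.ofReal (1 / 32) ≤ _ := hxT.trans h1
      _ < 4 * ENNReal.ofReal (1 / 256) + 4 * ENNReal.ofReal (9 / 3072) := by
          apply ENNReal.add_lt_add_of_lt_of_le
          · exact ENNReal.mul_ne_top (by norm_num) ENNReal.ofReal_ne_top
          · exact ENNReal.mul_lt_mul_right (by norm_num) (by norm_num) hcon
          · exact le_rfl
      _ ≤ ENNReal.ofReal (1 / 32) := by
          rw [show (4:ℝ≥0∞) = ENNReal.ofReal 4 by norm_num, ← ENNReal.ofReal_mul (by norm_num),
            ← ENNReal.ofReal_mul (by norm_num), ← ENNReal.ofReal_add (by norm_num) (by norm_num)]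
          exact ENNReal.ofReal_le_ofReal (by norm_num)
  exact lt_irrefl _ h2

end Family

end LorentzBlocks
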