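import Pool.Agent.Lorentz.Defs
import Pool.Agent.Lorentz.Sum

/-!
# From the functional `NN` to Lorentz norms
-/

open MeasureTheory Set Filter
open scoped ENNReal NNReal Topology

namespace LorentzBlocks

lemma leb_eq_mu01 : leb = mu01 := by
  unfold leb mu01
  exact (Measure.restrict_congr_set Ico_ae_eq_Icc).symm

instance : IsProbabilityMeasure leb := by rw [leb_eq_mu01]; infer_instance

/-- level sets of the rearrangement -/
lemma lt_rearr_iff (x : ℝ →ₘ[leb] ℝ) (t : ℝ) (a : ℝ≥0∞) :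
    a < rearr x t ↔ ENNReal.ofReal t < leb {r | a < ‖x r‖ₑ} := by
  constructor
  · intro h
    by_contra hcon
    push Not at hcon
    exact absurd (rearr_le_of_meas hcon) (not_le.2 h)
  · intro h
    have ha : a ≠ ∞ := by
      intro ha
      rw [ha] at h
      simp at h
    obtain ⟨s, hs_anti, hs_gt, hs_lim⟩ := exists_seq_strictAnti_tendsto' (show a < ∞ from lt_top_iff_ne_top.2 ha)
    have hU : {r | a < ‖x r‖ₑ} = ⋃ n, {r | s n < ‖x r‖ₑ} := by
      ext r
      rw [mem_iUnion]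
      constructor
      · intro hr
        have hr' : a < ‖x r‖ₑ := hr
        obtain ⟨n, hn⟩ := (hs_lim.eventually_lt_const hr').exists
        exact ⟨n, hn⟩
      · rintro ⟨n, hn⟩
        exact (hs_gt n).1.trans (show s n < ‖x r‖ₑ from hn)
    have hmono : Monotone (fun n => {r | s n < ‖x r‖ₑ}) := by
      intro m n hmn r hr
      exact lt_of_le_of_lt (hs_anti.antitone hmn) (show s m < ‖x r‖ₑ from hr)
    rw [hU, hmono.measure_iUnion, lt_iSup_iff] at h
    obtain ⟨n, hn⟩ := h
    refine (hs_gt n).1.trans_le ?_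
    unfold rearr
    apply le_sInf
    intro b hb
    have hb' : leb {r | b < ‖x r‖ₑ} ≤ ENNReal.ofReal t := hb
    by_contra hlt
    push Not at hlt
    have : leb {r | s n < ‖x r‖ₑ} ≤ leb {r | b < ‖x r‖ₑ} :=
      measure_mono (fun r hr => hlt.trans (show s n < ‖x r‖ₑ from hr))
    exact absurd (hn.trans_le (this.trans hb')) (lt_irrefl _)

lemma volume_lt_const (c : ℝ≥0∞) : volume {u : ℝ | u ∈ Ioi (0:ℝ) ∧ ENNReal.ofReal u < c} = c := by
  by_cases hc : c = ∞
  · have : {u : ℝ | u ∈ Ioi (0:ℝ) ∧ ENNReal.ofReal u < c} = Ioi 0 := by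
      ext u
      constructor
      · intro h; exact h.1
      · intro h; exact ⟨h, by rw [hc]; exact ENNReal.ofReal_lt_top⟩
    rw [this, Real.volume_Ioi, hc]
  · have : {u : ℝ | u ∈ Ioi (0:ℝ) ∧ ENNReal.ofReal u < c} = Ioo 0 c.toReal := by
      ext u
      constructor
      · rintro ⟨h1, h2⟩
        exact ⟨h1, (ENNReal.ofReal_lt_iff_lt_toReal (le_of_lt h1) hc).1 h2⟩
      · rintro ⟨h1, h2⟩
        exact ⟨h1, (ENNReal.ofReal_lt_iff_lt_toReal (le_of_lt h1) hc).2 h2⟩
    rw [this, Real.volume_Ioo, sub_zero, ENNReal.ofReal_toReal hc]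

/-- the square of the Lorentz norm `‖x‖_{p,2}` -/
lemma lorentzNorm_sq {p : ℝ} (hp : 0 < p) (x : ℝ →ₘ[leb] ℝ) :
    (lorentzNorm p 2 x) ^ 2 = ENNReal.ofReal (p / 2) * NN (2 / p) leb (fun r => (x r) ^ 2) := by
  set θ : ℝ := 2 / p with hθ
  have hθ0 : 0 < θ := by positivity
  set D : ℝ → ℝ≥0∞ := fun u => leb {r | u < (x r) ^ 2} with hD
  have hDm : Measurable D := measurable_dist leb _
  set A : Set (ℝ × ℝ) := {z | ENNReal.ofReal z.1 < D z.2} with hA
  have hAm : MeasurableSet A := measurableSet_lt (measurable_fst.ennreal_ofReal) (hDm.comp measurable_snd)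
  set G : ℝ × ℝ → ℝ≥0∞ := A.indicator (fun z => ENNReal.ofReal (z.1 ^ (θ - 1))) with hG
  have hGm : Measurable G := by
    apply Measurable.indicator _ hAm
    fun_prop
  have h1 : (lorentzNorm p 2 x) ^ 2 = ∫⁻ t in Ioc (0:ℝ) 1, (ENNReal.ofReal (t ^ (1 / p)) * rearr x t) ^ (2:ℝ) *
      ENNReal.ofReal (1 / t) := by
    unfold lorentzNorm
    rw [if_neg (by norm_num)]
    have e2 : (2:ℝ≥0∞).toReal = 2 := by simp
    rw [e2, ← ENNReal.rpow_natCast, ← ENNReal.rpow_mul]
    norm_num
  have hlevel : ∀ t : ℝ, ∀ u : ℝ, 0 < u → (ENNReal.ofReal t < D u ↔ ENNReal.ofReal u < (rearr x t) ^ 2) := by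
    intro t u hu
    have e1 : D u = leb {r | ENNReal.ofReal (Real.sqrt u) < ‖x r‖ₑ} := by
      simp only [hD]
      congr 1
      ext r
      change u < (x r) ^ 2 ↔ ENNReal.ofReal (Real.sqrt u) < ‖x r‖ₑ
      rw [Real.enorm_eq_ofReal_abs, ENNReal.ofReal_lt_ofReal_iff_of_nonneg (Real.sqrt_nonneg _)]
      by_cases hx0 : x r = 0
      · rw [hx0]
        simp only [ne_eq, OfNat.ofNat_ne_zero, not_false_eq_true, zero_pow, abs_zero]
        constructor
        · intro h; linarith
        · intro h; linarith [Real.sqrt_nonneg u]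
      · rw [Real.sqrt_lt' (abs_pos.2 hx0), sq_abs]
    rw [e1, ← lt_rearr_iff]
    have e2 : ENNReal.ofReal u = (ENNReal.ofReal (Real.sqrt u)) ^ 2 := by
      rw [← ENNReal.ofReal_pow (Real.sqrt_nonneg _), Real.sq_sqrt hu.le]
    rw [e2]
    exact ((ENNReal.pow_right_strictMono two_ne_zero).lt_iff_lt).symm
  have h2 : ∀ t ∈ Ioc (0:ℝ) 1, (ENNReal.ofReal (t ^ (1 / p)) * rearr x t) ^ (2:ℝ) * ENNReal.ofReal (1 / t) =
      ∫⁻ u in Ioi (0:ℝ), G (t, u) := by
    intro t ht
    have ht0 : 0 < t := ht.1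
    have e1 : ∀ u : ℝ, G (t, u) = {u | ENNReal.ofReal t < D u}.indicator (fun _ => ENNReal.ofReal (t ^ (θ - 1))) u := by
      intro u
      simp only [hG]
      by_cases hu : ENNReal.ofReal t < D u
      · rw [indicator_of_mem (show (t, u) ∈ A from hu), indicator_of_mem (show u ∈ {u | ENNReal.ofReal t < D u} from hu)]
      · rw [indicator_of_notMem (show (t, u) ∉ A from hu),
          indicator_of_notMem (show u ∉ {u | ENNReal.ofReal t < D u} from hu)]
    simp_rw [e1]
    have hm : MeasurableSet {u | ENNReal.ofReal t < D u} := measurableSet_lt measurable_const hDm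
    rw [lintegral_indicator hm, lintegral_const, Measure.restrict_apply_univ, Measure.restrict_apply' measurableSet_Ioi]
    have e2 : {u | ENNReal.ofReal t < D u} ∩ Ioi 0 = {u : ℝ | u ∈ Ioi (0:ℝ) ∧ ENNReal.ofReal u < (rearr x t) ^ 2} := by
      ext u
      constructor
      · rintro ⟨h3, h4⟩
        exact ⟨h4, (hlevel t u h4).1 h3⟩
      · rintro ⟨h3, h4⟩
        exact ⟨(hlevel t u h3).2 h4, h3⟩
    rw [e2, volume_lt_const, ENNReal.mul_rpow_of_nonneg _ _ (by norm_num)]
    have e3 : (rearr x t) ^ (2:ℝ) = (rearr x t) ^ 2 := by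
      rw [← ENNReal.rpow_natCast]; norm_num
    have e4 : ENNReal.ofReal (t ^ (1 / p)) ^ (2:ℝ) * ENNReal.ofReal (1 / t) = ENNReal.ofReal (t ^ (θ - 1)) := by
      rw [ENNReal.ofReal_rpow_of_pos (by positivity), ← ENNReal.ofReal_mul (by positivity)]
      congr 1
      rw [← Real.rpow_mul ht0.le, one_div t, ← Real.rpow_neg_one, ← Real.rpow_add ht0]
      congr 1
      rw [hθ]; ring
    rw [e3, ← e4]
    ring
  have h3 : ∀ u ∈ Ioi (0:ℝ), ∫⁻ t in Ioc (0:ℝ) 1, G (t, u) = ENNReal.ofReal (p / 2) * (D u) ^ θ := by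
    intro u _
    set d : ℝ := (D u).toReal with hd
    have hDtop : D u ≠ ∞ := measure_ne_top _ _
    have hDd : D u = ENNReal.ofReal d := (ENNReal.ofReal_toReal hDtop).symm
    have hd0 : 0 ≤ d := ENNReal.toReal_nonneg
    have hd1 : d ≤ 1 := by
      rw [hd]
      exact ENNReal.toReal_le_of_le_ofReal zero_le_one (by rw [ENNReal.ofReal_one]; exact prob_le_one)
    have e1 : ∫⁻ t in Ioc (0:ℝ) 1, G (t, u) = ∫⁻ t in Ioo (0:ℝ) d, ENNReal.ofReal (t ^ (θ - 1)) := by
      rw [← lintegral_indicator measurableSet_Ioc, ← lintegral_indicator measurableSet_Ioo]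
      apply lintegral_congr
      intro t
      by_cases ht : t ∈ Ioo (0:ℝ) d
      · rw [indicator_of_mem ht, indicator_of_mem (show t ∈ Ioc (0:ℝ) 1 from ⟨ht.1, ht.2.le.trans hd1⟩)]
        simp only [hG]
        rw [indicator_of_mem]
        change ENNReal.ofReal t < D u
        rw [hDd]
        exact (ENNReal.ofReal_lt_ofReal_iff (ht.1.trans ht.2)).2 ht.2
      · rw [indicator_of_notMem ht]
        by_cases ht1 : t ∈ Ioc (0:ℝ) 1
        · rw [indicator_of_mem ht1]
          simp only [hG]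
          rw [indicator_of_notMem]
          intro hmem
          have hmem' : ENNReal.ofReal t < D u := hmem
          rw [hDd] at hmem'
          exact ht ⟨ht1.1, (ENNReal.ofReal_lt_ofReal_iff_of_nonneg ht1.1.le).1 hmem'⟩
        · rw [indicator_of_notMem ht1]
    rw [e1]
    by_cases hd00 : d = 0
    · rw [hd00, Ioo_self, Measure.restrict_empty, lintegral_zero_measure, hDd, hd00, ENNReal.ofReal_zero,
        ENNReal.zero_rpow_of_pos hθ0, mul_zero]
    · have hdpos : 0 < d := lt_of_le_of_ne hd0 (Ne.symm hd00)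
      have h4 := lintegral_rpow_Ioo (θ := 1 - θ) (by linarith) hdpos
      rw [show -(1 - θ) = θ - 1 by ring] at h4
      rw [h4, hDd, ENNReal.ofReal_rpow_of_pos hdpos, ← ENNReal.ofReal_mul (by positivity)]
      congr 1
      rw [show 1 - (1 - θ) = θ by ring, hθ]
      field_simp
  rw [h1, setLIntegral_congr_fun measurableSet_Ioc h2,
    lintegral_lintegral_swap (f := fun t u => G (t, u)) hGm.aemeasurable,
    setLIntegral_congr_fun measurableSet_Ioi h3, lintegral_const_mul _ (hDm.pow_const θ)]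
  rfl

end LorentzBlocks
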