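import Pool.Agent.Lorentz.Basic3

/-!
# Marcinkiewicz type interpolation for `NN`
-/

open MeasureTheory Set
open scoped ENNReal NNReal

namespace LorentzBlocks

variable {α : Type*} [MeasurableSpace α] {θ : ℝ} {μ : Measure α}

lemma lintegral_upper_le {f : α → ℝ} (hf : Measurable f) {u : ℝ} (hu : 0 < u) :
    ∫⁻ a, ENNReal.ofReal (if u < f a then f a else 0) ∂μ ≤
      ∑' j : ℕ, ENNReal.ofReal (2 ^ (j + 1) * u) * μ {a | 2 ^ j * u < f a} := by
  have hpt : ∀ a, ENNReal.ofReal (if u < f a then f a else 0) ≤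
      ∑' j : ℕ, ENNReal.ofReal (2 ^ (j + 1) * u) * ({a | 2 ^ j * u < f a}).indicator 1 a := by
    intro a
    split_ifs with h
    · have hex : ∃ n : ℕ, f a ≤ 2 ^ n * u := by
        obtain ⟨n, hn⟩ := pow_unbounded_of_one_lt (f a / u) (one_lt_two)
        exact ⟨n, by rw [div_lt_iff₀ hu] at hn; exact hn.le⟩
      classical
      have hn := Nat.find_spec hex
      set n := Nat.find hex with hndef
      have hn1 : n ≠ 0 := by
        intro h0
        rw [h0] at hn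
        simp at hn
        linarith
      obtain ⟨k, hk⟩ := Nat.exists_eq_succ_of_ne_zero hn1
      have hk2 : ¬ (f a ≤ 2 ^ k * u) := Nat.find_min hex (by rw [← hndef, hk]; exact Nat.lt_succ_self k)
      refine le_trans ?_ (ENNReal.le_tsum k)
      rw [indicator_of_mem (show a ∈ {a | 2 ^ k * u < f a} from not_le.1 hk2)]
      simp only [Pi.one_apply, mul_one]
      rw [hk] at hn
      exact ENNReal.ofReal_le_ofReal hn
    · simp
  calc ∫⁻ a, ENNReal.ofReal (if u < f a then f a else 0) ∂μ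
      ≤ ∫⁻ a, ∑' j : ℕ, ENNReal.ofReal (2 ^ (j + 1) * u) * ({a | 2 ^ j * u < f a}).indicator 1 a ∂μ :=
        lintegral_mono hpt
    _ = ∑' j : ℕ, ∫⁻ a, ENNReal.ofReal (2 ^ (j + 1) * u) * ({a | 2 ^ j * u < f a}).indicator 1 a ∂μ := by
        rw [lintegral_tsum]
        intro j
        exact ((measurable_one.indicator (measurableSet_lt measurable_const hf)).const_mul _).aemeasurable
    _ = _ := by
        congr 1
        ext j
        rw [lintegral_const_mul _ (measurable_one.indicator (measurableSet_lt measurable_const hf)),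
          lintegral_indicator_one (measurableSet_lt measurable_const hf)]

/-- the constant in the Marcinkiewicz estimate -/
noncomputable def CM (θ : ℝ) : ℝ≥0∞ := 8 * ∑' j : ℕ, ENNReal.ofReal ((2:ℝ) ^ (θ * j) * (2:ℝ) ^ (-(j:ℝ)))

lemma CM_ne_top (hθ1 : θ < 1) : CM θ ≠ ∞ := by
  unfold CM
  apply ENNReal.mul_ne_top (by norm_num)
  have h : ∀ j : ℕ, (2:ℝ) ^ (θ * j) * (2:ℝ) ^ (-(j:ℝ)) = ((2:ℝ) ^ (θ - 1)) ^ j := by
    intro j
    rw [← Real.rpow_add (by norm_num), ← Real.rpow_natCast, ← Real.rpow_mul (by norm_num)]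
    congr 1; ring
  have hs : Summable (fun j : ℕ => (2:ℝ) ^ (θ * j) * (2:ℝ) ^ (-(j:ℝ))) := by
    simp_rw [h]
    apply summable_geometric_of_lt_one (by positivity)
    apply Real.rpow_lt_one_of_one_lt_of_neg (by norm_num) (by linarith)
  exact hs.tsum_ofReal_ne_top

lemma NN_marcinkiewicz {β : Type*} [MeasurableSpace β] {ν : Measure β}
    (hθ : 0 < θ) (hθ1 : θ < 1) {f : α → ℝ} (hf : Measurable f) {y : β → ℝ} {ρ : ℝ} (hρ : 0 < ρ)
    (h : ∀ u : ℝ, 0 < u → ∃ y1 y2 : β → ℝ, (∀ᵐ b ∂ν, y b = y1 b + y2 b) ∧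
      (∀ᵐ b ∂ν, (y1 b) ^ 2 ≤ 2 * ρ ^ θ * u) ∧ AEMeasurable y2 ν ∧
      ∫⁻ b, ENNReal.ofReal ((y2 b) ^ 2) ∂ν ≤
        ENNReal.ofReal (ρ ^ (-(1 - θ))) * ∫⁻ a, ENNReal.ofReal (if u < f a then f a else 0) ∂μ) :
    NN θ ν (fun b => (y b) ^ 2) ≤ CM θ * NN θ μ f := by
  set W : ℝ → ℝ≥0∞ := fun u => ∫⁻ a, ENNReal.ofReal (if u < f a then f a else 0) ∂μ with hW
  set c : ℝ := 8 * ρ ^ θ with hc
  have hρθ : 0 < ρ ^ θ := Real.rpow_pos_of_pos hρ _
  have hcpos : 0 < c := by positivity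
  -- step 1
  have hstep : ∀ u : ℝ, 0 < u → ν {b | c * u < (y b) ^ 2} ≤
      ENNReal.ofReal (ρ⁻¹ * (2 * u)⁻¹) * W u := by
    intro u hu
    obtain ⟨y1, y2, hy, hy1, hy2m, hy2⟩ := h u hu
    have e1 : ν {b | c * u < (y b) ^ 2} ≤ ν {b | 2 * ρ ^ θ * u < (y2 b) ^ 2} := by
      apply measure_mono_ae
      filter_upwards [hy, hy1] with b hb hb1 hsb
      change 2 * ρ ^ θ * u < (y2 b) ^ 2
      have hsb' : c * u < (y b) ^ 2 := hsb
      rw [hb, hc] at hsb'
      by_contra hcon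
      push Not at hcon
      nlinarith [sq_nonneg (y1 b - y2 b)]
    have e2 := meas_lt_le_div (μ := ν) (f := fun b => (y2 b) ^ 2) (hy2m.pow_const 2)
      (s := 2 * ρ ^ θ * u) (by positivity)
    refine e1.trans (e2.trans ?_)
    calc (∫⁻ b, ENNReal.ofReal ((y2 b) ^ 2) ∂ν) / ENNReal.ofReal (2 * ρ ^ θ * u)
        ≤ (ENNReal.ofReal (ρ ^ (-(1 - θ))) * W u) / ENNReal.ofReal (2 * ρ ^ θ * u) := by gcongr
      _ = ENNReal.ofReal (ρ⁻¹ * (2 * u)⁻¹) * W u := by
          rw [div_eq_mul_inv, ← ENNReal.ofReal_inv_of_pos (by positivity), mul_assoc, mul_comm (W u),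
            ← mul_assoc, ← ENNReal.ofReal_mul (by positivity)]
          congr 2
          have h1 : ρ ^ (-(1 - θ)) = ρ⁻¹ * ρ ^ θ := by
            rw [← Real.rpow_neg_one ρ, ← Real.rpow_add hρ]; congr 1; ring
          rw [h1]
          field_simp
  -- step 2
  have hscale : NN θ ν (fun b => (y b) ^ 2) =
      ENNReal.ofReal c * ∫⁻ u in Ioi (0:ℝ), (ν {b | c * u < (y b) ^ 2}) ^ θ := by
    have h1 := lintegral_Ioi_comp_mul hcpos (fun s => (ν {b | s < (y b) ^ 2}) ^ θ)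
    rw [h1, ← mul_assoc, ← ENNReal.ofReal_mul hcpos.le, mul_inv_cancel₀ hcpos.ne', ENNReal.ofReal_one,
      one_mul]
    rfl
  -- step 3
  have hpt : ∀ u : ℝ, 0 < u → (ν {b | c * u < (y b) ^ 2}) ^ θ ≤
      ENNReal.ofReal (ρ ^ (-θ)) * ∑' j : ℕ, ENNReal.ofReal ((2:ℝ) ^ (θ * j)) * (μ {a | 2 ^ j * u < f a}) ^ θ := by
    intro u hu
    have hWu : W u ≤ ∑' j : ℕ, ENNReal.ofReal (2 ^ (j + 1) * u) * μ {a | 2 ^ j * u < f a} :=
      lintegral_upper_le hf hu
    calc (ν {b | c * u < (y b) ^ 2}) ^ θ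
        ≤ (ENNReal.ofReal (ρ⁻¹ * (2 * u)⁻¹) *
            ∑' j : ℕ, ENNReal.ofReal (2 ^ (j + 1) * u) * μ {a | 2 ^ j * u < f a}) ^ θ := by
          apply ENNReal.rpow_le_rpow _ hθ.le
          exact (hstep u hu).trans (by gcongr)
      _ = (∑' j : ℕ, ENNReal.ofReal (ρ⁻¹ * (2 * u)⁻¹) *
            (ENNReal.ofReal (2 ^ (j + 1) * u) * μ {a | 2 ^ j * u < f a})) ^ θ := by
          rw [ENNReal.tsum_mul_left]
      _ ≤ ∑' j : ℕ, (ENNReal.ofReal (ρ⁻¹ * (2 * u)⁻¹) *
            (ENNReal.ofReal (2 ^ (j + 1) * u) * μ {a | 2 ^ j * u < f a})) ^ θ :=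
          tsum_rpow_le hθ hθ1.le _
      _ = ∑' j : ℕ, ENNReal.ofReal (ρ ^ (-θ)) *
            (ENNReal.ofReal ((2:ℝ) ^ (θ * j)) * (μ {a | 2 ^ j * u < f a}) ^ θ) := by
          congr 1
          ext j
          rw [← mul_assoc, ← ENNReal.ofReal_mul (by positivity), ENNReal.mul_rpow_of_nonneg _ _ hθ.le,
            ENNReal.ofReal_rpow_of_pos (by positivity)]
          rw [← mul_assoc (ENNReal.ofReal (ρ ^ (-θ))), ← ENNReal.ofReal_mul (by positivity)]
          congr 2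
          have h2 : ρ⁻¹ * (2 * u)⁻¹ * (2 ^ (j + 1) * u) = ρ⁻¹ * 2 ^ j := by
            field_simp
            ring
          rw [h2, Real.mul_rpow (by positivity) (by positivity), Real.inv_rpow hρ.le, ← Real.rpow_neg hρ.le,
            ← Real.rpow_natCast, ← Real.rpow_mul (by norm_num)]
          congr 2
          ring
      _ = _ := by rw [ENNReal.tsum_mul_left]
  have hmeas : ∀ j : ℕ, Measurable (fun u : ℝ => (μ {a | 2 ^ j * u < f a}) ^ θ) := by
    intro j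
    exact (measurable_dist_rpow μ f θ).comp (measurable_const_mul _)
  calc NN θ ν (fun b => (y b) ^ 2)
      = ENNReal.ofReal c * ∫⁻ u in Ioi (0:ℝ), (ν {b | c * u < (y b) ^ 2}) ^ θ := hscale
    _ ≤ ENNReal.ofReal c * ∫⁻ u in Ioi (0:ℝ), ENNReal.ofReal (ρ ^ (-θ)) *
          ∑' j : ℕ, ENNReal.ofReal ((2:ℝ) ^ (θ * j)) * (μ {a | 2 ^ j * u < f a}) ^ θ := by
        gcongr ENNReal.ofReal c * ?_
        apply setLIntegral_mono
        · exact (Measurable.tsum (fun j => (hmeas j).const_mul _)).const_mul _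
        · intro u hu
          exact hpt u hu
    _ = ENNReal.ofReal c * (ENNReal.ofReal (ρ ^ (-θ)) *
          ∑' j : ℕ, ENNReal.ofReal ((2:ℝ) ^ (θ * j)) * ∫⁻ u in Ioi (0:ℝ), (μ {a | 2 ^ j * u < f a}) ^ θ) := by
        rw [lintegral_const_mul _ (Measurable.tsum (fun j => (hmeas j).const_mul _)),
          lintegral_tsum (fun j => ((hmeas j).const_mul _).aemeasurable)]
        congr 3
        ext j
        rw [lintegral_const_mul _ (hmeas j)]
    _ = ENNReal.ofReal c * (ENNReal.ofReal (ρ ^ (-θ)) *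
          ∑' j : ℕ, ENNReal.ofReal ((2:ℝ) ^ (θ * j) * (2:ℝ) ^ (-(j:ℝ))) * NN θ μ f) := by
        congr 3
        ext j
        have h3 := lintegral_Ioi_comp_mul (c := (2:ℝ) ^ j) (by positivity) (fun s => (μ {a | s < f a}) ^ θ)
        rw [h3, ← mul_assoc, ← ENNReal.ofReal_mul (by positivity)]
        congr 3
        rw [Real.rpow_neg (by norm_num), Real.rpow_natCast]
    _ = CM θ * NN θ μ f := by
        rw [ENNReal.tsum_mul_right, ← mul_assoc, ← mul_assoc, ← ENNReal.ofReal_mul hcpos.le]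
        unfold CM
        congr 2
        rw [hc]
        have h4 : 8 * ρ ^ θ * ρ ^ (-θ) = 8 := by
          rw [mul_assoc, ← Real.rpow_add hρ]; simp
        rw [h4]
        norm_num

end LorentzBlocks
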