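import Pool.Agent.Lorentz.Final

/-!
# The operator on `L^{p,2}`
-/

open MeasureTheory Set Filter
open scoped ENNReal NNReal Topology

namespace LorentzBlocks

lemma NN_leb {θ : ℝ} (g : ℝ → ℝ) : NN θ leb g = NN θ mu01 g := by rw [leb_eq_mu01]

lemma ae_leb {P : ℝ → Prop} : (∀ᵐ s ∂leb, P s) ↔ ∀ᵐ s ∂mu01, P s := by rw [leb_eq_mu01]

lemma two_div_pos {p : ℝ} (hp : 2 < p) : 0 < 2 / p := by positivity

lemma two_div_lt_one {p : ℝ} (hp : 2 < p) : 2 / p < 1 := by
  rw [div_lt_one (by linarith)]; exact hp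

lemma NN_lt_top_of_mem {p : ℝ} (hp : 2 < p) {x : ℝ →ₘ[leb] ℝ} (hx : lorentzNorm p 2 x < ∞) :
    NN (2 / p) leb (fun r => (x r) ^ 2) ≠ ∞ := by
  have h1 := lorentzNorm_sq (show 0 < p by linarith) x
  intro h
  rw [h, ENNReal.mul_top (by
    have : (0:ℝ≥0∞) < ENNReal.ofReal (p / 2) := ENNReal.ofReal_pos.2 (by linarith)
    exact this.ne')] at h1
  have h2 : (lorentzNorm p 2 x) ^ 2 < ∞ := ENNReal.pow_lt_top hx
  rw [h1] at h2
  exact lt_irrefl _ h2

lemma lorentzNorm_mk {p : ℝ} (hp : 2 < p) {g : ℝ → ℝ} (hg : AEStronglyMeasurable g leb) :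
    (lorentzNorm p 2 (AEEqFun.mk g hg)) ^ 2 = ENNReal.ofReal (p / 2) * NN (2 / p) leb (fun r => (g r) ^ 2) := by
  rw [lorentzNorm_sq (show 0 < p by linarith)]
  congr 1
  apply NN_congr
  filter_upwards [AEEqFun.coeFn_mk g hg] with r hr
  rw [hr]

lemma lorentzNorm_lt_top_of_sq {p : ℝ} {q : ℝ≥0∞} {x : ℝ →ₘ[leb] ℝ} (h : (lorentzNorm p q x) ^ 2 < ∞) :
    lorentzNorm p q x < ∞ := by
  by_contra hcon
  push Not at hcon
  rw [top_le_iff] at hcon
  rw [hcon] at h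
  simp at h

section

variable {S : ℕ → Stage} {B : ℕ → ℝ} {p : ℝ}

open Family

/-- the constant of the operator -/
noncomputable def CC (p : ℝ) : ℝ≥0∞ := 4 + 48 * Good.CT (2 / p)

lemma CC_ne_top (hp : 2 < p) : CC p ≠ ∞ := by
  unfold CC
  have := Good.CT_ne_top (two_div_lt_one hp)
  finiteness

lemma T_mk_sq_le (hp : 2 < p) (F : Family S (2 / p) B) {x : ℝ →ₘ[leb] ℝ} (hx : lorentzNorm p 2 x < ∞) :
    (lorentzNorm p 2 (AEEqFun.mk (Tsum S (2 / p) x) (Tsum_measurable _).aestronglyMeasurable)) ^ 2 ≤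
      CC p * (lorentzNorm p 2 x) ^ 2 := by
  rw [lorentzNorm_mk hp, lorentzNorm_sq (show 0 < p by linarith) x]
  have hN := NN_lt_top_of_mem hp hx
  rw [NN_leb] at hN ⊢
  rw [NN_leb]
  have h := F.upper (x.measurable) hN
  calc ENNReal.ofReal (p / 2) * NN (2 / p) mu01 (fun r => (Tsum S (2 / p) x r) ^ 2)
      ≤ ENNReal.ofReal (p / 2) * (CC p * NN (2 / p) mu01 (fun r => (x r) ^ 2)) := by
        gcongr
        exact h
    _ = _ := by ring

/-- the operator on `L^{p,2}` -/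
noncomputable def opT (hp : 2 < p) (F : Family S (2 / p) B) : Lor p 2 →ₗ[ℝ] Lor p 2 where
  toFun x := ⟨AEEqFun.mk (Tsum S (2 / p) (x : ℝ →ₘ[leb] ℝ)) (Tsum_measurable _).aestronglyMeasurable, by
    apply lorentzNorm_lt_top_of_sq
    exact lt_of_le_of_lt (T_mk_sq_le hp F x.2)
      (ENNReal.mul_lt_top (lt_top_iff_ne_top.2 (CC_ne_top hp)) (ENNReal.pow_lt_top x.2))⟩
  map_add' := by
    intro x y
    apply Subtype.ext
    change AEEqFun.mk _ _ = AEEqFun.mk _ _ + AEEqFun.mk _ _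
    rw [AEEqFun.mk_add_mk, AEEqFun.mk_eq_mk]
    have hx : MemLp (x : ℝ →ₘ[leb] ℝ) 2 mu01 := memLp_of_NN (two_div_lt_one hp) (x : ℝ →ₘ[leb] ℝ).measurable
      (by rw [← NN_leb]; exact NN_lt_top_of_mem hp x.2)
    have hy : MemLp (y : ℝ →ₘ[leb] ℝ) 2 mu01 := memLp_of_NN (two_div_lt_one hp) (y : ℝ →ₘ[leb] ℝ).measurable
      (by rw [← NN_leb]; exact NN_lt_top_of_mem hp y.2)
    have h1 := F.Tsum_add hx hy
    have h2 : ∀ᵐ s ∂mu01, ((x + y : Lor p 2) : ℝ →ₘ[leb] ℝ) s = (x : ℝ →ₘ[leb] ℝ) s + (y : ℝ →ₘ[leb] ℝ) s := by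
      rw [← ae_leb]
      exact AEEqFun.coeFn_add _ _
    rw [← ae_leb] at h1
    filter_upwards [h1] with s hs
    rw [Pi.add_apply, ← hs]
    exact Tsum_congr h2 s
  map_smul' := by
    intro c x
    apply Subtype.ext
    change AEEqFun.mk _ _ = c • AEEqFun.mk _ _
    rw [AEEqFun.smul_mk, AEEqFun.mk_eq_mk]
    have h2 : ∀ᵐ s ∂mu01, ((c • x : Lor p 2) : ℝ →ₘ[leb] ℝ) s = c * (x : ℝ →ₘ[leb] ℝ) s := by
      rw [← ae_leb]
      exact AEEqFun.coeFn_smul _ _
    refine Filter.Eventually.of_forall (fun s => ?_)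
    rw [Pi.smul_apply, smul_eq_mul, ← Tsum_smul]
    exact Tsum_congr h2 s

lemma opT_bounded (hp : 2 < p) (F : Family S (2 / p) B) :
    ∃ C : ℝ≥0, ∀ x : Lor p 2, lorentzNorm p 2 (opT hp F x) ≤ C * lorentzNorm p 2 x := by
  refine ⟨(CC p).toNNReal + 1, fun x => ?_⟩
  have h1 := T_mk_sq_le hp F x.2
  apply (ENNReal.pow_right_strictMono two_ne_zero).le_iff_le.1
  change (lorentzNorm p 2 (opT hp F x)) ^ 2 ≤ (((CC p).toNNReal + 1 : ℝ≥0) * lorentzNorm p 2 x) ^ 2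
  refine h1.trans ?_
  rw [mul_pow]
  gcongr
  have h2 : CC p = ((CC p).toNNReal : ℝ≥0∞) := (ENNReal.coe_toNNReal (CC_ne_top hp)).symm
  rw [ENNReal.coe_add, ← h2, ENNReal.coe_one, pow_two]
  calc CC p ≤ CC p + 1 := le_self_add
    _ = (CC p + 1) * 1 := (mul_one _).symm
    _ ≤ (CC p + 1) * (CC p + 1) := by gcongr; exact le_add_self

lemma opT_block (hp : 2 < p) (F : Family S (2 / p) B) {e f : Set ℝ} (he : MeasurableSet e)
    (hf : MeasurableSet f) (he0 : leb e ≠ 0) (hf0 : leb f ≠ 0) :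
    ENNReal.ofReal (1 / 64) ≤ blockNorm (opT hp F) e f he hf := by
  have hp0 : 0 < p := by linarith
  rw [leb_eq_mu01] at he0 hf0
  obtain ⟨x, hxm, hxf, hxN, hxT⟩ := F.lower he hf he0 hf0
  rw [← leb_eq_mu01] at hxN hxT
  set a : ℝ := 1 / Real.sqrt (4 * p) with ha
  have hapos : 0 < a := by positivity
  have ha2 : a ^ 2 = 1 / (4 * p) := by
    rw [ha, div_pow, one_pow, Real.sq_sqrt (by positivity)]
  have hym : Measurable (fun s => a * x s) := hxm.const_mul a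
  have hyN : (lorentzNorm p 2 (AEEqFun.mk (fun s => a * x s) hym.aestronglyMeasurable)) ^ 2 ≤ 1 := by
    rw [lorentzNorm_mk hp, NN_smul_sq a hapos, ha2]
    calc ENNReal.ofReal (p / 2) * (ENNReal.ofReal (1 / (4 * p)) * NN (2 / p) leb (fun s => (x s) ^ 2))
        ≤ ENNReal.ofReal (p / 2) * (ENNReal.ofReal (1 / (4 * p)) * ENNReal.ofReal 8) := by
          gcongr
          refine hxN.trans (le_of_eq ?_)
          norm_num
      _ = 1 := by
          rw [← ENNReal.ofReal_mul (by positivity), ← ENNReal.ofReal_mul (by positivity), ← ENNReal.ofReal_one]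
          congr 1
          field_simp
          norm_num
  have hyN1 : lorentzNorm p 2 (AEEqFun.mk (fun s => a * x s) hym.aestronglyMeasurable) ≤ 1 := by
    apply (ENNReal.pow_right_strictMono two_ne_zero).le_iff_le.1
    simpa using hyN
  set y : Lor p 2 := ⟨AEEqFun.mk (fun s => a * x s) hym.aestronglyMeasurable,
    lt_of_le_of_lt hyN1 ENNReal.one_lt_top⟩ with hy
  have hfy : ∀ᵐ s ∂leb, (mulInd f hf y : ℝ →ₘ[leb] ℝ) s = a * x s := by
    have h1 := AEEqFun.coeFn_mk (f.indicator (y : ℝ →ₘ[leb] ℝ))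
      ((y : ℝ →ₘ[leb] ℝ).aestronglyMeasurable.indicator hf)
    have h2 : ∀ᵐ s ∂leb, (y : ℝ →ₘ[leb] ℝ) s = a * x s := AEEqFun.coeFn_mk _ hym.aestronglyMeasurable
    filter_upwards [h1, h2] with s h3 h4
    change (AEEqFun.mk (f.indicator (y : ℝ →ₘ[leb] ℝ)) _) s = _
    rw [h3]
    by_cases hs : s ∈ f
    · rw [indicator_of_mem hs, h4]
    · rw [indicator_of_notMem hs, hxf s hs, mul_zero]
  have hTy : ∀ᵐ s ∂leb, (opT hp F (mulInd f hf y) : ℝ →ₘ[leb] ℝ) s = a * Tsum S (2 / p) x s := by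
    have h1 : ∀ᵐ s ∂leb, (opT hp F (mulInd f hf y) : ℝ →ₘ[leb] ℝ) s =
        Tsum S (2 / p) (mulInd f hf y : ℝ →ₘ[leb] ℝ) s :=
      AEEqFun.coeFn_mk _ (Tsum_measurable _).aestronglyMeasurable
    rw [ae_leb] at hfy
    filter_upwards [h1] with s hs
    rw [hs, Tsum_congr hfy s, Tsum_smul]
  have heTy : ∀ᵐ s ∂leb, (mulInd e he (opT hp F (mulInd f hf y)) : ℝ →ₘ[leb] ℝ) s =
      a * e.indicator (Tsum S (2 / p) x) s := by
    have h1 := AEEqFun.coeFn_mk (e.indicator (opT hp F (mulInd f hf y) : ℝ →ₘ[leb] ℝ))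
      ((opT hp F (mulInd f hf y) : ℝ →ₘ[leb] ℝ).aestronglyMeasurable.indicator he)
    filter_upwards [h1, hTy] with s h3 h4
    change (AEEqFun.mk (e.indicator (opT hp F (mulInd f hf y) : ℝ →ₘ[leb] ℝ)) _) s = _
    rw [h3]
    by_cases hs : s ∈ e
    · rw [indicator_of_mem hs, indicator_of_mem hs, h4]
    · rw [indicator_of_notMem hs, indicator_of_notMem hs, mul_zero]
  have hfinal : (ENNReal.ofReal (1 / 64)) ^ 2 ≤
      (lorentzNorm p 2 (mulInd e he (opT hp F (mulInd f hf y)))) ^ 2 := by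
    rw [lorentzNorm_sq hp0]
    have h1 : NN (2 / p) leb (fun r => ((mulInd e he (opT hp F (mulInd f hf y)) : ℝ →ₘ[leb] ℝ) r) ^ 2) =
        NN (2 / p) leb (fun r => (a * e.indicator (Tsum S (2 / p) x) r) ^ 2) := by
      apply NN_congr
      filter_upwards [heTy] with s hs
      rw [hs]
    rw [h1, NN_smul_sq a hapos, ha2]
    calc (ENNReal.ofReal (1 / 64)) ^ 2 ≤ ENNReal.ofReal (p / 2) * (ENNReal.ofReal (1 / (4 * p)) * ENNReal.ofReal (1 / 256)) := by
          rw [← ENNReal.ofReal_pow (by norm_num), ← ENNReal.ofReal_mul (by positivity),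
            ← ENNReal.ofReal_mul (by positivity)]
          apply ENNReal.ofReal_le_ofReal
          have : p / 2 * (1 / (4 * p) * (1 / 256)) = 1 / 2048 := by field_simp; norm_num
          rw [this]
          norm_num
      _ ≤ _ := by gcongr
  have hfinal' : ENNReal.ofReal (1 / 64) ≤ lorentzNorm p 2 (mulInd e he (opT hp F (mulInd f hf y))) :=
    (ENNReal.pow_right_strictMono two_ne_zero).le_iff_le.1 hfinal
  refine hfinal'.trans ?_
  unfold blockNorm
  exact le_iSup₂ (f := fun (x : Lor p 2) (_ : lorentzNorm p 2 x ≤ 1) =>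
    lorentzNorm p 2 (mulInd e he (opT hp F (mulInd f hf x)))) y hyN1

end

theorem calD_nonempty {p : ℝ} (hp : 2 < p) : (calD p 2).Nonempty := by
  obtain ⟨S, B, F⟩ := exists_family (two_div_pos hp) (two_div_lt_one hp)
  refine ⟨opT hp F, opT_bounded hp F, ?_⟩
  have h1 : ENNReal.ofReal (1 / 64) ≤ sigma (opT hp F) := by
    unfold sigma
    refine le_iInf fun e => le_iInf fun f => le_iInf fun he => le_iInf fun hf => le_iInf fun hse =>
      le_iInf fun hsf => le_iInf fun hpos => ?_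
    have he0 : leb e ≠ 0 := by
      unfold leb
      rw [Measure.restrict_eq_self _ hse]
      intro h
      rw [h, zero_mul] at hpos
      exact lt_irrefl _ hpos
    have hf0 : leb f ≠ 0 := by
      unfold leb
      rw [Measure.restrict_eq_self _ hsf]
      intro h
      rw [h, mul_zero] at hpos
      exact lt_irrefl _ hpos
    exact opT_block hp F he hf he0 hf0
  exact lt_of_lt_of_le (ENNReal.ofReal_pos.2 (by norm_num)) h1

end LorentzBlocks
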