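import Pool.Agent.Lorentz.Basic3

/-!
# Subadditivity of `NN` up to the constant `1/θ`
-/

open MeasureTheory Set
open scoped ENNReal NNReal

namespace LorentzBlocks

variable {α : Type*} [MeasurableSpace α] {θ : ℝ} {μ : Measure α}

lemma meas_upper (g : α → ℝ) (u : ℝ≥0∞) : μ {a | μ {b | g a ≤ g b} ≤ u} ≤ u := by
  set R : Set ℝ := {r | μ {b | r ≤ g b} ≤ u} with hR
  have hup : ∀ r ∈ R, ∀ r', r ≤ r' → r' ∈ R := by
    intro r hr r' hrr'
    refine le_trans (measure_mono ?_) hr
    intro b hb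
    exact le_trans hrr' hb
  by_cases hmin : ∃ r0 ∈ R, ∀ r ∈ R, r0 ≤ r
  · obtain ⟨r0, hr0, hmin⟩ := hmin
    refine le_trans (measure_mono ?_) hr0
    intro a ha
    exact hmin _ ha
  · push Not at hmin
    have hsub : {a | μ {b | g a ≤ g b} ≤ u} ⊆ ⋃ q : {q : ℚ // (q : ℝ) ∈ R}, {b | ((q : ℚ) : ℝ) ≤ g b} := by
      intro a ha
      obtain ⟨r, hr, hra⟩ := hmin (g a) ha
      obtain ⟨q, hq1, hq2⟩ := exists_rat_btwn hra
      exact mem_iUnion.2 ⟨⟨q, hup r hr _ hq1.le⟩, hq2.le⟩
    refine (measure_mono hsub).trans ?_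
    have hdir : Directed (· ⊆ ·) (fun q : {q : ℚ // (q : ℝ) ∈ R} => {b | ((q : ℚ) : ℝ) ≤ g b}) := by
      intro q1 q2
      rcases le_total (q1 : ℚ) (q2 : ℚ) with h | h
      · refine ⟨q1, subset_rfl, ?_⟩
        intro b hb
        have hb' : ((q2 : ℚ) : ℝ) ≤ g b := hb
        have h' : ((q1 : ℚ) : ℝ) ≤ ((q2 : ℚ) : ℝ) := by exact_mod_cast h
        exact h'.trans hb'
      · refine ⟨q2, ?_, subset_rfl⟩
        intro b hb
        have hb' : ((q1 : ℚ) : ℝ) ≤ g b := hb
        have h' : ((q2 : ℚ) : ℝ) ≤ ((q1 : ℚ) : ℝ) := by exact_mod_cast h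
        exact h'.trans hb'
    rw [hdir.measure_iUnion]
    exact iSup_le (fun q => q.2)

lemma measurable_U (μ : Measure α) {g : α → ℝ} (hg : Measurable g) :
    Measurable (fun a => μ {b | g a ≤ g b}) := by
  have h : Measurable (fun r : ℝ => μ {b | r ≤ g b}) :=
    Antitone.measurable (fun _ _ hst => measure_mono (fun _ h => le_trans hst h))
  exact h.comp hg

lemma lintegral_min_le {θ : ℝ} (hθ : 0 < θ) (hθ1 : θ < 1) {m : ℝ} (hm : 0 < m) :
    ∫⁻ v in Ioi (0:ℝ), min (ENNReal.ofReal m) (ENNReal.ofReal (v ^ (-(1 / (1 - θ))))) ≤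
      ENNReal.ofReal (1 / θ * m ^ θ) := by
  set V : ℝ := m ^ (θ - 1) with hV
  have hVpos : 0 < V := Real.rpow_pos_of_pos hm _
  have h1θ : 0 < 1 - θ := by linarith
  have hβ : 1 < 1 / (1 - θ) := by rw [lt_div_iff₀ h1θ]; linarith
  have hsplit : Ioi (0:ℝ) = Ioc 0 V ∪ Ioi V := (Ioc_union_Ioi_eq_Ioi hVpos.le).symm
  have hdisj : Disjoint (Ioc 0 V) (Ioi V) := by
    rw [Set.disjoint_left]
    intro s hs hs'
    exact absurd hs.2 (not_le.2 hs')
  rw [hsplit, lintegral_union measurableSet_Ioi hdisj]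
  have e1 : ∫⁻ v in Ioc (0:ℝ) V, min (ENNReal.ofReal m) (ENNReal.ofReal (v ^ (-(1 / (1 - θ))))) ≤
      ENNReal.ofReal (m ^ θ) := by
    calc _ ≤ ∫⁻ v in Ioc (0:ℝ) V, ENNReal.ofReal m := by
          apply lintegral_mono
          intro v
          exact min_le_left _ _
      _ = ENNReal.ofReal (m ^ θ) := by
          rw [lintegral_const, Measure.restrict_apply_univ, Real.volume_Ioc, sub_zero,
            ← ENNReal.ofReal_mul hm.le, hV]
          congr 1
          nth_rewrite 1 [← Real.rpow_one m]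
          rw [← Real.rpow_add hm]
          congr 1; ring
  have e2 : ∫⁻ v in Ioi V, min (ENNReal.ofReal m) (ENNReal.ofReal (v ^ (-(1 / (1 - θ))))) ≤
      ENNReal.ofReal ((1 - θ) / θ * m ^ θ) := by
    calc _ ≤ ∫⁻ v in Ioi V, ENNReal.ofReal (v ^ (-(1 / (1 - θ)))) := by
          apply lintegral_mono
          intro v
          exact min_le_right _ _
      _ = ENNReal.ofReal ((1 - θ) / θ * m ^ θ) := by
          rw [← ofReal_integral_eq_lintegral_ofReal
            (integrableOn_Ioi_rpow_of_lt (by linarith) hVpos)]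
          · rw [integral_Ioi_rpow_of_lt (by linarith) hVpos]
            congr 1
            rw [hV, ← Real.rpow_mul hm.le]
            have h3 : (θ - 1) * (-(1 / (1 - θ)) + 1) = θ := by field_simp; ring
            rw [h3]
            have h4 : -(1 / (1 - θ)) + 1 = - (θ / (1 - θ)) := by field_simp; ring
            rw [h4]
            field_simp
          · filter_upwards [ae_restrict_mem measurableSet_Ioi] with s hs
            exact Real.rpow_nonneg (hVpos.le.trans (le_of_lt hs)) _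
  refine (add_le_add e1 e2).trans (le_of_eq ?_)
  rw [← ENNReal.ofReal_add (by positivity) (by positivity)]
  congr 1
  field_simp
  ring

/-- the dual density `φ = μ{g ≥ g(a)}^{θ-1}` satisfies `∫_E φ ≤ μ(E)^θ/θ`. -/
lemma lintegral_phi_le [IsFiniteMeasure μ] (hθ : 0 < θ) (hθ1 : θ < 1) {g : α → ℝ}
    (hg : Measurable g) {E : Set α} :
    ∫⁻ a in E, (μ {b | g a ≤ g b}) ^ (θ - 1) ∂μ ≤ ENNReal.ofReal (1 / θ) * (μ E) ^ θ := by
  have h1θ : 0 < 1 - θ := by linarith
  by_cases hE0 : μ E = 0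
  · rw [Measure.restrict_eq_zero.2 hE0]; simp
  have hEtop : μ E ≠ ∞ := measure_ne_top _ _
  set m : ℝ := (μ E).toReal with hm
  have hmpos : 0 < m := ENNReal.toReal_pos hE0 hEtop
  have hmE : μ E = ENNReal.ofReal m := (ENNReal.ofReal_toReal hEtop).symm
  have hUm := measurable_U μ hg
  have hφm : Measurable (fun a => (μ {b | g a ≤ g b}) ^ (θ - 1)) := hUm.pow_const _
  -- `U > 0` a.e.
  have hUpos : ∀ᵐ a ∂μ, 0 < μ {b | g a ≤ g b} := by
    have h0 := meas_upper (μ := μ) g 0
    rw [nonpos_iff_eq_zero] at h0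
    have := measure_eq_zero_iff_ae_notMem.1 h0
    filter_upwards [this] with a ha
    by_contra hcon
    exact ha (not_lt.1 hcon)
  have hfin : ∀ᵐ a ∂μ, (μ {b | g a ≤ g b}) ^ (θ - 1) ≠ ∞ := by
    filter_upwards [hUpos] with a ha
    exact ENNReal.rpow_ne_top_of_ne_zero ha.ne' (measure_ne_top _ _)
  have hcongr : ∫⁻ a in E, (μ {b | g a ≤ g b}) ^ (θ - 1) ∂μ =
      ∫⁻ a in E, ENNReal.ofReal (((μ {b | g a ≤ g b}) ^ (θ - 1)).toReal) ∂μ := by
    apply lintegral_congr_ae
    filter_upwards [ae_restrict_of_ae hfin] with a ha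
    rw [ENNReal.ofReal_toReal ha]
  rw [hcongr, lintegral_eq_lintegral_meas_lt (μ.restrict E)
    (Filter.Eventually.of_forall (fun a => ENNReal.toReal_nonneg)) hφm.ennreal_toReal.aemeasurable]
  calc ∫⁻ v in Ioi (0:ℝ), (μ.restrict E) {a | v < ((μ {b | g a ≤ g b}) ^ (θ - 1)).toReal}
      ≤ ∫⁻ v in Ioi (0:ℝ), min (ENNReal.ofReal m) (ENNReal.ofReal (v ^ (-(1 / (1 - θ))))) := by
        apply setLIntegral_mono (by fun_prop)
        intro v hv
        have hv0 : (0:ℝ) < v := hv
        apply le_min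
        · rw [← hmE]
          exact (measure_mono (subset_univ _)).trans (by rw [Measure.restrict_apply_univ])
        · refine le_trans (Measure.restrict_apply_le _ _) ?_
          refine le_trans (measure_mono ?_) (meas_upper g _)
          intro a ha
          simp only [Set.mem_ofPred_eq] at ha ⊢
          have hne : (μ {b | g a ≤ g b}) ^ (θ - 1) ≠ ∞ := by
            intro h
            rw [h] at ha
            simp at ha
            linarith
          have h5 : ENNReal.ofReal v < (μ {b | g a ≤ g b}) ^ (θ - 1) :=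
            (ENNReal.ofReal_lt_iff_lt_toReal hv0.le hne).2 ha
          have h6 : (μ {b | g a ≤ g b}) ^ (θ - 1) = ((μ {b | g a ≤ g b}) ^ (1 - θ))⁻¹ := by
            rw [← ENNReal.rpow_neg]; congr 1; ring
          rw [h6, ENNReal.lt_inv_iff_lt_inv] at h5
          have h7 : μ {b | g a ≤ g b} = ((μ {b | g a ≤ g b}) ^ (1 - θ)) ^ (1 / (1 - θ)) := by
            rw [← ENNReal.rpow_mul, mul_one_div_cancel h1θ.ne', ENNReal.rpow_one]
          rw [h7]
          calc ((μ {b | g a ≤ g b}) ^ (1 - θ)) ^ (1 / (1 - θ))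
              ≤ ((ENNReal.ofReal v)⁻¹) ^ (1 / (1 - θ)) :=
                ENNReal.rpow_le_rpow h5.le (by positivity)
            _ = ENNReal.ofReal (v ^ (-(1 / (1 - θ)))) := by
                rw [ENNReal.inv_rpow, ← ENNReal.rpow_neg, ENNReal.ofReal_rpow_of_pos hv0]
    _ ≤ ENNReal.ofReal (1 / θ * m ^ θ) := lintegral_min_le hθ hθ1 hmpos
    _ = ENNReal.ofReal (1 / θ) * (μ E) ^ θ := by
        rw [hmE, ENNReal.ofReal_rpow_of_pos hmpos, ENNReal.ofReal_mul (by positivity)]

/-- Subadditivity with constant `1/θ`, arbitrary finite sums. -/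
lemma NN_sum_le [IsFiniteMeasure μ] (hθ : 0 < θ) (hθ1 : θ < 1) {ι : Type*} (s : Finset ι)
    {f : ι → α → ℝ} (hf : ∀ i ∈ s, Measurable (f i)) (hf0 : ∀ i ∈ s, ∀ a, 0 ≤ f i a) :
    NN θ μ (fun a => ∑ i ∈ s, f i a) ≤ ENNReal.ofReal (1 / θ) * ∑ i ∈ s, NN θ μ (f i) := by
  set g : α → ℝ := fun a => ∑ i ∈ s, f i a with hgdef
  have hg : Measurable g := Finset.measurable_fun_sum s hf
  have hg0 : ∀ a, 0 ≤ g a := fun a => Finset.sum_nonneg (fun i hi => hf0 i hi a)
  set φ : α → ℝ≥0∞ := fun a => (μ {b | g a ≤ g b}) ^ (θ - 1) with hφ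
  have hφm : Measurable φ := (measurable_U μ hg).pow_const _
  set ν : Measure α := μ.withDensity φ with hν
  have hνE : ∀ E : Set α, MeasurableSet E → ν E ≤ ENNReal.ofReal (1 / θ) * (μ E) ^ θ := by
    intro E hE
    rw [hν, withDensity_apply _ hE]
    exact lintegral_phi_le hθ hθ1 hg
  have hlow : ∀ t : ℝ, (μ {a | t < g a}) ^ θ ≤ ν {a | t < g a} := by
    intro t
    have hmeas : MeasurableSet {a | t < g a} := measurableSet_lt measurable_const hg
    by_cases h0 : μ {a | t < g a} = 0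
    · rw [h0, ENNReal.zero_rpow_of_pos hθ]; exact zero_le
    rw [hν, withDensity_apply _ hmeas]
    calc (μ {a | t < g a}) ^ θ = (μ {a | t < g a}) ^ (θ - 1) * (μ {a | t < g a}) := by
          nth_rewrite 3 [← ENNReal.rpow_one (μ {a | t < g a})]
          rw [← ENNReal.rpow_add _ _ h0 (measure_ne_top _ _)]
          congr 1; ring
      _ = ∫⁻ a in {a | t < g a}, (μ {a | t < g a}) ^ (θ - 1) ∂μ := by
          rw [lintegral_const, Measure.restrict_apply_univ]
      _ ≤ ∫⁻ a in {a | t < g a}, φ a ∂μ := by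
          apply setLIntegral_mono hφm
          intro a ha
          have hle : μ {b | g a ≤ g b} ≤ μ {a | t < g a} := by
            apply measure_mono
            intro b hb
            have hb' : g a ≤ g b := hb
            have ha' : t < g a := ha
            exact lt_of_lt_of_le ha' hb'
          have h3 : θ - 1 = -(1 - θ) := by ring
          simp only [hφ]
          rw [h3, ENNReal.rpow_neg, ENNReal.rpow_neg]
          exact ENNReal.inv_le_inv.2 (ENNReal.rpow_le_rpow hle (by linarith))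
  calc NN θ μ g ≤ ∫⁻ t in Ioi (0:ℝ), ν {a | t < g a} := by
        unfold NN
        exact lintegral_mono (fun t => hlow t)
    _ = ∫⁻ a, ENNReal.ofReal (g a) ∂ν := by
        rw [lintegral_eq_lintegral_meas_lt ν (Filter.Eventually.of_forall hg0) hg.aemeasurable]
    _ = ∫⁻ a, ∑ i ∈ s, ENNReal.ofReal (f i a) ∂ν := by
        apply lintegral_congr
        intro a
        exact ENNReal.ofReal_sum_of_nonneg (fun i hi => hf0 i hi a)
    _ = ∑ i ∈ s, ∫⁻ a, ENNReal.ofReal (f i a) ∂ν :=
        lintegral_finsetSum' s (fun i hi => (hf i hi).ennreal_ofReal.aemeasurable)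
    _ ≤ ∑ i ∈ s, ENNReal.ofReal (1 / θ) * NN θ μ (f i) := by
        apply Finset.sum_le_sum
        intro i hi
        rw [lintegral_eq_lintegral_meas_lt ν (Filter.Eventually.of_forall (hf0 i hi))
          (hf i hi).aemeasurable]
        unfold NN
        rw [← lintegral_const_mul _ (measurable_dist_rpow μ (f i) θ)]
        apply lintegral_mono
        intro t
        exact hνE _ (measurableSet_lt measurable_const (hf i hi))
    _ = ENNReal.ofReal (1 / θ) * ∑ i ∈ s, NN θ μ (f i) := by rw [Finset.mul_sum]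

end LorentzBlocks
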