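import Pool.Agent.Lorentz.Trig
import Pool.Agent.Lorentz.Marc
import Pool.Agent.Lorentz.Subadd

/-!
# The operators of one stage
-/

open MeasureTheory Set
open scoped ENNReal NNReal

namespace LorentzBlocks

lemma memLp_two_integrable_sq {x : ℝ → ℝ} (hx : MemLp x 2 mu01) :
    Integrable (fun t => (x t) ^ 2) mu01 := hx.integrable_sq

lemma ofReal_integral_sq {x : ℝ → ℝ} (hx : MemLp x 2 mu01) :
    ENNReal.ofReal (∫ t, (x t) ^ 2 ∂mu01) = ∫⁻ t, ENNReal.ofReal ((x t) ^ 2) ∂mu01 :=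
  ofReal_integral_eq_lintegral_ofReal hx.integrable_sq
    (Filter.Eventually.of_forall (fun _ => sq_nonneg _))

lemma memLp_of_lintegral_sq {x : ℝ → ℝ} (hx : Measurable x)
    (h : ∫⁻ t, ENNReal.ofReal ((x t) ^ 2) ∂mu01 ≠ ∞) : MemLp x 2 mu01 := by
  rw [memLp_two_iff_integrable_sq hx.aestronglyMeasurable]
  refine ⟨(hx.pow_const 2).aestronglyMeasurable, ?_⟩
  rw [hasFiniteIntegral_iff_ofReal (Filter.Eventually.of_forall (fun t => sq_nonneg _))]
  exact lt_top_iff_ne_top.2 h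

/-- restriction of a function to where a condition holds keeps `MemLp`. -/
lemma memLp_of_abs_le {x y : ℝ → ℝ} (hx : MemLp x 2 mu01) (hy : Measurable y)
    (h : ∀ t, |y t| ≤ |x t|) : MemLp y 2 mu01 :=
  hx.mono hy.aestronglyMeasurable (Filter.Eventually.of_forall (fun t => by
    simpa [Real.norm_eq_abs] using h t))

namespace Stage

variable (S : Stage)

/-- coefficient -/
noncomputable def coef (x : ℝ → ℝ) (i k : ℕ) : ℝ := ∫ t, x t * S.phi i k t ∂mu01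

lemma integrable_mul_phi {x : ℝ → ℝ} (hx : MemLp x 2 mu01) (i k : ℕ) :
    Integrable (fun t => x t * S.phi i k t) mu01 :=
  hx.integrable_mul (S.phi_memLp i k 2)

lemma coef_add {x y : ℝ → ℝ} (hx : MemLp x 2 mu01) (hy : MemLp y 2 mu01) (i k : ℕ) :
    S.coef (fun t => x t + y t) i k = S.coef x i k + S.coef y i k := by
  unfold coef
  rw [← integral_add (S.integrable_mul_phi hx i k) (S.integrable_mul_phi hy i k)]
  congr 1
  ext t
  ring

lemma coef_smul (c : ℝ) (x : ℝ → ℝ) (i k : ℕ) :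
    S.coef (fun t => c * x t) i k = c * S.coef x i k := by
  unfold coef
  rw [← integral_const_mul]
  congr 1
  ext t
  ring

lemma coef_congr {x y : ℝ → ℝ} (h : ∀ᵐ t ∂mu01, x t = y t) (i k : ℕ) :
    S.coef x i k = S.coef y i k := by
  unfold coef
  apply integral_congr_ae
  filter_upwards [h] with t ht
  rw [ht]

lemma integral_abs_phi_le (i k : ℕ) :
    ∫ t, |S.phi i k t| ∂mu01 ≤ Real.sqrt 2 / Real.sqrt (S.L i) := by
  have hL : (0:ℝ) < S.L i := by exact_mod_cast S.hL i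
  have h1 : ∫ t, |S.phi i k t| ∂mu01 ≤
      ∫ t, (cell (S.L i) (S.idx i k)).indicator (fun _ => Real.sqrt 2 * Real.sqrt (S.L i)) t ∂mu01 := by
    apply integral_mono
    · exact ((S.phi_memLp i k 1).integrable le_rfl).abs
    · exact (integrable_const _).indicator (measurableSet_cell _ _)
    · intro t
      by_cases h : t ∈ cell (S.L i) (S.idx i k)
      · simp only [indicator_of_mem h]
        exact S.phi_bound i k t
      · have : S.phi i k t = 0 := by unfold phi; rw [indicator_of_notMem h]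
        simp only [this, indicator_of_notMem h, abs_zero]
        exact le_rfl
  refine h1.trans (le_of_eq ?_)
  rw [integral_indicator (measurableSet_cell _ _), setIntegral_const]
  have h2 : mu01.real (cell (S.L i) (S.idx i k)) = 1 / S.L i := by
    rw [measureReal_def, mu01_cell (S.hL i) (S.idx_lt i k), ENNReal.toReal_ofReal (by positivity)]
  rw [h2, smul_eq_mul]
  have h3 : Real.sqrt (S.L i) * Real.sqrt (S.L i) = S.L i := Real.mul_self_sqrt hL.le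
  have h4 : 0 < Real.sqrt (S.L i) := Real.sqrt_pos.2 hL
  rw [eq_div_iff h4.ne']
  calc 1 / (S.L i : ℝ) * (Real.sqrt 2 * Real.sqrt (S.L i)) * Real.sqrt (S.L i)
      = 1 / (S.L i : ℝ) * (Real.sqrt 2 * (Real.sqrt (S.L i) * Real.sqrt (S.L i))) := by ring
    _ = Real.sqrt 2 := by rw [h3]; field_simp

lemma coef_bound {x : ℝ → ℝ} (hx : MemLp x 2 mu01) {B : ℝ} (hB : ∀ᵐ t ∂mu01, |x t| ≤ B) (i k : ℕ) :
    |S.coef x i k| ≤ B * (Real.sqrt 2 / Real.sqrt (S.L i)) := by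
  have hB0 : 0 ≤ B := by
    obtain ⟨t, ht⟩ := hB.exists
    exact (abs_nonneg _).trans ht
  unfold coef
  calc |∫ t, x t * S.phi i k t ∂mu01| ≤ ∫ t, |x t * S.phi i k t| ∂mu01 := abs_integral_le_integral_abs
    _ ≤ ∫ t, B * |S.phi i k t| ∂mu01 := by
        apply integral_mono_ae
        · exact (S.integrable_mul_phi hx i k).abs
        · exact ((S.phi_memLp i k 1).integrable le_rfl).abs.const_mul _
        · filter_upwards [hB] with t ht
          rw [abs_mul]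
          gcongr
    _ = B * ∫ t, |S.phi i k t| ∂mu01 := integral_const_mul _ _
    _ ≤ _ := by gcongr; exact S.integral_abs_phi_le i k

lemma sum_coef_sq_le {x : ℝ → ℝ} (hx : MemLp x 2 mu01) (n : ℕ) :
    ∑ i ∈ Finset.range n, ∑ k ∈ Finset.range S.H, (S.coef x i k) ^ 2 ≤ ∫ t, (x t) ^ 2 ∂mu01 := by
  classical
  -- index set: ℕ × Fin H
  have h := bessel (ι := ℕ × Fin S.H) (Finset.range n ×ˢ Finset.univ)
    (fun p => S.phi p.1 (p.2 : ℕ)) (fun p => S.phi_memLp _ _ 2) (by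
      intro p q
      rw [S.phi_orth p.2.2 q.2.2]
      congr 1
      apply propext
      constructor
      · intro h
        obtain ⟨h1, h2⟩ := Prod.mk.inj h
        exact Prod.ext h1 (Fin.ext h2)
      · intro h; rw [h]) hx
  rw [Finset.sum_product] at h
  refine le_trans (le_of_eq ?_) h
  apply Finset.sum_congr rfl
  intro i _
  rw [Finset.sum_range]
  rfl

/-- level `i` operator -/
noncomputable def op (θ : ℝ) (i : ℕ) (x : ℝ → ℝ) (t : ℝ) : ℝ :=
  (S.H : ℝ) ^ (θ / 2) * (S.L i : ℝ) ^ ((1 - θ) / 2) * S.coef x i ⌊(S.H : ℝ) * t⌋₊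

variable {θ : ℝ}

lemma op_add {x y : ℝ → ℝ} (hx : MemLp x 2 mu01) (hy : MemLp y 2 mu01) (i : ℕ) (t : ℝ) :
    S.op θ i (fun t => x t + y t) t = S.op θ i x t + S.op θ i y t := by
  unfold op
  rw [S.coef_add hx hy]
  ring

lemma op_smul (c : ℝ) (x : ℝ → ℝ) (i : ℕ) (t : ℝ) :
    S.op θ i (fun t => c * x t) t = c * S.op θ i x t := by
  unfold op
  rw [S.coef_smul]
  ring

lemma op_congr {x y : ℝ → ℝ} (h : ∀ᵐ t ∂mu01, x t = y t) (i : ℕ) (t : ℝ) :
    S.op θ i x t = S.op θ i y t := by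
  unfold op
  rw [S.coef_congr h]

lemma op_measurable (x : ℝ → ℝ) (i : ℕ) : Measurable (S.op θ i x) := by
  unfold op
  exact (measurable_step S.H (fun k => S.coef x i k)).const_mul _

lemma H_pos : (0:ℝ) < S.H := by exact_mod_cast S.hH
lemma L_pos (i : ℕ) : (0:ℝ) < S.L i := by exact_mod_cast S.hL i

lemma op_sq (x : ℝ → ℝ) (i : ℕ) (t : ℝ) :
    (S.op θ i x t) ^ 2 = (S.H : ℝ) ^ θ * (S.L i : ℝ) ^ (1 - θ) * (S.coef x i ⌊(S.H : ℝ) * t⌋₊) ^ 2 := by
  unfold op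
  rw [mul_pow, mul_pow]
  congr 2
  · rw [← Real.rpow_natCast, ← Real.rpow_mul S.H_pos.le]; congr 1; push_cast; ring
  · rw [← Real.rpow_natCast, ← Real.rpow_mul (S.L_pos i).le]; congr 1; push_cast; ring

lemma op_sup {x : ℝ → ℝ} (hx : MemLp x 2 mu01) {B : ℝ} (hB : ∀ᵐ t ∂mu01, |x t| ≤ B) (i : ℕ) (t : ℝ) :
    (S.op θ i x t) ^ 2 ≤ 2 * ((S.H : ℝ) / S.L i) ^ θ * B ^ 2 := by
  rw [S.op_sq]
  have hB0 : 0 ≤ B := by
    obtain ⟨t, ht⟩ := hB.exists
    exact (abs_nonneg _).trans ht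
  have h1 := S.coef_bound hx hB i ⌊(S.H : ℝ) * t⌋₊
  have hH := S.H_pos
  have hL := S.L_pos i
  have h2 : (S.coef x i ⌊(S.H : ℝ) * t⌋₊) ^ 2 ≤ 2 * B ^ 2 * (S.L i : ℝ)⁻¹ := by
    rw [← sq_abs]
    calc |S.coef x i ⌊(S.H : ℝ) * t⌋₊| ^ 2 ≤ (B * (Real.sqrt 2 / Real.sqrt (S.L i))) ^ 2 := by gcongr
      _ = 2 * B ^ 2 * (S.L i : ℝ)⁻¹ := by
          rw [mul_pow, div_pow, Real.sq_sqrt (by norm_num), Real.sq_sqrt hL.le]
          ring
  calc (S.H : ℝ) ^ θ * (S.L i : ℝ) ^ (1 - θ) * (S.coef x i ⌊(S.H : ℝ) * t⌋₊) ^ 2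
      ≤ (S.H : ℝ) ^ θ * (S.L i : ℝ) ^ (1 - θ) * (2 * B ^ 2 * (S.L i : ℝ)⁻¹) := by gcongr
    _ = 2 * ((S.H : ℝ) / S.L i) ^ θ * B ^ 2 := by
        rw [Real.div_rpow hH.le hL.le, ← Real.rpow_neg_one (S.L i : ℝ)]
        have : (S.L i : ℝ) ^ (1 - θ) * (S.L i : ℝ) ^ (-1 : ℝ) = ((S.L i : ℝ) ^ θ)⁻¹ := by
          rw [← Real.rpow_add hL, ← Real.rpow_neg hL.le]; congr 1; ring
        calc (S.H : ℝ) ^ θ * (S.L i : ℝ) ^ (1 - θ) * (2 * B ^ 2 * (S.L i : ℝ) ^ (-1 : ℝ))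
            = 2 * ((S.H : ℝ) ^ θ * ((S.L i : ℝ) ^ (1 - θ) * (S.L i : ℝ) ^ (-1 : ℝ))) * B ^ 2 := by ring
          _ = _ := by rw [this]; ring

/-- energy of coefficients at level `i` -/
noncomputable def energy (x : ℝ → ℝ) (i : ℕ) : ℝ := ∑ k ∈ Finset.range S.H, (S.coef x i k) ^ 2

lemma energy_nonneg (x : ℝ → ℝ) (i : ℕ) : 0 ≤ S.energy x i :=
  Finset.sum_nonneg (fun _ _ => sq_nonneg _)

lemma energy_le {x : ℝ → ℝ} (hx : MemLp x 2 mu01) (i : ℕ) :
    S.energy x i ≤ ∫ t, (x t) ^ 2 ∂mu01 := by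
  have h := S.sum_coef_sq_le hx (i + 1)
  refine le_trans ?_ h
  exact Finset.single_le_sum (f := fun i => ∑ k ∈ Finset.range S.H, (S.coef x i k) ^ 2)
    (fun j _ => S.energy_nonneg x j) (Finset.mem_range.2 (Nat.lt_succ_self i))

lemma lintegral_op_sq (x : ℝ → ℝ) (i : ℕ) :
    ∫⁻ t, ENNReal.ofReal ((S.op θ i x t) ^ 2) ∂mu01 =
      ENNReal.ofReal (((S.L i : ℝ) / S.H) ^ (1 - θ) * S.energy x i) := by
  have hH := S.H_pos
  have hL := S.L_pos i
  simp_rw [S.op_sq]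
  rw [lintegral_mu01_step S.hH (fun k => ENNReal.ofReal ((S.H : ℝ) ^ θ * (S.L i : ℝ) ^ (1 - θ) *
    (S.coef x i k) ^ 2)), ← ENNReal.ofReal_sum_of_nonneg (fun k _ => by positivity),
    ← ENNReal.ofReal_mul (by positivity)]
  congr 1
  rw [← Finset.mul_sum]
  unfold energy
  rw [Real.div_rpow hL.le hH.le]
  have : 1 / (S.H : ℝ) * (S.H : ℝ) ^ θ = ((S.H : ℝ) ^ (1 - θ))⁻¹ := by
    rw [one_div, ← Real.rpow_neg_one, ← Real.rpow_add hH, ← Real.rpow_neg hH.le]; congr 1; ring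
  calc 1 / (S.H : ℝ) * ((S.H : ℝ) ^ θ * (S.L i : ℝ) ^ (1 - θ) * ∑ k ∈ Finset.range S.H, (S.coef x i k) ^ 2)
      = (1 / (S.H : ℝ) * (S.H : ℝ) ^ θ) * (S.L i : ℝ) ^ (1 - θ) * ∑ k ∈ Finset.range S.H, (S.coef x i k) ^ 2 := by
        ring
    _ = _ := by rw [this]; ring

lemma lintegral_op_sq_le {x : ℝ → ℝ} (hx : MemLp x 2 mu01) (i : ℕ) :
    ∫⁻ t, ENNReal.ofReal ((S.op θ i x t) ^ 2) ∂mu01 ≤
      ENNReal.ofReal (((S.L i : ℝ) / S.H) ^ (1 - θ)) * ∫⁻ t, ENNReal.ofReal ((x t) ^ 2) ∂mu01 := by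
  have hH := S.H_pos
  have hL := S.L_pos i
  rw [S.lintegral_op_sq, ← ofReal_integral_sq hx, ← ENNReal.ofReal_mul (by positivity)]
  apply ENNReal.ofReal_le_ofReal
  gcongr
  exact S.energy_le hx i

/-- Marcinkiewicz bound for a single level. -/
lemma NN_op_le (hθ : 0 < θ) (hθ1 : θ < 1) {x : ℝ → ℝ} (hxm : Measurable x) (hx : MemLp x 2 mu01)
    (i : ℕ) : NN θ mu01 (fun t => (S.op θ i x t) ^ 2) ≤ CM θ * NN θ mu01 (fun t => (x t) ^ 2) := by
  have hH := S.H_pos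
  have hL := S.L_pos i
  apply NN_marcinkiewicz hθ hθ1 (hxm.pow_const 2) (ρ := (S.H : ℝ) / S.L i) (by positivity)
  intro u hu
  set x1 : ℝ → ℝ := fun t => if u < (x t) ^ 2 then 0 else x t with hx1
  set x2 : ℝ → ℝ := fun t => if u < (x t) ^ 2 then x t else 0 with hx2
  have hset : MeasurableSet {t | u < (x t) ^ 2} := measurableSet_lt measurable_const (hxm.pow_const 2)
  have hx1m : Measurable x1 := Measurable.ite hset measurable_const hxm
  have hx2m : Measurable x2 := Measurable.ite hset hxm measurable_const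
  have hx1L : MemLp x1 2 mu01 := memLp_of_abs_le hx hx1m (fun t => by
    simp only [hx1]; split_ifs <;> simp)
  have hx2L : MemLp x2 2 mu01 := memLp_of_abs_le hx hx2m (fun t => by
    simp only [hx2]; split_ifs <;> simp)
  have hsum : x = fun t => x1 t + x2 t := by
    ext t
    simp only [hx1, hx2]
    split_ifs <;> simp
  refine ⟨S.op θ i x1, S.op θ i x2, ?_, ?_, (S.op_measurable x2 i).aemeasurable, ?_⟩
  · refine Filter.Eventually.of_forall (fun t => ?_)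
    rw [← S.op_add hx1L hx2L]
    congr 1
  · refine Filter.Eventually.of_forall (fun t => ?_)
    have h1 := S.op_sup (θ := θ) hx1L (B := Real.sqrt u) (Filter.Eventually.of_forall (fun t => by
      simp only [hx1]
      split_ifs with h
      · simp
      · exact Real.abs_le_sqrt (not_lt.1 h))) i t
    rwa [Real.sq_sqrt hu.le] at h1
  · have h2 := S.lintegral_op_sq_le (θ := θ) hx2L i
    have e1 : ((S.L i : ℝ) / S.H) ^ (1 - θ) = ((S.H : ℝ) / S.L i) ^ (-(1 - θ)) := by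
      rw [Real.rpow_neg (by positivity), ← Real.inv_rpow (by positivity), inv_div]
    rw [e1] at h2
    refine h2.trans (le_of_eq ?_)
    congr 2
    ext t
    simp only [hx2]
    split_ifs <;> simp

/-- the stage operator -/
noncomputable def T (θ : ℝ) (x : ℝ → ℝ) (t : ℝ) : ℝ :=
  1 / Real.sqrt S.lam * ∑ i ∈ Finset.range S.lam, S.op θ i x t

lemma T_add {x y : ℝ → ℝ} (hx : MemLp x 2 mu01) (hy : MemLp y 2 mu01) (t : ℝ) :
    S.T θ (fun t => x t + y t) t = S.T θ x t + S.T θ y t := by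
  unfold T
  simp_rw [S.op_add hx hy]
  rw [Finset.sum_add_distrib, mul_add]

lemma T_smul (c : ℝ) (x : ℝ → ℝ) (t : ℝ) :
    S.T θ (fun t => c * x t) t = c * S.T θ x t := by
  unfold T
  simp_rw [S.op_smul]
  rw [← Finset.mul_sum]
  ring

lemma T_congr {x y : ℝ → ℝ} (h : ∀ᵐ t ∂mu01, x t = y t) (t : ℝ) :
    S.T θ x t = S.T θ y t := by
  unfold T
  congr 1
  apply Finset.sum_congr rfl
  intro i _
  exact S.op_congr h i t

lemma T_measurable (x : ℝ → ℝ) : Measurable (S.T θ x) := by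
  unfold T
  exact (Finset.measurable_fun_sum _ (fun i _ => S.op_measurable x i)).const_mul _

/-- `T x` as a step function -/
lemma T_step (x : ℝ → ℝ) : ∃ g : ℕ → ℝ, ∀ t, S.T θ x t = g ⌊(S.H : ℝ) * t⌋₊ := by
  refine ⟨fun k => 1 / Real.sqrt S.lam * ∑ i ∈ Finset.range S.lam,
    ((S.H : ℝ) ^ (θ / 2) * (S.L i : ℝ) ^ ((1 - θ) / 2) * S.coef x i k), fun t => rfl⟩

/-- Cauchy–Schwarz -/
lemma avg_sq_le (f : ℕ → ℝ) :
    (1 / Real.sqrt S.lam * ∑ i ∈ Finset.range S.lam, f i) ^ 2 ≤ ∑ i ∈ Finset.range S.lam, (f i) ^ 2 := by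
  have hlam : (0:ℝ) < S.lam := by exact_mod_cast S.hlam
  rw [mul_pow, div_pow, one_pow, Real.sq_sqrt hlam.le, one_div, inv_mul_le_iff₀ hlam]
  have h := sq_sum_le_card_mul_sum_sq (s := Finset.range S.lam) (f := f)
  rwa [Finset.card_range] at h

lemma T_sq_le (x : ℝ → ℝ) (t : ℝ) :
    (S.T θ x t) ^ 2 ≤ ∑ i ∈ Finset.range S.lam, (S.op θ i x t) ^ 2 := S.avg_sq_le _

lemma lintegral_T_sq_le (hθ1 : θ < 1) {x : ℝ → ℝ} (hx : MemLp x 2 mu01) :
    ∫⁻ t, ENNReal.ofReal ((S.T θ x t) ^ 2) ∂mu01 ≤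
      ENNReal.ofReal (((S.D : ℝ) / S.H) ^ (1 - θ)) * ∫⁻ t, ENNReal.ofReal ((x t) ^ 2) ∂mu01 := by
  have hH := S.H_pos
  calc ∫⁻ t, ENNReal.ofReal ((S.T θ x t) ^ 2) ∂mu01
      ≤ ∫⁻ t, ∑ i ∈ Finset.range S.lam, ENNReal.ofReal ((S.op θ i x t) ^ 2) ∂mu01 := by
        apply lintegral_mono
        intro t
        change ENNReal.ofReal (S.T θ x t ^ 2) ≤ ∑ i ∈ Finset.range S.lam, ENNReal.ofReal (S.op θ i x t ^ 2)
        rw [← ENNReal.ofReal_sum_of_nonneg (fun i _ => sq_nonneg _)]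
        exact ENNReal.ofReal_le_ofReal (S.T_sq_le x t)
    _ = ∑ i ∈ Finset.range S.lam, ∫⁻ t, ENNReal.ofReal ((S.op θ i x t) ^ 2) ∂mu01 :=
        lintegral_finsetSum' _ (fun i _ => ((S.op_measurable x i).pow_const 2).ennreal_ofReal.aemeasurable)
    _ = ∑ i ∈ Finset.range S.lam, ENNReal.ofReal (((S.L i : ℝ) / S.H) ^ (1 - θ) * S.energy x i) := by
        simp_rw [S.lintegral_op_sq]
    _ ≤ ∑ i ∈ Finset.range S.lam, ENNReal.ofReal (((S.D : ℝ) / S.H) ^ (1 - θ) * S.energy x i) := by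
        apply Finset.sum_le_sum
        intro i _
        apply ENNReal.ofReal_le_ofReal
        have hL := S.L_pos i
        have : (S.L i : ℝ) ≤ S.D := by exact_mod_cast Nat.le_of_dvd S.hD (S.hLD i)
        have h1 := S.energy_nonneg x i
        have : ((S.L i : ℝ) / S.H) ^ (1 - θ) ≤ ((S.D : ℝ) / S.H) ^ (1 - θ) := by
          apply Real.rpow_le_rpow (by positivity) (by gcongr) (by linarith)
        gcongr
    _ = ENNReal.ofReal (((S.D : ℝ) / S.H) ^ (1 - θ) * ∑ i ∈ Finset.range S.lam, S.energy x i) := by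
        rw [← ENNReal.ofReal_sum_of_nonneg, Finset.mul_sum]
        intro i _
        have h1 := S.energy_nonneg x i
        positivity
    _ ≤ ENNReal.ofReal (((S.D : ℝ) / S.H) ^ (1 - θ) * ∫ t, (x t) ^ 2 ∂mu01) := by
        apply ENNReal.ofReal_le_ofReal
        gcongr
        exact S.sum_coef_sq_le hx S.lam
    _ = _ := by
        rw [ENNReal.ofReal_mul (by positivity), ofReal_integral_sq hx]

end Stage

end LorentzBlocks
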