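import Pool.Agent.Lorentz.Block2

/-!
# Existence of parameters for a stage
-/

open MeasureTheory Set Filter
open scoped ENNReal NNReal Topology

namespace LorentzBlocks

variable {θ : ℝ}

lemma exists_lam (hθ : 0 < θ) (c : ℝ) {ε : ℝ} (hε : 0 < ε) :
    ∃ lam : ℕ, 0 < lam ∧ c * (lam : ℝ) ^ (-θ) ≤ ε := by
  have h : Tendsto (fun n : ℕ => c * (n : ℝ) ^ (-θ)) atTop (𝓝 (c * 0)) :=
    ((tendsto_rpow_neg_atTop hθ).comp tendsto_natCast_atTop_atTop).const_mul c
  rw [mul_zero] at h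
  obtain ⟨n, hn, hn0⟩ := ((h.eventually_lt_const hε).and (eventually_gt_atTop 0)).exists
  exact ⟨n, hn0, hn.le⟩

lemma exists_kappa (hθ1 : θ < 1) {c : ℝ} (hc : 0 < c) : ∃ κ : ℝ, 0 < κ ∧ κ ≤ 1 ∧ (κ ^ 2) ^ (1 - θ) ≤ c := by
  have h1θ : 0 < 1 - θ := by linarith
  have hcont : Continuous (fun y : ℝ => (y ^ 2) ^ (1 - θ)) :=
    (continuous_pow 2).rpow_const (fun x => Or.inr h1θ.le)
  have h0 : ((0:ℝ) ^ 2) ^ (1 - θ) = 0 := by
    rw [zero_pow two_ne_zero, Real.zero_rpow h1θ.ne']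
  have h := (hcont.tendsto 0).comp (tendsto_one_div_add_atTop_nhds_zero_nat (𝕜 := ℝ))
  rw [h0] at h
  obtain ⟨n, hn⟩ := (h.eventually_lt_const hc).exists
  refine ⟨1 / ((n:ℝ) + 1), by positivity, ?_, hn.le⟩
  rw [div_le_one (by positivity)]
  have : (0:ℝ) ≤ n := Nat.cast_nonneg n
  linarith

lemma exists_t {β : ℝ} (hβ : 0 < β) (c t0 : ℝ) {ε : ℝ} (hε : 0 < ε) :
    ∃ t : ℝ, t0 ≤ t ∧ c * (t ^ 2) ^ (-β) ≤ ε := by
  have h : Tendsto (fun t : ℝ => c * (t ^ 2) ^ (-β)) atTop (𝓝 (c * 0)) :=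
    ((tendsto_rpow_neg_atTop hβ).comp (tendsto_pow_atTop two_ne_zero)).const_mul c
  rw [mul_zero] at h
  obtain ⟨t, ht, ht0⟩ := ((h.eventually_lt_const hε).and (eventually_ge_atTop t0)).exists
  exact ⟨t, ht0, ht.le⟩

lemma exists_m (hθ : 0 < θ) (c : ℝ) : ∃ m : ℕ, 0 < m ∧ c ≤ (m : ℝ) ^ θ := by
  have h : Tendsto (fun n : ℕ => (n : ℝ) ^ θ) atTop atTop :=
    (tendsto_rpow_atTop hθ).comp tendsto_natCast_atTop_atTop
  obtain ⟨n, hn, hn0⟩ := ((h.eventually_ge_atTop c).and (eventually_gt_atTop 0)).exists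
  exact ⟨n, hn0, hn⟩

/-- the sequences of thresholds and scales -/
lemma exists_seq (hθ : 0 < θ) (hθ1 : θ < 1) {B κ ε : ℝ} (hB : 1 ≤ B) (hκ : 0 < κ) (hε : 0 < ε) {l0 : ℕ}
    (hl0 : 0 < l0) :
    ∃ (t : ℕ → ℝ) (L : ℕ → ℕ), t 0 = B ∧ L 0 = l0 ∧ ∀ i, 0 < L i ∧ 2 * t i ≤ t (i + 1) ∧ L i ∣ L (i + 1) ∧
      8 * (t (i + 1)) ^ 2 * (L i : ℝ) ^ θ ≤ κ ^ 2 * (L (i + 1) : ℝ) ^ θ ∧
      4 ^ (i + 1) * (L i : ℝ) ^ (1 - θ) * ((t (i + 1)) ^ 2) ^ (-((1 - θ) / θ)) ≤ ε * (1 / 2) ^ (i + 1) := by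
  have h1θ : 0 < 1 - θ := by linarith
  have hβ : 0 < (1 - θ) / θ := by positivity
  have step : ∀ (i : ℕ) (p : ℝ × ℕ), ∃ q : ℝ × ℕ, 0 < p.2 →
      (0 < q.2 ∧ 2 * p.1 ≤ q.1 ∧ p.2 ∣ q.2 ∧ 8 * q.1 ^ 2 * (p.2 : ℝ) ^ θ ≤ κ ^ 2 * (q.2 : ℝ) ^ θ ∧
      4 ^ (i + 1) * (p.2 : ℝ) ^ (1 - θ) * (q.1 ^ 2) ^ (-((1 - θ) / θ)) ≤ ε * (1 / 2) ^ (i + 1)) := by
    intro i p
    obtain ⟨t', ht', ht2⟩ := exists_t hβ (4 ^ (i + 1) * (p.2 : ℝ) ^ (1 - θ)) (2 * p.1)
      (ε := ε * (1 / 2) ^ (i + 1)) (by positivity)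
    obtain ⟨m, hm, hm2⟩ := exists_m hθ (8 * t' ^ 2 / κ ^ 2)
    refine ⟨(t', p.2 * m), fun hp => ⟨Nat.mul_pos hp hm, ht', ⟨m, rfl⟩, ?_, ht2⟩⟩
    have hp' : (0:ℝ) < p.2 := by exact_mod_cast hp
    have hm' : (0:ℝ) < m := by exact_mod_cast hm
    rw [div_le_iff₀ (by positivity)] at hm2
    push_cast
    rw [Real.mul_rpow hp'.le hm'.le]
    calc 8 * t' ^ 2 * (p.2 : ℝ) ^ θ ≤ ((m:ℝ) ^ θ * κ ^ 2) * (p.2 : ℝ) ^ θ := by gcongr
      _ = _ := by ring
  choose F hF using step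
  set s : ℕ → ℝ × ℕ := fun n => Nat.rec (B, l0) (fun i p => F i p) n with hs
  have hs0 : s 0 = (B, l0) := rfl
  have hs1 : ∀ i, s (i + 1) = F i (s i) := fun i => rfl
  have hpos : ∀ i, 0 < (s i).2 := by
    intro i
    induction i with
    | zero => rw [hs0]; exact hl0
    | succ i ih => rw [hs1]; exact (hF i (s i) ih).1
  refine ⟨fun i => (s i).1, fun i => (s i).2, rfl, rfl, fun i => ?_⟩
  have h := hF i (s i) (hpos i)
  rw [← hs1] at h
  exact ⟨hpos i, h.2.1, h.2.2.1, h.2.2.2.1, h.2.2.2.2⟩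

/-- the facts about a stage which are used in the sum -/
structure StageFacts (S : Stage) (θ B B' ε : ℝ) (l0 : ℕ) : Prop where
  hBB : 2 * B ≤ B'
  unit : ∀ x : ℝ → ℝ, Measurable x → NN θ mu01 (fun s => (x s) ^ 2) ≤ 1 →
    NN θ mu01 (fun s => (S.T θ x s) ^ 2) ≤ Good.CT θ
  l2 : ∀ x : ℝ → ℝ, MemLp x 2 mu01 → ∫⁻ s, ENNReal.ofReal ((S.T θ x s) ^ 2) ∂mu01 ≤
    ENNReal.ofReal ε * ∫⁻ s, ENNReal.ofReal ((x s) ^ 2) ∂mu01
  bdd : ∀ x : ℝ → ℝ, Measurable x → (∀ᵐ s ∂mu01, |x s| < B) →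
    NN θ mu01 (fun s => (S.T θ x s) ^ 2) ≤ ENNReal.ofReal ε
  high : ∀ x : ℝ → ℝ, Measurable x → (∀ s, x s = 0 ∨ B' ≤ |x s|) → NN θ mu01 (fun s => (x s) ^ 2) ≤ 1 →
    NN θ mu01 (fun s => (S.T θ x s) ^ 2) ≤ ENNReal.ofReal ε
  sup : ∀ x : ℝ → ℝ, Measurable x → NN θ mu01 (fun s => (x s) ^ 2) ≤ 1 → ∀ s ∈ Ico (0:ℝ) 1,
    |S.T θ x s| ≤ B' / 2
  small : ∀ x : ℝ → ℝ, Measurable x → NN θ mu01 (fun s => (x s) ^ 2) ≤ 1 →
    NN θ mu01 (fun s => (if |S.T θ x s| ≤ B then S.T θ x s else 0) ^ 2) ≤ ENNReal.ofReal ε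
  block : ∀ e f : Set ℝ, MeasurableSet e → MeasurableSet f → Cond e f l0 →
    ∃ x : ℝ → ℝ, Measurable x ∧ (∀ t, t ∉ f → x t = 0) ∧ (∀ t, x t = 0 ∨ 3 * B ≤ |x t|) ∧
      (∀ t, |x t| < B') ∧ NN θ mu01 (fun t => (x t) ^ 2) ≤ 8 ∧
      ENNReal.ofReal (1 / 32) ≤ NN θ mu01 (fun t => (e.indicator (S.T θ x) t) ^ 2)

lemma lintegral_le_one_of_NN (hθ1 : θ < 1) {x : ℝ → ℝ} (hxm : Measurable x)
    (hN : NN θ mu01 (fun s => (x s) ^ 2) ≤ 1) : ∫⁻ s, ENNReal.ofReal ((x s) ^ 2) ∂mu01 ≤ 1 :=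
  (lintegral_le_NN hθ1.le (Filter.Eventually.of_forall (fun s => sq_nonneg _))
      (hxm.pow_const 2).aemeasurable).trans hN

lemma memLp_of_NN (hθ1 : θ < 1) {x : ℝ → ℝ} (hxm : Measurable x)
    (hN : NN θ mu01 (fun s => (x s) ^ 2) ≠ ∞) : MemLp x 2 mu01 :=
  memLp_of_lintegral_sq hxm (ne_top_of_le_ne_top hN
    (lintegral_le_NN hθ1.le (Filter.Eventually.of_forall (fun s => sq_nonneg _))
      (hxm.pow_const 2).aemeasurable))

lemma stage_exists (hθ : 0 < θ) (hθ1 : θ < 1) {B ε : ℝ} (hB : 8 ≤ B) (hε : 0 < ε) (hε1 : ε ≤ 1 / 1024)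
    {l0 : ℕ} (hl0 : 0 < l0) : ∃ (S : Stage) (B' : ℝ), StageFacts S θ B B' ε l0 := by
  have h1θ : 0 < 1 - θ := by linarith
  have hβ : 0 < (1 - θ) / θ := by positivity
  -- lam
  obtain ⟨lam, hlam, hlam2⟩ := exists_lam hθ (16 * (2 * B ^ 2 / (1 - θ))) (ε := ε / 2) (by positivity)
  have hlam' : (0:ℝ) < lam := by exact_mod_cast hlam
  -- kappa
  set K : ℝ := ∑ i ∈ Finset.range lam, (4:ℝ) ^ (i + 1) with hK
  have hKpos : 0 < K := Finset.sum_pos (fun i _ => by positivity) ⟨0, Finset.mem_range.2 hlam⟩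
  obtain ⟨κ, hκ, hκ1, hκ2⟩ := exists_kappa hθ1 (c := ε / 8 * (1 - θ) / (K * (B ^ 2) ^ θ)) (by positivity)
  have herrK : K * Good.errK θ B κ ≤ ε / 8 := by
    unfold Good.errK
    calc K * ((κ ^ 2) ^ (1 - θ) * (B ^ 2) ^ θ / (1 - θ))
        ≤ K * (ε / 8 * (1 - θ) / (K * (B ^ 2) ^ θ) * (B ^ 2) ^ θ / (1 - θ)) := by gcongr
      _ = ε / 8 := by field_simp
  have herrnn : 0 ≤ Good.errK θ B κ := by unfold Good.errK; positivity
  have herr : ∑ i ∈ Finset.range lam, ENNReal.ofReal (4 ^ (i + 1)) * ENNReal.ofReal (Good.errK θ B κ) ≤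
      ENNReal.ofReal (ε / 8) := by
    rw [← Finset.sum_mul, ← ENNReal.ofReal_sum_of_nonneg (fun i _ => by positivity),
      ← ENNReal.ofReal_mul hKpos.le]
    exact ENNReal.ofReal_le_ofReal herrK
  -- sequences
  obtain ⟨t, L, ht0, hL0, hseq⟩ := exists_seq hθ hθ1 (B := B) (κ := κ) (ε := ε) (by linarith) hκ hε hl0
  have hLpos : ∀ i, 0 < L i := fun i => (hseq i).1
  have hLdvd : ∀ i j, i ≤ j → L i ∣ L j := by
    intro i j hij
    induction j, hij using Nat.le_induction with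
    | base => exact dvd_rfl
    | succ j _ ih => exact ih.trans (hseq j).2.2.1
  have hLmono : ∀ i j, i ≤ j → L i ≤ L j := fun i j hij => Nat.le_of_dvd (hLpos j) (hLdvd i j hij)
  set D := L (lam - 1) with hD
  have hDpos : 0 < D := hLpos _
  -- H'
  obtain ⟨H', hH'l, hH'0, hH'1, hH'2⟩ : ∃ H' : ℕ, l0 ≤ H' ∧ 0 < H' ∧ (1 / (H' : ℝ)) ^ (1 - θ) ≤ ε ∧
      (B ^ 2) ^ (1 - θ) / (1 - θ) * ((1 / (H' : ℝ)) ^ (1 - θ)) ^ θ ≤ ε := by
    have hcont : Continuous (fun y : ℝ => y ^ (1 - θ)) := Real.continuous_rpow_const h1θ.le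
    have hcont2 : Continuous (fun y : ℝ => (B ^ 2) ^ (1 - θ) / (1 - θ) * (y ^ (1 - θ)) ^ θ) :=
      (hcont.rpow_const (fun x => Or.inr hθ.le)).const_mul _ 
    have e1 := (hcont.tendsto 0).comp tendsto_one_div_atTop_nhds_zero_nat
    have e2 := (hcont2.tendsto 0).comp tendsto_one_div_atTop_nhds_zero_nat
    rw [Real.zero_rpow h1θ.ne'] at e1 e2
    rw [Real.zero_rpow hθ.ne', mul_zero] at e2
    obtain ⟨H', h1, h2, h3, h4⟩ := ((e1.eventually_lt_const hε).and ((e2.eventually_lt_const hε).and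
      ((eventually_ge_atTop l0).and (eventually_gt_atTop 0)))).exists
    exact ⟨H', h3, h4, h1.le, h2.le⟩
  have hH'pos : (0:ℝ) < H' := by exact_mod_cast hH'0
  -- the stage
  set S : Stage := ⟨lam, D, D * H', fun i => L (min i (lam - 1)), hlam, hDpos, Nat.mul_pos hDpos hH'0,
    fun i => hLpos _, fun i => hLdvd _ _ (min_le_right _ _)⟩ with hS
  have hSL : ∀ i, i < lam → S.L i = L i := by
    intro i hi
    change L (min i (lam - 1)) = L i
    rw [min_eq_left (by omega)]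
  have hSD : S.D = D := rfl
  have hSH : S.H = D * H' := rfl
  have hSlam : S.lam = lam := rfl
  have hratio : (S.D : ℝ) / S.H = 1 / H' := by
    have hD' : (D : ℝ) ≠ 0 := by exact_mod_cast hDpos.ne'
    rw [hSD, hSH]
    push_cast
    field_simp
  have hgood : Good S θ B κ ε t := by
    refine ⟨hθ, hθ1, by linarith, hκ, hκ1, hε, ht0, fun i => (hseq i).2.1, ?_, ?_⟩
    · intro i hi
      rw [hSL i (by rw [hSlam] at hi; omega), hSL (i + 1) (by rw [hSlam] at hi; omega)]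
      exact (hseq i).2.2.2.1
    · intro i hi
      rw [hSL i hi]
      exact (hseq i).2.2.2.2
  -- B'
  have hHpos := S.H_pos
  set M : ℝ := (Good.CT θ * ENNReal.ofReal ((S.H : ℝ) ^ θ)).toReal with hM
  have hMtop : Good.CT θ * ENNReal.ofReal ((S.H : ℝ) ^ θ) ≠ ∞ :=
    ENNReal.mul_ne_top (Good.CT_ne_top hθ1) ENNReal.ofReal_ne_top
  obtain ⟨B', hB'1, hB'2⟩ := exists_t hβ ((S.D : ℝ) ^ (1 - θ)) (max (2 * B) (max (8 * (S.D : ℝ) ^ θ + 1) (4 * M + 1))) hε
  have hB'a : 2 * B ≤ B' := (le_max_left _ _).trans hB'1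
  have hB'b : 8 * (S.D : ℝ) ^ θ + 1 ≤ B' := ((le_max_left _ _).trans (le_max_right _ _)).trans hB'1
  have hB'c : 4 * M + 1 ≤ B' := ((le_max_right _ _).trans (le_max_right _ _)).trans hB'1
  have hM0 : 0 ≤ M := ENNReal.toReal_nonneg
  have hB'pos : 0 < B' := by linarith
  have hbdd : ∀ x : ℝ → ℝ, Measurable x → (∀ᵐ s ∂mu01, |x s| < B) →
      NN θ mu01 (fun s => (S.T θ x s) ^ 2) ≤ ENNReal.ofReal ε := by
    intro x hxm hxB
    refine (hgood.NN_T_bounded hxm hxB).trans ?_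
    calc 16 * ENNReal.ofReal (2 * B ^ 2 / (1 - θ) * (S.lam : ℝ) ^ (-θ)) +
          4 * (∑ i ∈ Finset.range S.lam, ENNReal.ofReal (4 ^ (i + 1)) * ENNReal.ofReal (Good.errK θ B κ))
        ≤ ENNReal.ofReal (ε / 2) + ENNReal.ofReal (ε / 2) := by
          apply add_le_add
          · rw [show (16:ℝ≥0∞) = ENNReal.ofReal 16 by norm_num, ← ENNReal.ofReal_mul (by norm_num)]
            apply ENNReal.ofReal_le_ofReal
            rw [← mul_assoc]
            exact hlam2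
          · calc 4 * (∑ i ∈ Finset.range S.lam, ENNReal.ofReal (4 ^ (i + 1)) * ENNReal.ofReal (Good.errK θ B κ))
                ≤ 4 * ENNReal.ofReal (ε / 8) := mul_le_mul' le_rfl herr
              _ = ENNReal.ofReal 4 * ENNReal.ofReal (ε / 8) := by
                  rw [show (4:ℝ≥0∞) = ENNReal.ofReal 4 by norm_num]
              _ ≤ ENNReal.ofReal (ε / 2) := by
                  rw [← ENNReal.ofReal_mul (by norm_num)]
                  apply ENNReal.ofReal_le_ofReal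
                  linarith
      _ = ENNReal.ofReal ε := by
          rw [← ENNReal.ofReal_add (by positivity) (by positivity)]
          congr 1; ring
  refine ⟨S, B', hB'a, ?_, ?_, hbdd, ?_, ?_, ?_, ?_⟩
  · -- unit
    intro x hxm hN
    apply hgood.NN_T_le_one (by linarith) _ hxm hN
    refine herr.trans ?_
    rw [← ENNReal.ofReal_one]
    exact ENNReal.ofReal_le_ofReal (by linarith)
  · -- l2
    intro x hx
    refine (S.lintegral_T_sq_le hθ1 hx).trans ?_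
    rw [hratio]
    gcongr
  · -- high
    intro x hxm hx0 hN
    have hx : MemLp x 2 mu01 := memLp_of_NN hθ1 hxm (ne_top_of_le_ne_top (by simp) hN)
    refine (S.NN_T_cell hθ hθ1 hx).trans ?_
    have h1 := Good.lintegral_high_le hθ hθ1 (x := x) (z := x) hxm hB'pos (fun s => le_rfl) (fun s hs => by
      rcases hx0 s with h | h
      · exact absurd h hs
      · exact h) hN
    calc ENNReal.ofReal ((S.D : ℝ) ^ (1 - θ)) * ∫⁻ s, ENNReal.ofReal ((x s) ^ 2) ∂mu01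
        ≤ ENNReal.ofReal ((S.D : ℝ) ^ (1 - θ)) * ENNReal.ofReal ((B' ^ 2) ^ (-((1 - θ) / θ))) := by gcongr
      _ ≤ ENNReal.ofReal ε := by
          rw [← ENNReal.ofReal_mul (by positivity)]
          exact ENNReal.ofReal_le_ofReal hB'2
  · -- sup
    intro x hxm hN s hs
    have h1 : NN θ mu01 (fun s => (S.T θ x s) ^ 2) ≤ Good.CT θ := by
      apply hgood.NN_T_le_one (by linarith) _ hxm hN
      refine herr.trans ?_
      rw [← ENNReal.ofReal_one]
      exact ENNReal.ofReal_le_ofReal (by linarith)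
    have h2 := S.T_sup_le hθ h1 hs
    rw [ENNReal.ofReal_le_iff_le_toReal hMtop, ← hM] at h2
    apply abs_le_of_sq_le_sq _ (by positivity)
    nlinarith
  · -- small
    intro x hxm hN
    have hx : MemLp x 2 mu01 := memLp_of_NN hθ1 hxm (ne_top_of_le_ne_top (by simp) hN)
    refine (S.NN_T_small hθ hθ1 hx (lintegral_le_one_of_NN hθ1 hxm hN) (B := B) (by linarith)).trans ?_
    rw [hratio]
    exact ENNReal.ofReal_le_ofReal hH'2
  · -- block
    intro e f he hf hc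
    have hDpos' : (0:ℝ) < S.D := by exact_mod_cast S.hD
    have htge : ∀ i, 8 ≤ t i := fun i => hB.trans (hgood.tge i)
    have hsep : ∀ i, i + 1 < S.lam → (S.L i : ℝ) ^ (θ / 2) ≤ (1 / 20) * (S.L (i + 1) : ℝ) ^ (θ / 2) := by
      intro i hi
      have h1 := hgood.R1 i hi
      have h2 := htge (i + 1)
      have hLi := S.L_pos i
      have hLi1 := S.L_pos (i + 1)
      have hsq : ∀ y : ℝ, 0 < y → (y ^ (θ / 2)) ^ 2 = y ^ θ := by
        intro y hy
        rw [← Real.rpow_natCast (y ^ (θ / 2)), ← Real.rpow_mul hy.le]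
        congr 1; push_cast; ring
      have h3 : 0 ≤ (S.L i : ℝ) ^ θ := by positivity
      have h4 : 0 ≤ (S.L (i + 1) : ℝ) ^ θ := by positivity
      have h5 : κ ^ 2 ≤ 1 := by nlinarith
      apply le_of_sq_le_sq _ (by positivity)
      rw [mul_pow, hsq _ hLi, hsq _ hLi1]
      have h6 : 512 * (S.L i : ℝ) ^ θ ≤ 8 * (t (i + 1)) ^ 2 * (S.L i : ℝ) ^ θ := by
        have : (64:ℝ) ≤ (t (i + 1)) ^ 2 := by nlinarith
        nlinarith
      have h7 : κ ^ 2 * (S.L (i + 1) : ℝ) ^ θ ≤ (S.L (i + 1) : ℝ) ^ θ := by nlinarith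
      nlinarith
    obtain ⟨x, hxm, hxL, hxf, hxb, hxN, hxT⟩ := S.block hθ hθ1 (fun i j hij => by
        have : L (min i (lam - 1)) ≤ L (min j (lam - 1)) := hLmono _ _ (by omega)
        exact_mod_cast this) hsep (l0 := l0) (H' := H') (fun i => by
          rw [← hL0]
          exact hLmono 0 _ (Nat.zero_le _)) hSH hH'l he hf hc
    set x1 : ℝ → ℝ := fun s => if 3 * B ≤ |x s| then x s else 0 with hx1
    set x2 : ℝ → ℝ := fun s => if 3 * B ≤ |x s| then 0 else x s with hx2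
    have hset : MeasurableSet {s | 3 * B ≤ |x s|} := measurableSet_le measurable_const hxm.abs
    have hx1m : Measurable x1 := Measurable.ite hset hxm measurable_const
    have hx2m : Measurable x2 := Measurable.ite hset measurable_const hxm
    have hx1L : MemLp x1 2 mu01 := memLp_of_abs_le hxL hx1m (fun s => by
      simp only [hx1]; split_ifs <;> simp)
    have hx2L : MemLp x2 2 mu01 := memLp_of_abs_le hxL hx2m (fun s => by
      simp only [hx2]; split_ifs <;> simp)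
    have hsum : x = fun s => x1 s + x2 s := by
      ext s
      simp only [hx1, hx2]
      split_ifs <;> simp
    refine ⟨x1, hx1m, ?_, ?_, ?_, ?_, ?_⟩
    · intro s hs
      simp only [hx1]
      rw [hxf s hs]
      simp
    · intro s
      simp only [hx1]
      split_ifs with h
      · right; exact h
      · left; rfl
    · intro s
      have h1 : |x1 s| ≤ |x s| := by simp only [hx1]; split_ifs <;> simp
      have h2 : (x1 s) ^ 2 ≤ 8 * (S.D : ℝ) ^ θ := (sq_le_sq.2 h1).trans (hxb s)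
      apply abs_lt_of_sq_lt_sq _ hB'pos.le
      nlinarith
    · refine (NN_mono hθ.le (Filter.Eventually.of_forall (fun s => ?_))).trans hxN
      apply sq_le_sq.2
      simp only [hx1]; split_ifs <;> simp
    · have h1 : ∀ s, e.indicator (S.T θ x) s = e.indicator (S.T θ x1) s + e.indicator (S.T θ x2) s := by
        intro s
        by_cases hs : s ∈ e
        · simp only [indicator_of_mem hs]
          conv_lhs => rw [hsum]
          exact S.T_add hx1L hx2L s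
        · simp only [indicator_of_notMem hs, add_zero]
      simp_rw [h1] at hxT
      have h2 := NN_add_sq (μ := mu01) hθ hθ1.le (e.indicator (S.T θ x1)) (e.indicator (S.T θ x2))
      have h3 : NN θ mu01 (fun s => (e.indicator (S.T θ x2) s) ^ 2) ≤ ENNReal.ofReal (1 / 64) := by
        calc NN θ mu01 (fun s => (e.indicator (S.T θ x2) s) ^ 2) ≤ NN θ mu01 (fun s => (S.T θ x2 s) ^ 2) := by
              apply NN_mono hθ.le
              refine Filter.Eventually.of_forall (fun s => ?_)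
              by_cases hs : s ∈ e
              · rw [indicator_of_mem hs]
              · rw [indicator_of_notMem hs]; norm_num; positivity
          _ = NN θ mu01 (fun s => (3 * S.T θ (fun s => 1 / 3 * x2 s) s) ^ 2) := by
              apply NN_congr
              refine Filter.Eventually.of_forall (fun s => ?_)
              rw [S.T_smul]
              ring
          _ = ENNReal.ofReal (3 ^ 2) * NN θ mu01 (fun s => (S.T θ (fun s => 1 / 3 * x2 s) s) ^ 2) :=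
              NN_smul_sq 3 (by norm_num) _
          _ ≤ ENNReal.ofReal (3 ^ 2) * ENNReal.ofReal ε := by
              gcongr
              refine hbdd _ (hx2m.const_mul _) (Filter.Eventually.of_forall (fun s => ?_))
              simp only [hx2]
              split_ifs with h
              · rw [mul_zero, abs_zero]; linarith
              · rw [abs_mul, abs_of_pos (by norm_num : (0:ℝ) < 1 / 3)]
                have := not_le.1 h
                linarith
          _ ≤ _ := by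
              rw [← ENNReal.ofReal_mul (by norm_num)]
              exact ENNReal.ofReal_le_ofReal (by linarith)
      by_contra hcon
      push Not at hcon
      have h4 : ENNReal.ofReal (3 / 16) < ENNReal.ofReal (3 / 16) := by
        calc ENNReal.ofReal (3 / 16) ≤ _ := hxT.trans h2
          _ < 4 * ENNReal.ofReal (1 / 32) + 4 * ENNReal.ofReal (1 / 64) := by
              apply ENNReal.add_lt_add_of_lt_of_le
              · exact ENNReal.mul_ne_top (by norm_num) (ne_top_of_le_ne_top ENNReal.ofReal_ne_top h3)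
              · exact ENNReal.mul_lt_mul_right (by norm_num) (by norm_num) hcon
              · gcongr
          _ = ENNReal.ofReal (3 / 16) := by
              rw [show (4:ℝ≥0∞) = ENNReal.ofReal 4 by norm_num, ← ENNReal.ofReal_mul (by norm_num),
                ← ENNReal.ofReal_mul (by norm_num), ← ENNReal.ofReal_add (by norm_num) (by norm_num)]
              norm_num
      exact lt_irrefl _ h4

end LorentzBlocks
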