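import Pool.Agent.Lorentz.Ops

/-!
# Bounds for a stage operator
-/

open MeasureTheory Set
open scoped ENNReal NNReal

namespace LorentzBlocks

/-- A sequence with geometrically separated magnitudes. -/
lemma separated_sum (n : ℕ) (b α : ℕ → ℝ) (hα : ∀ i, 0 ≤ α i)
    (h1 : ∀ i, i < n → b i = 0 ∨ α i < |b i|)
    (h2 : ∀ i, i + 1 < n → |b (i + 1)| ≤ α i / 2)
    (h3 : ∀ i, i + 1 < n → α (i + 1) ≤ α i / 2) :
    (∑ i ∈ Finset.range n, b i = 0) ∨ ∃ j < n, (∑ i ∈ Finset.range n, b i) ^ 2 ≤ 4 * (b j) ^ 2 := by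
  have tail : ∀ k m, m + 1 + k = n → ∑ i ∈ Finset.Ico (m + 1) n, |b i| ≤ α m := by
    intro k
    induction k with
    | zero =>
      intro m hm
      rw [Finset.Ico_eq_empty (by omega), Finset.sum_empty]
      exact hα m
    | succ k ih =>
      intro m hm
      rw [Finset.sum_eq_sum_Ico_succ_bot (by omega)]
      have e1 := ih (m + 1) (by omega)
      have e2 := h2 m (by omega)
      have e3 := h3 m (by omega)
      linarith
  by_cases hall : ∀ i, i < n → b i = 0
  · left
    exact Finset.sum_eq_zero (fun i hi => hall i (Finset.mem_range.1 hi))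
  · right
    push Not at hall
    classical
    have hex : ∃ j, j < n ∧ b j ≠ 0 := hall
    set j := Nat.find hex with hj
    obtain ⟨hjn, hbj⟩ := Nat.find_spec hex
    rw [← hj] at hjn hbj
    have hmin : ∀ i, i < j → b i = 0 := by
      intro i hi
      by_contra hcon
      exact Nat.find_min hex hi ⟨by omega, hcon⟩
    refine ⟨j, hjn, ?_⟩
    have hsplit : ∑ i ∈ Finset.range n, b i = b j + ∑ i ∈ Finset.Ico (j + 1) n, b i := by
      rw [Finset.range_eq_Ico, ← Finset.sum_Ico_consecutive _ (Nat.zero_le j) hjn.le,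
        Finset.sum_eq_sum_Ico_succ_bot hjn]
      have : ∑ i ∈ Finset.Ico 0 j, b i = 0 :=
        Finset.sum_eq_zero (fun i hi => hmin i (Finset.mem_Ico.1 hi).2)
      rw [this, zero_add]
    have ht := tail (n - (j + 1)) j (by omega)
    have hbig : α j < |b j| := by
      rcases h1 j hjn with h | h
      · exact absurd h hbj
      · exact h
    have habs : |∑ i ∈ Finset.range n, b i| ≤ 2 * |b j| := by
      rw [hsplit]
      calc |b j + ∑ i ∈ Finset.Ico (j + 1) n, b i| ≤ |b j| + |∑ i ∈ Finset.Ico (j + 1) n, b i| := abs_add_le _ _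
        _ ≤ |b j| + ∑ i ∈ Finset.Ico (j + 1) n, |b i| := by gcongr; exact Finset.abs_sum_le_sum_abs _ _
        _ ≤ 2 * |b j| := by linarith
    calc (∑ i ∈ Finset.range n, b i) ^ 2 = |∑ i ∈ Finset.range n, b i| ^ 2 := (sq_abs _).symm
      _ ≤ (2 * |b j|) ^ 2 := by gcongr
      _ = 4 * (b j) ^ 2 := by rw [mul_pow, sq_abs]; ring

/-- all the inequalities between the parameters of a stage needed for the upper bounds -/
structure Good (S : Stage) (θ B κ ε : ℝ) (t : ℕ → ℝ) : Prop where
  hθ : 0 < θ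
  hθ1 : θ < 1
  hB : 1 ≤ B
  hκ : 0 < κ
  hκ1 : κ ≤ 1
  hε : 0 < ε
  t0 : t 0 = B
  tmono : ∀ i, 2 * t i ≤ t (i + 1)
  R1 : ∀ i, i + 1 < S.lam → 8 * (t (i + 1)) ^ 2 * (S.L i : ℝ) ^ θ ≤ κ ^ 2 * (S.L (i + 1) : ℝ) ^ θ
  R2 : ∀ i, i < S.lam → 4 ^ (i + 1) * (S.L i : ℝ) ^ (1 - θ) * ((t (i + 1)) ^ 2) ^ (-((1 - θ) / θ))
        ≤ ε * (1 / 2) ^ (i + 1)

namespace Good

variable {S : Stage} {θ B κ ε : ℝ} {t : ℕ → ℝ}

lemma tge (h : Good S θ B κ ε t) (i : ℕ) : B ≤ t i := by
  induction i with
  | zero => rw [h.t0]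
  | succ i ih => have := h.tmono i; have := h.hB; linarith

lemma tpos (h : Good S θ B κ ε t) (i : ℕ) : 1 ≤ t i := h.hB.trans (h.tge i)

/-- error constant -/
noncomputable def errK (θ B κ : ℝ) : ℝ := (κ ^ 2) ^ (1 - θ) * (B ^ 2) ^ θ / (1 - θ)

/-- low truncation -/
noncomputable def low (t : ℕ → ℝ) (x : ℝ → ℝ) (i : ℕ) (s : ℝ) : ℝ := if |x s| < t i then x s else 0

noncomputable def mid (t : ℕ → ℝ) (x : ℝ → ℝ) (i : ℕ) (s : ℝ) : ℝ :=
  if t i ≤ |x s| ∧ |x s| < t (i + 1) then x s else 0

noncomputable def high (t : ℕ → ℝ) (x : ℝ → ℝ) (i : ℕ) (s : ℝ) : ℝ :=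
  if t (i + 1) ≤ |x s| then x s else 0

lemma low_measurable {x : ℝ → ℝ} (hx : Measurable x) (i : ℕ) : Measurable (low t x i) :=
  Measurable.ite (measurableSet_lt hx.abs measurable_const) hx measurable_const

lemma mid_measurable {x : ℝ → ℝ} (hx : Measurable x) (i : ℕ) : Measurable (mid t x i) :=
  Measurable.ite ((measurableSet_le measurable_const hx.abs).inter
    (measurableSet_lt hx.abs measurable_const)) hx measurable_const

lemma high_measurable {x : ℝ → ℝ} (hx : Measurable x) (i : ℕ) : Measurable (high t x i) :=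
  Measurable.ite (measurableSet_le measurable_const hx.abs) hx measurable_const

lemma abs_low_le (x : ℝ → ℝ) (i : ℕ) (s : ℝ) : |low t x i s| ≤ |x s| := by
  unfold low; split_ifs <;> simp

lemma abs_mid_le (x : ℝ → ℝ) (i : ℕ) (s : ℝ) : |mid t x i s| ≤ |x s| := by
  unfold mid; split_ifs <;> simp

lemma abs_high_le (x : ℝ → ℝ) (i : ℕ) (s : ℝ) : |high t x i s| ≤ |x s| := by
  unfold high; split_ifs <;> simp

lemma sq_le_of_abs {a b : ℝ} (h : |a| ≤ |b|) : a ^ 2 ≤ b ^ 2 := sq_le_sq.2 h

lemma decomp (h : Good S θ B κ ε t) (x : ℝ → ℝ) (i : ℕ) (s : ℝ) :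
    x s = low t x i s + (mid t x i s + high t x i s) := by
  have h1 := h.tmono i
  have h2 := h.tpos i
  unfold low mid high
  by_cases ha : |x s| < t i
  · rw [if_pos ha, if_neg (by intro hc; linarith [hc.1]), if_neg (by intro hc; linarith)]
    ring
  · by_cases hb : |x s| < t (i + 1)
    · rw [if_neg ha, if_pos ⟨not_lt.1 ha, hb⟩, if_neg (not_le.2 hb)]
      ring
    · rw [if_neg ha, if_neg (fun hc => hb hc.2), if_pos (not_lt.1 hb)]
      ring

/-- main bound for the low parts -/
lemma NN_lowpart (h : Good S θ B κ ε t) {x : ℝ → ℝ} (hxm : Measurable x) (hx : MemLp x 2 mu01)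
    (hxB : ∫⁻ s, ENNReal.ofReal ((x s) ^ 2) ∂mu01 ≤ ENNReal.ofReal (B ^ 2)) :
    NN θ mu01 (fun s => (1 / Real.sqrt S.lam * ∑ i ∈ Finset.range S.lam, S.op θ i (low t x i) s) ^ 2) ≤
      16 * (ENNReal.ofReal (1 / S.lam) *
        ∑ i ∈ Finset.range S.lam, NN θ mu01 (fun s => (S.op θ i (low t x i) s) ^ 2)) +
      4 * (∑ i ∈ Finset.range S.lam, ENNReal.ofReal (4 ^ (i + 1)) * ENNReal.ofReal (errK θ B κ)) := by
  have hθ := h.hθ
  have hθ1 := h.hθ1
  have hlam : (0:ℝ) < S.lam := by exact_mod_cast S.hlam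
  have hH := S.H_pos
  set G : ℕ → ℝ → ℝ := fun i s => S.op θ i (low t x i) s with hG
  have hGm : ∀ i, Measurable (G i) := fun i => S.op_measurable _ i
  -- thresholds
  set a2 : ℕ → ℝ := fun i => κ ^ 2 * ((S.H : ℝ) / S.L i) ^ θ with ha2
  have ha2pos : ∀ i, 0 < a2 i := by
    intro i
    have := h.hκ
    have := S.L_pos i
    simp only [ha2]
    positivity
  set big : ℕ → ℝ → ℝ := fun i s => if a2 i < (G i s) ^ 2 then G i s else 0 with hbig
  set small : ℕ → ℝ → ℝ := fun i s => if a2 i < (G i s) ^ 2 then 0 else G i s with hsmall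
  have hGsplit : ∀ i s, G i s = big i s + small i s := by
    intro i s; simp only [hbig, hsmall]; split_ifs <;> simp
  have hlowL : ∀ i, MemLp (low t x i) 2 mu01 := fun i =>
    memLp_of_abs_le hx (low_measurable hxm i) (abs_low_le x i)
  -- sup bounds
  have hGsup : ∀ i s, (G i s) ^ 2 ≤ 2 * ((S.H : ℝ) / S.L i) ^ θ * (t i) ^ 2 := by
    intro i s
    apply S.op_sup (hlowL i)
    refine Filter.Eventually.of_forall (fun s => ?_)
    unfold low
    split_ifs with hc
    · exact hc.le
    · simp; linarith [h.tpos i]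
  have hstep : ∀ i, i + 1 < S.lam → 2 * ((S.H : ℝ) / S.L (i+1)) ^ θ * (t (i+1)) ^ 2 ≤ a2 i / 4 := by
    intro i hi
    have h1 := h.R1 i hi
    have hL1 := S.L_pos i
    have hL2 := S.L_pos (i + 1)
    simp only [ha2]
    rw [Real.div_rpow hH.le hL1.le, Real.div_rpow hH.le hL2.le]
    have hp1 : 0 < (S.L i : ℝ) ^ θ := by positivity
    have hp2 : 0 < (S.L (i+1) : ℝ) ^ θ := by positivity
    have hp3 : 0 < (S.H : ℝ) ^ θ := by positivity
    rw [show 2 * ((S.H : ℝ) ^ θ / (S.L (i+1) : ℝ) ^ θ) * (t (i+1)) ^ 2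
        = (2 * (S.H : ℝ) ^ θ * (t (i+1)) ^ 2) / (S.L (i+1) : ℝ) ^ θ by ring,
      show κ ^ 2 * ((S.H : ℝ) ^ θ / (S.L i : ℝ) ^ θ) / 4
        = (κ ^ 2 * (S.H : ℝ) ^ θ) / (4 * (S.L i : ℝ) ^ θ) by ring,
      div_le_div_iff₀ hp2 (by positivity)]
    nlinarith
  have ha2dec : ∀ i, i + 1 < S.lam → a2 (i + 1) ≤ a2 i / 4 := by
    intro i hi
    refine le_trans ?_ (hstep i hi)
    simp only [ha2]
    have h1 := h.tpos (i + 1)
    have h2 := h.hκ1
    have h3 := h.hκ
    have hL2 := S.L_pos (i + 1)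
    have hp : 0 < ((S.H : ℝ) / S.L (i+1)) ^ θ := by positivity
    have h4 : κ ^ 2 ≤ 1 := by nlinarith
    have h5 : 1 ≤ (t (i+1)) ^ 2 := by nlinarith
    nlinarith
  -- pointwise bound for the sum of big parts
  have hsqrt4 : ∀ y : ℝ, 0 ≤ y → Real.sqrt (y / 4) = Real.sqrt y / 2 := by
    intro y hy
    rw [Real.sqrt_div hy]
    congr 1
    rw [show (4:ℝ) = 2 ^ 2 by norm_num, Real.sqrt_sq (by norm_num)]
  have hsep : ∀ s, (∑ i ∈ Finset.range S.lam, big i s = 0) ∨
      ∃ j < S.lam, (∑ i ∈ Finset.range S.lam, big i s) ^ 2 ≤ 4 * (big j s) ^ 2 := by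
    intro s
    apply separated_sum S.lam (fun i => big i s) (fun i => Real.sqrt (a2 i)) (fun i => Real.sqrt_nonneg _)
    · intro i _
      simp only [hbig]
      split_ifs with hc
      · right
        rw [Real.sqrt_lt' (by
          rw [abs_pos]
          intro h0
          rw [h0] at hc
          have := ha2pos i
          norm_num at hc
          linarith)]
        rwa [sq_abs]
      · left; rfl
    · intro i hi
      have h1 : |big (i+1) s| ≤ |G (i+1) s| := by
        simp only [hbig]; split_ifs <;> simp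
      have h2 : |G (i+1) s| ≤ Real.sqrt (a2 i / 4) := by
        apply Real.le_sqrt_of_sq_le
        rw [sq_abs]
        exact (hGsup (i+1) s).trans (hstep i hi)
      rw [hsqrt4 _ (ha2pos i).le] at h2
      exact h1.trans h2
    · intro i hi
      have h2 : Real.sqrt (a2 (i+1)) ≤ Real.sqrt (a2 i / 4) := Real.sqrt_le_sqrt (ha2dec i hi)
      rwa [hsqrt4 _ (ha2pos i).le] at h2
  -- big part
  have hbigN : NN θ mu01 (fun s => (1 / Real.sqrt S.lam * ∑ i ∈ Finset.range S.lam, big i s) ^ 2) ≤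
      4 * (ENNReal.ofReal (1 / S.lam) * ∑ i ∈ Finset.range S.lam, NN θ mu01 (fun s => (G i s) ^ 2)) := by
    have h1 := NN_le_tsum (μ := mu01) (ι := Fin S.lam) hθ hθ1.le
      (f := fun s => (1 / Real.sqrt S.lam * ∑ i ∈ Finset.range S.lam, big i s) ^ 2)
      (g := fun i s => 4 * (1 / S.lam) * (G i s) ^ 2) (by
        refine Filter.Eventually.of_forall (fun s r hr hrs => ?_)
        have hsq : (1 / Real.sqrt S.lam * ∑ i ∈ Finset.range S.lam, big i s) ^ 2
            = 1 / S.lam * (∑ i ∈ Finset.range S.lam, big i s) ^ 2 := by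
          rw [mul_pow, div_pow, one_pow, Real.sq_sqrt hlam.le]
        rcases hsep s with h0 | ⟨j, hj, hjs⟩
        · rw [h0] at hrs
          norm_num at hrs
          linarith
        · refine ⟨⟨j, hj⟩, lt_of_lt_of_le hrs ?_⟩
          rw [hsq]
          have hbG : (big j s) ^ 2 ≤ (G j s) ^ 2 := by
            simp only [hbig]
            split_ifs
            · exact le_rfl
            · nlinarith [sq_nonneg (G j s)]
          have hl : (0:ℝ) < 1 / S.lam := by positivity
          calc 1 / (S.lam:ℝ) * (∑ i ∈ Finset.range S.lam, big i s) ^ 2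
              ≤ 1 / (S.lam:ℝ) * (4 * (big j s) ^ 2) := by gcongr
            _ ≤ 1 / (S.lam:ℝ) * (4 * (G j s) ^ 2) := by gcongr
            _ = 4 * (1 / S.lam) * (G j s) ^ 2 := by ring)
    refine h1.trans (le_of_eq ?_)
    rw [tsum_fintype]
    have h2 : ∀ i : Fin S.lam, NN θ mu01 (fun s => 4 * (1 / S.lam) * (G i s) ^ 2)
        = ENNReal.ofReal (4 * (1 / S.lam)) * NN θ mu01 (fun s => (G i s) ^ 2) := fun i =>
      NN_const_mul (by positivity) _
    simp_rw [h2]
    rw [← Finset.mul_sum, ENNReal.ofReal_mul (by norm_num), ENNReal.ofReal_ofNat, mul_assoc]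
    congr 2
    rw [Finset.sum_range (fun i => NN θ mu01 (fun s => (G i s) ^ 2))]
  -- small part
  have hsmallN : NN θ mu01 (fun s => (1 / Real.sqrt S.lam * ∑ i ∈ Finset.range S.lam, small i s) ^ 2) ≤
      ∑ i ∈ Finset.range S.lam, ENNReal.ofReal (4 ^ (i + 1)) * ENNReal.ofReal (errK θ B κ) := by
    calc NN θ mu01 (fun s => (1 / Real.sqrt S.lam * ∑ i ∈ Finset.range S.lam, small i s) ^ 2)
        ≤ NN θ mu01 (fun s => (∑ i ∈ Finset.range S.lam, small i s) ^ 2) := by
          apply NN_mono hθ.le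
          refine Filter.Eventually.of_forall (fun s => ?_)
          rw [mul_pow, div_pow, one_pow, Real.sq_sqrt hlam.le]
          have h1 : 1 / (S.lam : ℝ) ≤ 1 := by
            rw [div_le_one hlam]
            exact_mod_cast S.hlam
          exact mul_le_of_le_one_left (sq_nonneg _) h1
      _ ≤ ∑ i ∈ Finset.range S.lam, ENNReal.ofReal (4 ^ (i + 1)) * NN θ mu01 (fun s => (small i s) ^ 2) :=
          NN_sum_sq hθ hθ1.le small S.lam
      _ ≤ _ := by
          apply Finset.sum_le_sum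
          intro i _
          gcongr
          have h1 := NN_low (μ := mu01) hθ hθ1 (f := fun s => (G i s) ^ 2) (g := fun s => (small i s) ^ 2)
            ((hGm i).pow_const 2).aemeasurable (v := a2 i) (ha2pos i)
            (Filter.Eventually.of_forall (fun s => by
              simp only [hsmall]
              split_ifs with hc
              · norm_num; exact (ha2pos i).le
              · exact not_lt.1 hc))
            (Filter.Eventually.of_forall (fun s => by
              simp only [hsmall]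
              split_ifs with hc
              · nlinarith [sq_nonneg (G i s)]
              · exact le_rfl))
          refine h1.trans ?_
          have h2 : ∫⁻ s, ENNReal.ofReal ((G i s) ^ 2) ∂mu01 ≤
              ENNReal.ofReal (((S.L i : ℝ) / S.H) ^ (1 - θ) * B ^ 2) := by
            refine (S.lintegral_op_sq_le (hlowL i) i).trans ?_
            rw [ENNReal.ofReal_mul (by positivity)]
            gcongr
            refine le_trans (lintegral_mono (fun s => ?_)) hxB
            exact ENNReal.ofReal_le_ofReal (sq_le_of_abs (abs_low_le x i s))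
          have hL := S.L_pos i
          have h1θ : 0 < 1 - θ := by linarith
          have hBpos : 0 < B := by linarith [h.hB]
          have hκ := h.hκ
          calc ENNReal.ofReal ((a2 i) ^ (1 - θ) / (1 - θ)) * (∫⁻ s, ENNReal.ofReal ((G i s) ^ 2) ∂mu01) ^ θ
              ≤ ENNReal.ofReal ((a2 i) ^ (1 - θ) / (1 - θ)) *
                  (ENNReal.ofReal (((S.L i : ℝ) / S.H) ^ (1 - θ) * B ^ 2)) ^ θ := by gcongr
            _ = ENNReal.ofReal (errK θ B κ) := by
                rw [ENNReal.ofReal_rpow_of_pos (by positivity), ← ENNReal.ofReal_mul (by positivity)]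
                congr 1
                unfold errK
                simp only [ha2]
                rw [Real.mul_rpow (by positivity) (by positivity), Real.mul_rpow (by positivity) (by positivity),
                  ← Real.rpow_mul (by positivity), ← Real.rpow_mul (by positivity)]
                have h3 : ((S.H : ℝ) / S.L i) ^ (θ * (1 - θ)) * ((S.L i : ℝ) / S.H) ^ ((1 - θ) * θ) = 1 := by
                  rw [mul_comm θ, ← Real.mul_rpow (by positivity) (by positivity)]
                  have : (S.H : ℝ) / S.L i * ((S.L i : ℝ) / S.H) = 1 := by field_simp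
                  rw [this, Real.one_rpow]
                calc (κ ^ 2) ^ (1 - θ) * ((S.H : ℝ) / S.L i) ^ (θ * (1 - θ)) / (1 - θ) *
                      (((S.L i : ℝ) / S.H) ^ ((1 - θ) * θ) * (B ^ 2) ^ θ)
                    = (κ ^ 2) ^ (1 - θ) * (((S.H : ℝ) / S.L i) ^ (θ * (1 - θ)) *
                        ((S.L i : ℝ) / S.H) ^ ((1 - θ) * θ)) * (B ^ 2) ^ θ / (1 - θ) := by ring
                  _ = _ := by rw [h3]; ring
  -- combine
  have hcomb := NN_add_sq (μ := mu01) hθ hθ1.le
    (fun s => 1 / Real.sqrt S.lam * ∑ i ∈ Finset.range S.lam, big i s)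
    (fun s => 1 / Real.sqrt S.lam * ∑ i ∈ Finset.range S.lam, small i s)
  have heq : (fun s => (1 / Real.sqrt S.lam * ∑ i ∈ Finset.range S.lam, S.op θ i (low t x i) s) ^ 2)
      = fun s => (1 / Real.sqrt S.lam * ∑ i ∈ Finset.range S.lam, big i s +
        1 / Real.sqrt S.lam * ∑ i ∈ Finset.range S.lam, small i s) ^ 2 := by
    ext s
    congr 1
    rw [← mul_add, ← Finset.sum_add_distrib]
    congr 1
    apply Finset.sum_congr rfl
    intro i _
    exact hGsplit i s
  rw [heq]
  refine hcomb.trans ?_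
  calc 4 * NN θ mu01 (fun s => (1 / Real.sqrt S.lam * ∑ i ∈ Finset.range S.lam, big i s) ^ 2) +
        4 * NN θ mu01 (fun s => (1 / Real.sqrt S.lam * ∑ i ∈ Finset.range S.lam, small i s) ^ 2)
      ≤ 4 * (4 * (ENNReal.ofReal (1 / S.lam) * ∑ i ∈ Finset.range S.lam, NN θ mu01 (fun s => (G i s) ^ 2))) +
        4 * (∑ i ∈ Finset.range S.lam, ENNReal.ofReal (4 ^ (i + 1)) * ENNReal.ofReal (errK θ B κ)) := by
          gcongr
    _ = _ := by
        rw [← mul_assoc 4 4, show (4 * 4 : ℝ≥0∞) = 16 by norm_num]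

/-- bound for the own-band parts -/
lemma NN_midpart (h : Good S θ B κ ε t) {x : ℝ → ℝ} (hxm : Measurable x) (hx : MemLp x 2 mu01) :
    NN θ mu01 (fun s => (1 / Real.sqrt S.lam * ∑ i ∈ Finset.range S.lam, S.op θ i (mid t x i) s) ^ 2) ≤
      ENNReal.ofReal (1 / θ) * CM θ * (3 * NN θ mu01 (fun s => (x s) ^ 2)) := by
  have hθ := h.hθ
  have hθ1 := h.hθ1
  have hmidL : ∀ i, MemLp (mid t x i) 2 mu01 := fun i =>
    memLp_of_abs_le hx (mid_measurable hxm i) (abs_mid_le x i)
  calc NN θ mu01 (fun s => (1 / Real.sqrt S.lam * ∑ i ∈ Finset.range S.lam, S.op θ i (mid t x i) s) ^ 2)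
      ≤ NN θ mu01 (fun s => ∑ i ∈ Finset.range S.lam, (S.op θ i (mid t x i) s) ^ 2) := by
        apply NN_mono hθ.le
        exact Filter.Eventually.of_forall (fun s => S.avg_sq_le _)
    _ ≤ ENNReal.ofReal (1 / θ) * ∑ i ∈ Finset.range S.lam, NN θ mu01 (fun s => (S.op θ i (mid t x i) s) ^ 2) :=
        NN_sum_le hθ hθ1 _ (fun i _ => (S.op_measurable _ i).pow_const 2) (fun i _ s => sq_nonneg _)
    _ ≤ ENNReal.ofReal (1 / θ) * ∑ i ∈ Finset.range S.lam, CM θ * NN θ mu01 (fun s => (mid t x i s) ^ 2) := by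
        gcongr with i _
        exact S.NN_op_le hθ hθ1 (mid_measurable hxm i) (hmidL i) i
    _ = ENNReal.ofReal (1 / θ) * CM θ * ∑ i ∈ Finset.range S.lam, NN θ mu01 (fun s => (mid t x i s) ^ 2) := by
        rw [← Finset.mul_sum, mul_assoc]
    _ ≤ ENNReal.ofReal (1 / θ) * CM θ * ∑' i, NN θ mu01 (fun s => (mid t x i s) ^ 2) := by
        gcongr
        exact ENNReal.sum_le_tsum _
    _ ≤ ENNReal.ofReal (1 / θ) * CM θ * (3 * NN θ mu01 (fun s => (x s) ^ 2)) := by
        gcongr
        apply NN_bands hθ (b := fun i => (t i) ^ 2)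
        · have := h.tpos 0; positivity
        · intro n
          have h1 := h.tmono n
          have h2 := h.tpos n
          change 2 * (t n) ^ 2 ≤ (t (n + 1)) ^ 2
          nlinarith
        · intro n
          exact Filter.Eventually.of_forall (fun s => sq_le_of_abs (abs_mid_le x n s))
        · intro n
          refine Filter.Eventually.of_forall (fun s hs => ?_)
          unfold mid at hs
          split_ifs at hs with hc
          · have h2 := h.tpos n
            rw [← sq_abs (x s)]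
            exact pow_le_pow_left₀ (by linarith) hc.1 2
          · norm_num at hs
        · intro n
          refine Filter.Eventually.of_forall (fun s => ?_)
          unfold mid
          split_ifs with hc
          · rw [← sq_abs (x s)]
            exact pow_le_pow_left₀ (abs_nonneg _) hc.2.le 2
          · norm_num
            positivity

/-- cell bound -/
lemma NN_op_cell (hθ : 0 < θ) (hθ1 : θ < 1) {x : ℝ → ℝ} (hx : MemLp x 2 mu01) (i : ℕ) :
    NN θ mu01 (fun s => (S.op θ i x s) ^ 2) ≤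
      ENNReal.ofReal ((S.L i : ℝ) ^ (1 - θ)) * ∫⁻ s, ENNReal.ofReal ((x s) ^ 2) ∂mu01 := by
  have hH := S.H_pos
  have hL := S.L_pos i
  have h1 := NN_cell (μ := mu01) (θ := θ) hθ1.le (f := fun s => (S.op θ i x s) ^ 2)
    (Filter.Eventually.of_forall (fun s => sq_nonneg _)) ((S.op_measurable x i).pow_const 2).aemeasurable
    (h := ENNReal.ofReal (1 / S.H)) (fun s _ => by
      have := step_level S.hH (fun k => ((S.H : ℝ) ^ (θ / 2) * (S.L i : ℝ) ^ ((1 - θ) / 2) * S.coef x i k) ^ 2) s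
      exact this) hθ
  refine h1.trans ?_
  calc ENNReal.ofReal (1 / S.H) ^ (θ - 1) * ∫⁻ s, ENNReal.ofReal ((S.op θ i x s) ^ 2) ∂mu01
      ≤ ENNReal.ofReal (1 / S.H) ^ (θ - 1) * (ENNReal.ofReal (((S.L i : ℝ) / S.H) ^ (1 - θ)) *
          ∫⁻ s, ENNReal.ofReal ((x s) ^ 2) ∂mu01) := by
        gcongr
        exact S.lintegral_op_sq_le hx i
    _ = _ := by
        rw [← mul_assoc, ENNReal.ofReal_rpow_of_pos (by positivity), ← ENNReal.ofReal_mul (by positivity)]
        congr 2
        rw [Real.div_rpow hL.le hH.le, one_div, Real.inv_rpow hH.le, ← Real.rpow_neg hH.le]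
        have : -(θ - 1) = 1 - θ := by ring
        rw [this]
        field_simp

/-- `L²` mass of a high truncation -/
lemma lintegral_high_le (hθ : 0 < θ) (hθ1 : θ < 1) {x z : ℝ → ℝ} (hz : Measurable z)
    {v : ℝ} (hv : 0 < v) (hzx : ∀ s, |z s| ≤ |x s|) (hzv : ∀ s, z s ≠ 0 → v ≤ |x s|)
    (hN : NN θ mu01 (fun s => (x s) ^ 2) ≤ 1) :
    ∫⁻ s, ENNReal.ofReal ((z s) ^ 2) ∂mu01 ≤ ENNReal.ofReal ((v ^ 2) ^ (-((1 - θ) / θ))) := by
  have h1θ : 0 < 1 - θ := by linarith
  have h1 := lintegral_high (μ := mu01) hθ hθ1.le (f := fun s => (x s) ^ 2) (g := fun s => (z s) ^ 2)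
    (hz.pow_const 2).aemeasurable (Filter.Eventually.of_forall (fun s => sq_nonneg _)) (v := v ^ 2)
    (Filter.Eventually.of_forall (fun s hs => by
      have : z s ≠ 0 := by
        intro h0
        rw [h0] at hs
        norm_num at hs
      rw [← sq_abs (x s)]
      exact pow_le_pow_left₀ hv.le (hzv s this) 2))
    (Filter.Eventually.of_forall (fun s => sq_le_of_abs (hzx s)))
  have h2 := meas_ge_le_of_NN (μ := mu01) hθ (f := fun s => (x s) ^ 2) (v := v ^ 2) (by positivity)
  calc ∫⁻ s, ENNReal.ofReal ((z s) ^ 2) ∂mu01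
      ≤ (mu01 {a | v ^ 2 ≤ (x a) ^ 2}) ^ (1 - θ) * NN θ mu01 (fun s => (x s) ^ 2) := h1
    _ ≤ ((NN θ mu01 (fun s => (x s) ^ 2) / ENNReal.ofReal (v ^ 2)) ^ (1 / θ)) ^ (1 - θ) * 1 :=
        mul_le_mul' (ENNReal.rpow_le_rpow h2 h1θ.le) hN
    _ ≤ ((1 / ENNReal.ofReal (v ^ 2)) ^ (1 / θ)) ^ (1 - θ) * 1 := by gcongr
    _ = ENNReal.ofReal ((v ^ 2) ^ (-((1 - θ) / θ))) := by
        rw [mul_one, ← ENNReal.rpow_mul, one_div (ENNReal.ofReal (v ^ 2)), ← ENNReal.ofReal_inv_of_pos (by positivity),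
          ENNReal.ofReal_rpow_of_pos (by positivity), Real.inv_rpow (by positivity), ← Real.rpow_neg (by positivity)]
        congr 2
        field_simp

/-- bound for the high parts -/
lemma NN_highpart (h : Good S θ B κ ε t) {x : ℝ → ℝ} (hxm : Measurable x) (hx : MemLp x 2 mu01)
    (hN : NN θ mu01 (fun s => (x s) ^ 2) ≤ 1) :
    NN θ mu01 (fun s => (1 / Real.sqrt S.lam * ∑ i ∈ Finset.range S.lam, S.op θ i (high t x i) s) ^ 2) ≤
      ENNReal.ofReal ε := by
  have hθ := h.hθ
  have hθ1 := h.hθ1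
  have hlam : (0:ℝ) < S.lam := by exact_mod_cast S.hlam
  have hhighL : ∀ i, MemLp (high t x i) 2 mu01 := fun i =>
    memLp_of_abs_le hx (high_measurable hxm i) (abs_high_le x i)
  calc NN θ mu01 (fun s => (1 / Real.sqrt S.lam * ∑ i ∈ Finset.range S.lam, S.op θ i (high t x i) s) ^ 2)
      ≤ NN θ mu01 (fun s => (∑ i ∈ Finset.range S.lam, S.op θ i (high t x i) s) ^ 2) := by
        apply NN_mono hθ.le
        refine Filter.Eventually.of_forall (fun s => ?_)
        rw [mul_pow, div_pow, one_pow, Real.sq_sqrt hlam.le]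
        have h1 : 1 / (S.lam : ℝ) ≤ 1 := by
          rw [div_le_one hlam]
          exact_mod_cast S.hlam
        exact mul_le_of_le_one_left (sq_nonneg _) h1
    _ ≤ ∑ i ∈ Finset.range S.lam, ENNReal.ofReal (4 ^ (i + 1)) *
          NN θ mu01 (fun s => (S.op θ i (high t x i) s) ^ 2) := NN_sum_sq hθ hθ1.le _ S.lam
    _ ≤ ∑ i ∈ Finset.range S.lam, ENNReal.ofReal (ε * (1 / 2) ^ (i + 1)) := by
        apply Finset.sum_le_sum
        intro i hi
        have hi' := Finset.mem_range.1 hi
        have hL := S.L_pos i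
        have ht := h.tpos (i + 1)
        refine le_trans ?_ (ENNReal.ofReal_le_ofReal (h.R2 i hi'))
        rw [mul_assoc, ENNReal.ofReal_mul (by positivity), ENNReal.ofReal_mul (by positivity)]
        gcongr
        refine (NN_op_cell hθ hθ1 (hhighL i) i).trans ?_
        gcongr
        apply lintegral_high_le hθ hθ1 (high_measurable hxm i) (by linarith) (abs_high_le x i) _ hN
        intro s hs
        unfold high at hs
        split_ifs at hs with hc
        · exact hc
        · exact absurd rfl hs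
    _ = ENNReal.ofReal (∑ i ∈ Finset.range S.lam, ε * (1 / 2) ^ (i + 1)) := by
        rw [ENNReal.ofReal_sum_of_nonneg]
        intro i _
        have := h.hε
        positivity
    _ ≤ ENNReal.ofReal ε := by
        apply ENNReal.ofReal_le_ofReal
        rw [← Finset.mul_sum]
        have h1 : ∑ i ∈ Finset.range S.lam, (1 / 2 : ℝ) ^ (i + 1) ≤ 1 := by
          have h2 : ∑ i ∈ Finset.range S.lam, (1 / 2 : ℝ) ^ (i + 1) = 1 - (1/2) ^ S.lam := by
            have := geom_sum_eq (show (1/2:ℝ) ≠ 1 by norm_num) S.lam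
            simp_rw [pow_succ]
            rw [← Finset.sum_mul, this]
            ring
          rw [h2]
          have : (0:ℝ) ≤ (1/2) ^ S.lam := by positivity
          linarith
        exact mul_le_of_le_one_right h.hε.le h1

/-- the uniform constant -/
noncomputable def CT (θ : ℝ) : ℝ≥0∞ := 64 * CM θ + 48 * (ENNReal.ofReal (1 / θ) * CM θ) + 32

lemma CT_ne_top (hθ1 : θ < 1) : CT θ ≠ ∞ := by
  unfold CT
  have := CM_ne_top hθ1
  finiteness

/-- (T3) normalized -/
lemma NN_T_le_one (h : Good S θ B κ ε t) (hε1 : ε ≤ 1)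
    (herr : ∑ i ∈ Finset.range S.lam, ENNReal.ofReal (4 ^ (i + 1)) * ENNReal.ofReal (errK θ B κ) ≤ 1)
    {x : ℝ → ℝ} (hxm : Measurable x)
    (hN : NN θ mu01 (fun s => (x s) ^ 2) ≤ 1) :
    NN θ mu01 (fun s => (S.T θ x s) ^ 2) ≤ CT θ := by
  have hθ := h.hθ
  have hθ1 := h.hθ1
  have hlam : (0:ℝ) < S.lam := by exact_mod_cast S.hlam
  have hx1 : ∫⁻ s, ENNReal.ofReal ((x s) ^ 2) ∂mu01 ≤ 1 :=
    (lintegral_le_NN hθ1.le (Filter.Eventually.of_forall (fun s => sq_nonneg _))
      (hxm.pow_const 2).aemeasurable).trans hN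
  have hx : MemLp x 2 mu01 := memLp_of_lintegral_sq hxm (ne_top_of_le_ne_top (by simp) hx1)
  have hxB : ∫⁻ s, ENNReal.ofReal ((x s) ^ 2) ∂mu01 ≤ ENNReal.ofReal (B ^ 2) := by
    refine hx1.trans ?_
    rw [← ENNReal.ofReal_one]
    apply ENNReal.ofReal_le_ofReal
    nlinarith [h.hB]
  have hlowL : ∀ i, MemLp (low t x i) 2 mu01 := fun i =>
    memLp_of_abs_le hx (low_measurable hxm i) (abs_low_le x i)
  have hmidL : ∀ i, MemLp (mid t x i) 2 mu01 := fun i =>
    memLp_of_abs_le hx (mid_measurable hxm i) (abs_mid_le x i)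
  have hhighL : ∀ i, MemLp (high t x i) 2 mu01 := fun i =>
    memLp_of_abs_le hx (high_measurable hxm i) (abs_high_le x i)
  have hT : ∀ s, S.T θ x s =
      1 / Real.sqrt S.lam * ∑ i ∈ Finset.range S.lam, S.op θ i (low t x i) s +
      (1 / Real.sqrt S.lam * ∑ i ∈ Finset.range S.lam, S.op θ i (mid t x i) s +
       1 / Real.sqrt S.lam * ∑ i ∈ Finset.range S.lam, S.op θ i (high t x i) s) := by
    intro s
    unfold Stage.T
    rw [← mul_add, ← mul_add, ← Finset.sum_add_distrib, ← Finset.sum_add_distrib]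
    congr 1
    apply Finset.sum_congr rfl
    intro i _
    have hmh : MemLp (fun s => mid t x i s + high t x i s) 2 mu01 := (hmidL i).add (hhighL i)
    rw [← S.op_add (hmidL i) (hhighL i), ← S.op_add (hlowL i) hmh]
    congr 1
    ext r
    exact h.decomp x i r
  simp_rw [hT]
  refine (NN_add_sq hθ hθ1.le _ _).trans ?_
  have h1 := h.NN_lowpart hxm hx hxB
  have h2 := h.NN_midpart hxm hx
  have h3 := h.NN_highpart hxm hx hN
  have h4 := NN_add_sq (μ := mu01) hθ hθ1.le
    (fun s => 1 / Real.sqrt S.lam * ∑ i ∈ Finset.range S.lam, S.op θ i (mid t x i) s)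
    (fun s => 1 / Real.sqrt S.lam * ∑ i ∈ Finset.range S.lam, S.op θ i (high t x i) s)
  have h5 : ENNReal.ofReal (1 / S.lam) *
        ∑ i ∈ Finset.range S.lam, NN θ mu01 (fun s => (S.op θ i (low t x i) s) ^ 2) ≤ CM θ := by
    calc ENNReal.ofReal (1 / S.lam) *
        ∑ i ∈ Finset.range S.lam, NN θ mu01 (fun s => (S.op θ i (low t x i) s) ^ 2)
        ≤ ENNReal.ofReal (1 / S.lam) * ∑ i ∈ Finset.range S.lam, CM θ := by
          gcongr with i _
          refine (S.NN_op_le hθ hθ1 (low_measurable hxm i) (hlowL i) i).trans ?_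
          calc CM θ * NN θ mu01 (fun s => (low t x i s) ^ 2) ≤ CM θ * NN θ mu01 (fun s => (x s) ^ 2) := by
                gcongr
                apply NN_mono hθ.le
                exact Filter.Eventually.of_forall (fun s => sq_le_of_abs (abs_low_le x i s))
            _ ≤ CM θ * 1 := by gcongr
            _ = CM θ := mul_one _
      _ = CM θ := by
          rw [Finset.sum_const, Finset.card_range, nsmul_eq_mul, ← mul_assoc]
          have : ENNReal.ofReal (1 / S.lam) * (S.lam : ℝ≥0∞) = 1 := by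
            rw [← ENNReal.ofReal_natCast, ← ENNReal.ofReal_mul (by positivity)]
            rw [one_div, inv_mul_cancel₀ hlam.ne', ENNReal.ofReal_one]
          rw [this, one_mul]
  calc 4 * NN θ mu01 (fun s => (1 / Real.sqrt S.lam * ∑ i ∈ Finset.range S.lam, S.op θ i (low t x i) s) ^ 2) +
      4 * NN θ mu01 (fun s => (1 / Real.sqrt S.lam * ∑ i ∈ Finset.range S.lam, S.op θ i (mid t x i) s +
       1 / Real.sqrt S.lam * ∑ i ∈ Finset.range S.lam, S.op θ i (high t x i) s) ^ 2)
      ≤ 4 * (16 * CM θ + 4 * 1) +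
        4 * (4 * (ENNReal.ofReal (1 / θ) * CM θ * (3 * 1)) + 4 * 1) := by
        gcongr
        · refine h1.trans ?_
          gcongr
        · refine h4.trans ?_
          gcongr
          · refine h2.trans ?_
            gcongr
          · refine h3.trans ?_
            rw [← ENNReal.ofReal_one]
            exact ENNReal.ofReal_le_ofReal hε1
    _ = CT θ := by
        unfold CT
        ring

end Good

end LorentzBlocks
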