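import Pool.Agent.Lorentz.StageBounds

/-!
# Further properties of a stage operator
-/

open MeasureTheory Set
open scoped ENNReal NNReal

namespace LorentzBlocks

variable {θ : ℝ}

lemma NN_smul_sq (c : ℝ) (hc : 0 < c) {α : Type*} [MeasurableSpace α] {μ : Measure α} (x : α → ℝ) :
    NN θ μ (fun s => (c * x s) ^ 2) = ENNReal.ofReal (c ^ 2) * NN θ μ (fun s => (x s) ^ 2) := by
  have : (fun s => (c * x s) ^ 2) = fun s => c ^ 2 * (x s) ^ 2 := by
    ext s; ring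
  rw [this]
  exact NN_const_mul (by positivity) _

lemma ae_zero_of_NN_zero (hθ1 : θ ≤ 1) {x : ℝ → ℝ} (hx : Measurable x)
    (h : NN θ mu01 (fun s => (x s) ^ 2) = 0) : ∀ᵐ s ∂mu01, x s = 0 := by
  have h1 := lintegral_le_NN (μ := mu01) hθ1 (f := fun s => (x s) ^ 2)
    (Filter.Eventually.of_forall (fun s => sq_nonneg _)) (hx.pow_const 2).aemeasurable
  rw [h, nonpos_iff_eq_zero, lintegral_eq_zero_iff (hx.pow_const 2).ennreal_ofReal] at h1
  filter_upwards [h1] with s hs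
  have hs' : ENNReal.ofReal ((x s) ^ 2) = 0 := hs
  rw [ENNReal.ofReal_eq_zero] at hs'
  have : (x s) ^ 2 = 0 := le_antisymm hs' (sq_nonneg _)
  exact pow_eq_zero_iff (two_ne_zero) |>.1 this

/-- from the unit ball to all functions -/
lemma scale_bound (hθ1 : θ ≤ 1) {Tm : (ℝ → ℝ) → ℝ → ℝ}
    (hsm : ∀ (c : ℝ) (x : ℝ → ℝ) (s : ℝ), Tm (fun r => c * x r) s = c * Tm x s)
    (hcongr : ∀ x y : ℝ → ℝ, (∀ᵐ s ∂mu01, x s = y s) → ∀ s, Tm x s = Tm y s)
    {C : ℝ≥0∞} (h1 : ∀ x : ℝ → ℝ, Measurable x → NN θ mu01 (fun s => (x s) ^ 2) ≤ 1 →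
      NN θ mu01 (fun s => (Tm x s) ^ 2) ≤ C) {x : ℝ → ℝ} (hx : Measurable x)
    (hN : NN θ mu01 (fun s => (x s) ^ 2) ≠ ∞) :
    NN θ mu01 (fun s => (Tm x s) ^ 2) ≤ C * NN θ mu01 (fun s => (x s) ^ 2) := by
  by_cases h0 : NN θ mu01 (fun s => (x s) ^ 2) = 0
  · have hz := ae_zero_of_NN_zero hθ1 hx h0
    have hT0 : ∀ s, Tm x s = 0 := by
      intro s
      have e1 := hcongr x (fun r => 0 * x r) (by
        filter_upwards [hz] with r hr
        rw [hr]; simp) s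
      rw [e1, hsm, zero_mul]
    have : NN θ mu01 (fun s => (Tm x s) ^ 2) = NN θ mu01 (fun s => (x s) ^ 2) := by
      apply NN_congr
      filter_upwards [hz] with s hs
      rw [hT0, hs]
    rw [this, h0, mul_zero]
  · set m : ℝ := (NN θ mu01 (fun s => (x s) ^ 2)).toReal with hm
    have hmpos : 0 < m := ENNReal.toReal_pos h0 hN
    have hmN : NN θ mu01 (fun s => (x s) ^ 2) = ENNReal.ofReal m := (ENNReal.ofReal_toReal hN).symm
    set c : ℝ := 1 / Real.sqrt m with hc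
    have hsq : 0 < Real.sqrt m := Real.sqrt_pos.2 hmpos
    have hcpos : 0 < c := by positivity
    have hc2 : c ^ 2 = m⁻¹ := by rw [hc, div_pow, one_pow, Real.sq_sqrt hmpos.le, one_div]
    have h2 := h1 (fun s => c * x s) (hx.const_mul c) (by
      rw [NN_smul_sq c hcpos, hmN, ← ENNReal.ofReal_mul (by positivity), hc2,
        inv_mul_cancel₀ hmpos.ne', ENNReal.ofReal_one])
    simp_rw [hsm] at h2
    rw [NN_smul_sq c hcpos, hc2] at h2
    rw [hmN]
    calc NN θ mu01 (fun s => (Tm x s) ^ 2)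
        = ENNReal.ofReal m * (ENNReal.ofReal m⁻¹ * NN θ mu01 (fun s => (Tm x s) ^ 2)) := by
          rw [← mul_assoc, ← ENNReal.ofReal_mul hmpos.le, mul_inv_cancel₀ hmpos.ne', ENNReal.ofReal_one,
            one_mul]
      _ ≤ ENNReal.ofReal m * C := by gcongr
      _ = C * ENNReal.ofReal m := mul_comm _ _

namespace Stage

variable (S : Stage)

/-- cell bound for `T` -/
lemma NN_T_cell (hθ : 0 < θ) (hθ1 : θ < 1) {x : ℝ → ℝ} (hx : MemLp x 2 mu01) :
    NN θ mu01 (fun s => (S.T θ x s) ^ 2) ≤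
      ENNReal.ofReal ((S.D : ℝ) ^ (1 - θ)) * ∫⁻ s, ENNReal.ofReal ((x s) ^ 2) ∂mu01 := by
  have hH := S.H_pos
  have hD : (0:ℝ) < S.D := by exact_mod_cast S.hD
  obtain ⟨g, hg⟩ := S.T_step (θ := θ) x
  have h1 := NN_cell (μ := mu01) (θ := θ) hθ1.le (f := fun s => (S.T θ x s) ^ 2)
    (Filter.Eventually.of_forall (fun s => sq_nonneg _)) ((S.T_measurable x).pow_const 2).aemeasurable
    (h := ENNReal.ofReal (1 / S.H)) (fun s _ => by
      have := step_level S.hH (fun k => (g k) ^ 2) s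
      simp_rw [hg]
      exact this) hθ
  refine h1.trans ?_
  calc ENNReal.ofReal (1 / S.H) ^ (θ - 1) * ∫⁻ s, ENNReal.ofReal ((S.T θ x s) ^ 2) ∂mu01
      ≤ ENNReal.ofReal (1 / S.H) ^ (θ - 1) * (ENNReal.ofReal (((S.D : ℝ) / S.H) ^ (1 - θ)) *
          ∫⁻ s, ENNReal.ofReal ((x s) ^ 2) ∂mu01) := by
        gcongr
        exact S.lintegral_T_sq_le hθ1 hx
    _ = _ := by
        rw [← mul_assoc, ENNReal.ofReal_rpow_of_pos (by positivity), ← ENNReal.ofReal_mul (by positivity)]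
        congr 2
        rw [Real.div_rpow hD.le hH.le, one_div, Real.inv_rpow hH.le, ← Real.rpow_neg hH.le]
        have : -(θ - 1) = 1 - θ := by ring
        rw [this]
        field_simp

/-- (T6) pointwise bound -/
lemma T_sup_le (hθ : 0 < θ) {x : ℝ → ℝ} {C : ℝ≥0∞}
    (hC : NN θ mu01 (fun s => (S.T θ x s) ^ 2) ≤ C) {s : ℝ} (hs : s ∈ Ico (0:ℝ) 1) :
    ENNReal.ofReal ((S.T θ x s) ^ 2) ≤ C * ENNReal.ofReal ((S.H : ℝ) ^ θ) := by
  have hH := S.H_pos
  obtain ⟨g, hg⟩ := S.T_step (θ := θ) x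
  have h1 := mul_meas_rpow_le_NN (μ := mu01) hθ.le (v := (S.T θ x s) ^ 2) (fun s => (S.T θ x s) ^ 2)
  have h2 : ENNReal.ofReal (1 / S.H) ≤ mu01 {a | (S.T θ x s) ^ 2 ≤ (S.T θ x a) ^ 2} := by
    rw [← mu01_cell S.hH (floor_lt_of_mem S.hH hs)]
    apply measure_mono
    intro a ha
    have ha0 : 0 ≤ a := (cell_subset S.hH (floor_lt_of_mem S.hH hs) ha).1
    have h3 := (mem_cell_iff S.hH ha0).1 ha
    change (S.T θ x s) ^ 2 ≤ (S.T θ x a) ^ 2
    rw [hg, hg, h3]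
  have h3 : ENNReal.ofReal ((S.T θ x s) ^ 2) * (ENNReal.ofReal (1 / S.H)) ^ θ ≤ C := by
    refine le_trans ?_ (h1.trans hC)
    gcongr
  have h4 : (ENNReal.ofReal (1 / S.H)) ^ θ * ENNReal.ofReal ((S.H : ℝ) ^ θ) = 1 := by
    rw [ENNReal.ofReal_rpow_of_pos (by positivity), ← ENNReal.ofReal_mul (by positivity),
      ← Real.mul_rpow (by positivity) (by positivity), one_div, inv_mul_cancel₀ hH.ne', Real.one_rpow,
      ENNReal.ofReal_one]
  calc ENNReal.ofReal ((S.T θ x s) ^ 2)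
      = ENNReal.ofReal ((S.T θ x s) ^ 2) * ((ENNReal.ofReal (1 / S.H)) ^ θ * ENNReal.ofReal ((S.H : ℝ) ^ θ)) := by
        rw [h4, mul_one]
    _ = ENNReal.ofReal ((S.T θ x s) ^ 2) * (ENNReal.ofReal (1 / S.H)) ^ θ * ENNReal.ofReal ((S.H : ℝ) ^ θ) := by
        rw [mul_assoc]
    _ ≤ _ := by gcongr

/-- (T7) small part of the range -/
lemma NN_T_small (hθ : 0 < θ) (hθ1 : θ < 1) {x : ℝ → ℝ} (hx : MemLp x 2 mu01)
    (hx1 : ∫⁻ s, ENNReal.ofReal ((x s) ^ 2) ∂mu01 ≤ 1) {B : ℝ} (hB : 0 < B) :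
    NN θ mu01 (fun s => (if |S.T θ x s| ≤ B then S.T θ x s else 0) ^ 2) ≤
      ENNReal.ofReal ((B ^ 2) ^ (1 - θ) / (1 - θ) * (((S.D : ℝ) / S.H) ^ (1 - θ)) ^ θ) := by
  have h1θ : 0 < 1 - θ := by linarith
  have hH := S.H_pos
  have hD : (0:ℝ) < S.D := by exact_mod_cast S.hD
  have h1 := NN_low (μ := mu01) hθ hθ1 (f := fun s => (S.T θ x s) ^ 2)
    (g := fun s => (if |S.T θ x s| ≤ B then S.T θ x s else 0) ^ 2)
    ((S.T_measurable x).pow_const 2).aemeasurable (v := B ^ 2) (by positivity)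
    (Filter.Eventually.of_forall (fun s => by
      split_ifs with hc
      · exact sq_le_sq' (by linarith [neg_abs_le (S.T θ x s)]) (by linarith [le_abs_self (S.T θ x s)])
      · norm_num; positivity))
    (Filter.Eventually.of_forall (fun s => by
      split_ifs with hc
      · exact le_rfl
      · norm_num; positivity))
  refine h1.trans ?_
  rw [ENNReal.ofReal_mul (by positivity)]
  gcongr
  rw [← ENNReal.ofReal_rpow_of_pos (by positivity)]
  apply ENNReal.rpow_le_rpow _ hθ.le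
  refine (S.lintegral_T_sq_le hθ1 hx).trans ?_
  calc ENNReal.ofReal (((S.D : ℝ) / S.H) ^ (1 - θ)) * ∫⁻ s, ENNReal.ofReal ((x s) ^ 2) ∂mu01
      ≤ ENNReal.ofReal (((S.D : ℝ) / S.H) ^ (1 - θ)) * 1 := by gcongr
    _ = _ := mul_one _

/-- concavity -/
lemma sum_rpow_energy_le (hθ : 0 < θ) (hθ1 : θ < 1) {x : ℝ → ℝ} (hx : MemLp x 2 mu01) :
    ∑ i ∈ Finset.range S.lam, (S.energy x i) ^ θ ≤
      (S.lam : ℝ) ^ (1 - θ) * (∫ s, (x s) ^ 2 ∂mu01) ^ θ := by
  have h1 := Real.rpow_sum_le_const_mul_sum_rpow_of_nonneg (Finset.range S.lam)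
    (f := fun i => (S.energy x i) ^ θ) (p := 1 / θ) (by rw [le_div_iff₀ hθ]; linarith)
    (fun i _ => Real.rpow_nonneg (S.energy_nonneg x i) _)
  rw [Finset.card_range] at h1
  have h2 : ∀ i, ((S.energy x i) ^ θ) ^ (1 / θ) = S.energy x i := by
    intro i
    rw [← Real.rpow_mul (S.energy_nonneg x i), mul_one_div_cancel hθ.ne', Real.rpow_one]
  simp_rw [h2] at h1
  have h3 : ∑ i ∈ Finset.range S.lam, S.energy x i ≤ ∫ s, (x s) ^ 2 ∂mu01 := S.sum_coef_sq_le hx S.lam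
  have hlam : (0:ℝ) < S.lam := by exact_mod_cast S.hlam
  have h4 : 0 ≤ ∑ i ∈ Finset.range S.lam, (S.energy x i) ^ θ :=
    Finset.sum_nonneg (fun i _ => Real.rpow_nonneg (S.energy_nonneg x i) _)
  have h5 : 0 ≤ ∫ s, (x s) ^ 2 ∂mu01 := integral_nonneg (fun s => sq_nonneg _)
  calc ∑ i ∈ Finset.range S.lam, (S.energy x i) ^ θ
      = ((∑ i ∈ Finset.range S.lam, (S.energy x i) ^ θ) ^ (1 / θ)) ^ θ := by
        rw [← Real.rpow_mul h4, one_div_mul_cancel hθ.ne', Real.rpow_one]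
    _ ≤ ((S.lam : ℝ) ^ (1 / θ - 1) * ∫ s, (x s) ^ 2 ∂mu01) ^ θ := by
        apply Real.rpow_le_rpow (Real.rpow_nonneg h4 _) _ hθ.le
        exact h1.trans (by gcongr)
    _ = (S.lam : ℝ) ^ (1 - θ) * (∫ s, (x s) ^ 2 ∂mu01) ^ θ := by
        rw [Real.mul_rpow (by positivity) h5, ← Real.rpow_mul hlam.le]
        congr 2
        field_simp

end Stage

namespace Good

variable {S : Stage} {B κ ε : ℝ} {t : ℕ → ℝ}

/-- (T4) the stage operator is small on bounded functions -/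
lemma NN_T_bounded (h : Good S θ B κ ε t) {x : ℝ → ℝ} (hxm : Measurable x)
    (hxB : ∀ᵐ s ∂mu01, |x s| < B) :
    NN θ mu01 (fun s => (S.T θ x s) ^ 2) ≤
      16 * ENNReal.ofReal (2 * B ^ 2 / (1 - θ) * (S.lam : ℝ) ^ (-θ)) +
      4 * (∑ i ∈ Finset.range S.lam, ENNReal.ofReal (4 ^ (i + 1)) * ENNReal.ofReal (errK θ B κ)) := by
  have hθ := h.hθ
  have hθ1 := h.hθ1
  have h1θ : 0 < 1 - θ := by linarith
  have hlam : (0:ℝ) < S.lam := by exact_mod_cast S.hlam
  have hH := S.H_pos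
  have hBpos : 0 < B := by linarith [h.hB]
  have hx : MemLp x 2 mu01 := by
    apply MemLp.of_bound hxm.aestronglyMeasurable B
    filter_upwards [hxB] with s hs
    rw [Real.norm_eq_abs]; exact hs.le
  have hxint : ∫ s, (x s) ^ 2 ∂mu01 ≤ B ^ 2 := by
    calc ∫ s, (x s) ^ 2 ∂mu01 ≤ ∫ _, B ^ 2 ∂mu01 := by
          apply integral_mono_ae hx.integrable_sq (integrable_const _)
          filter_upwards [hxB] with s hs
          rw [← sq_abs]
          exact pow_le_pow_left₀ (abs_nonneg _) hs.le 2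
      _ = B ^ 2 := by simp
  have hx2 : ∫⁻ s, ENNReal.ofReal ((x s) ^ 2) ∂mu01 ≤ ENNReal.ofReal (B ^ 2) := by
    rw [← ofReal_integral_sq hx]
    exact ENNReal.ofReal_le_ofReal hxint
  have hlow : ∀ i, ∀ᵐ s ∂mu01, low t x i s = x s := by
    intro i
    filter_upwards [hxB] with s hs
    unfold low
    rw [if_pos (hs.trans_le (h.tge i))]
  have hT : ∀ s, S.T θ x s = 1 / Real.sqrt S.lam * ∑ i ∈ Finset.range S.lam, S.op θ i (low t x i) s := by
    intro s
    unfold Stage.T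
    congr 1
    apply Finset.sum_congr rfl
    intro i _
    exact (S.op_congr (hlow i) i s).symm
  simp_rw [hT]
  refine (h.NN_lowpart hxm hx hx2).trans ?_
  gcongr 16 * ?_ + _
  have hterm : ∀ i, NN θ mu01 (fun s => (S.op θ i (low t x i) s) ^ 2) ≤
      ENNReal.ofReal (2 * (B ^ 2) ^ (1 - θ) / (1 - θ) * (S.energy x i) ^ θ) := by
    intro i
    have hL := S.L_pos i
    have e1 : (fun s => (S.op θ i (low t x i) s) ^ 2) = fun s => (S.op θ i x s) ^ 2 := by
      ext s; rw [S.op_congr (hlow i) i s]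
    rw [e1]
    have h1 := NN_low (μ := mu01) hθ hθ1 (f := fun s => (S.op θ i x s) ^ 2)
      (g := fun s => (S.op θ i x s) ^ 2) ((S.op_measurable x i).pow_const 2).aemeasurable
      (v := 2 * ((S.H : ℝ) / S.L i) ^ θ * B ^ 2) (by positivity)
      (Filter.Eventually.of_forall (fun s => S.op_sup hx (by
        filter_upwards [hxB] with s hs
        exact hs.le) i s))
      (Filter.Eventually.of_forall (fun s => le_rfl))
    refine h1.trans ?_
    rw [S.lintegral_op_sq]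
    have he := S.energy_nonneg x i
    rw [ENNReal.ofReal_rpow_of_nonneg (by positivity) hθ.le, ← ENNReal.ofReal_mul (by positivity)]
    apply ENNReal.ofReal_le_ofReal
    rw [Real.mul_rpow (by positivity) he, Real.mul_rpow (by positivity) (by positivity),
      Real.mul_rpow (by positivity) (by positivity), ← Real.rpow_mul (by positivity),
      ← Real.rpow_mul (by positivity)]
    have h3 : ((S.H : ℝ) / S.L i) ^ (θ * (1 - θ)) * ((S.L i : ℝ) / S.H) ^ ((1 - θ) * θ) = 1 := by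
      rw [mul_comm θ, ← Real.mul_rpow (by positivity) (by positivity)]
      have : (S.H : ℝ) / S.L i * ((S.L i : ℝ) / S.H) = 1 := by field_simp
      rw [this, Real.one_rpow]
    have h4 : (2:ℝ) ^ (1 - θ) ≤ 2 := by
      calc (2:ℝ) ^ (1 - θ) ≤ (2:ℝ) ^ (1:ℝ) :=
            Real.rpow_le_rpow_of_exponent_le (by norm_num) (by linarith)
        _ = 2 := Real.rpow_one _
    calc (2:ℝ) ^ (1 - θ) * ((S.H : ℝ) / S.L i) ^ (θ * (1 - θ)) * (B ^ 2) ^ (1 - θ) / (1 - θ) *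
          (((S.L i : ℝ) / S.H) ^ ((1 - θ) * θ) * (S.energy x i) ^ θ)
        = (2:ℝ) ^ (1 - θ) * (((S.H : ℝ) / S.L i) ^ (θ * (1 - θ)) * ((S.L i : ℝ) / S.H) ^ ((1 - θ) * θ)) *
            (B ^ 2) ^ (1 - θ) / (1 - θ) * (S.energy x i) ^ θ := by ring
      _ = (2:ℝ) ^ (1 - θ) * (B ^ 2) ^ (1 - θ) / (1 - θ) * (S.energy x i) ^ θ := by rw [h3]; ring
      _ ≤ 2 * (B ^ 2) ^ (1 - θ) / (1 - θ) * (S.energy x i) ^ θ := by
          have : 0 ≤ (S.energy x i) ^ θ := Real.rpow_nonneg he _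
          gcongr
  calc ENNReal.ofReal (1 / S.lam) * ∑ i ∈ Finset.range S.lam, NN θ mu01 (fun s => (S.op θ i (low t x i) s) ^ 2)
      ≤ ENNReal.ofReal (1 / S.lam) * ∑ i ∈ Finset.range S.lam,
          ENNReal.ofReal (2 * (B ^ 2) ^ (1 - θ) / (1 - θ) * (S.energy x i) ^ θ) := by
        gcongr with i _
        exact hterm i
    _ = ENNReal.ofReal (1 / S.lam * (2 * (B ^ 2) ^ (1 - θ) / (1 - θ) *
          ∑ i ∈ Finset.range S.lam, (S.energy x i) ^ θ)) := by
        rw [← ENNReal.ofReal_sum_of_nonneg, ← ENNReal.ofReal_mul (by positivity), ← Finset.mul_sum]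
        intro i _
        have := Real.rpow_nonneg (S.energy_nonneg x i) θ
        positivity
    _ ≤ ENNReal.ofReal (2 * B ^ 2 / (1 - θ) * (S.lam : ℝ) ^ (-θ)) := by
        apply ENNReal.ofReal_le_ofReal
        have h5 := S.sum_rpow_energy_le hθ hθ1 hx
        have h6 : 0 ≤ ∫ s, (x s) ^ 2 ∂mu01 := integral_nonneg (fun s => sq_nonneg _)
        calc 1 / (S.lam : ℝ) * (2 * (B ^ 2) ^ (1 - θ) / (1 - θ) * ∑ i ∈ Finset.range S.lam, (S.energy x i) ^ θ)
            ≤ 1 / (S.lam : ℝ) * (2 * (B ^ 2) ^ (1 - θ) / (1 - θ) *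
                ((S.lam : ℝ) ^ (1 - θ) * (B ^ 2) ^ θ)) := by
              have h7 : (∫ s, (x s) ^ 2 ∂mu01) ^ θ ≤ (B ^ 2) ^ θ := Real.rpow_le_rpow h6 hxint hθ.le
              gcongr
              exact h5.trans (by gcongr)
          _ = 2 / (1 - θ) * ((B ^ 2) ^ (1 - θ) * (B ^ 2) ^ θ) * (1 / (S.lam : ℝ) * (S.lam : ℝ) ^ (1 - θ)) := by
              ring
          _ = 2 * B ^ 2 / (1 - θ) * (S.lam : ℝ) ^ (-θ) := by
              have e1 : (B ^ 2) ^ (1 - θ) * (B ^ 2) ^ θ = B ^ 2 := by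
                rw [← Real.rpow_add (by positivity), sub_add_cancel, Real.rpow_one]
              have e2 : 1 / (S.lam : ℝ) * (S.lam : ℝ) ^ (1 - θ) = (S.lam : ℝ) ^ (-θ) := by
                rw [one_div, ← Real.rpow_neg_one, ← Real.rpow_add hlam]
                congr 1; ring
              rw [e1, e2]
              ring

end Good

end LorentzBlocks
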