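import Pool.Agent.Lorentz.Cells

/-!
# The orthonormal system
-/

open MeasureTheory Set
open scoped ENNReal NNReal

namespace LorentzBlocks

lemma integral_cos_int {n : ℤ} (hn : n ≠ 0) {a b : ℝ} {p q : ℤ} (ha : (n:ℝ) * a = p)
    (hb : (n:ℝ) * b = q) : ∫ t in a..b, Real.cos (2 * Real.pi * n * t) = 0 := by
  have hc : (2 * Real.pi * n : ℝ) ≠ 0 := by
    have : (n:ℝ) ≠ 0 := by exact_mod_cast hn
    have := Real.pi_ne_zero
    positivity
  rw [intervalIntegral.integral_comp_mul_left (fun t => Real.cos t) hc, integral_cos]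
  have h1 : Real.sin (2 * Real.pi * n * b) = 0 := by
    have : 2 * Real.pi * n * b = ((2 * q : ℤ) : ℝ) * Real.pi := by
      push_cast; rw [← hb]; ring
    rw [this, Real.sin_int_mul_pi]
  have h2 : Real.sin (2 * Real.pi * n * a) = 0 := by
    have : 2 * Real.pi * n * a = ((2 * p : ℤ) : ℝ) * Real.pi := by
      push_cast; rw [← ha]; ring
    rw [this, Real.sin_int_mul_pi]
  rw [h1, h2]
  simp

lemma integral_cos_cos {D : ℕ} (hD : 0 < D) {m m' : ℕ} (hm : 0 < m) (hDm : D ∣ m)
    (hDm' : D ∣ m') {α β : ℤ} :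
    ∫ t in ((α:ℝ) / D)..((β:ℝ) / D), Real.cos (2 * Real.pi * m * t) * Real.cos (2 * Real.pi * m' * t)
      = if m = m' then ((β:ℝ) / D - (α:ℝ) / D) / 2 else 0 := by
  have hD' : (D:ℝ) ≠ 0 := by exact_mod_cast hD.ne'
  obtain ⟨c, rfl⟩ := hDm
  obtain ⟨c', rfl⟩ := hDm'
  have hprod : ∀ t : ℝ, Real.cos (2 * Real.pi * (D * c : ℕ) * t) * Real.cos (2 * Real.pi * (D * c' : ℕ) * t)
      = 1 / 2 * Real.cos (2 * Real.pi * ((D * c : ℤ) - (D * c' : ℤ) : ℤ) * t)
        + 1 / 2 * Real.cos (2 * Real.pi * ((D * c : ℤ) + (D * c' : ℤ) : ℤ) * t) := by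
    intro t
    have e1 : 2 * Real.pi * ((D * c : ℤ) - (D * c' : ℤ) : ℤ) * t
        = 2 * Real.pi * (D * c : ℕ) * t - 2 * Real.pi * (D * c' : ℕ) * t := by push_cast; ring
    have e2 : 2 * Real.pi * ((D * c : ℤ) + (D * c' : ℤ) : ℤ) * t
        = 2 * Real.pi * (D * c : ℕ) * t + 2 * Real.pi * (D * c' : ℕ) * t := by push_cast; ring
    rw [e1, e2, Real.cos_sub, Real.cos_add]
    ring
  have hmul : ∀ (z : ℤ) (y : ℤ), (((D * z : ℤ)) : ℝ) * ((y:ℝ) / D) = ((z * y : ℤ) : ℝ) := by
    intro z y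
    push_cast
    field_simp
  have hint : ∀ n : ℤ, IntervalIntegrable (fun t => 1 / 2 * Real.cos (2 * Real.pi * n * t)) volume
      ((α:ℝ) / D) ((β:ℝ) / D) := by
    intro n
    apply Continuous.intervalIntegrable
    fun_prop
  have hplus : ∫ t in ((α:ℝ) / D)..((β:ℝ) / D), 1 / 2 * Real.cos (2 * Real.pi * ((D * c : ℤ) + (D * c' : ℤ) : ℤ) * t) = 0 := by
    rw [intervalIntegral.integral_const_mul]
    have hne : ((D * c : ℤ) + (D * c' : ℤ) : ℤ) ≠ 0 := by
      have : (0:ℤ) < (D * c : ℤ) := by exact_mod_cast hm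
      have : (0:ℤ) ≤ (D * c' : ℤ) := by positivity
      omega
    rw [integral_cos_int hne (p := (c + c') * α) (q := (c + c') * β), mul_zero]
    · have := hmul (c + c') α
      rw [← this]; congr 2; ring
    · have := hmul (c + c') β
      rw [← this]; congr 2; ring
  simp_rw [hprod]
  rw [intervalIntegral.integral_add (hint _) (hint _), hplus, add_zero]
  split_ifs with h
  · have h0 : ((D * c : ℤ) - (D * c' : ℤ) : ℤ) = 0 := by
      have : (D * c : ℤ) = (D * c' : ℤ) := by exact_mod_cast h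
      omega
    rw [h0]
    simp
    ring
  · rw [intervalIntegral.integral_const_mul]
    have hne : ((D * c : ℤ) - (D * c' : ℤ) : ℤ) ≠ 0 := by
      intro h0
      apply h
      have : (D * c : ℤ) = (D * c' : ℤ) := by omega
      exact_mod_cast this
    rw [integral_cos_int hne (p := (c - c') * α) (q := (c - c') * β), mul_zero]
    · have := hmul (c - c') α
      rw [← this]; congr 2; ring
    · have := hmul (c - c') β
      rw [← this]; congr 2; ring

/-- parameters of one stage -/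
structure Stage where
  lam : ℕ
  D : ℕ
  H : ℕ
  L : ℕ → ℕ
  hlam : 0 < lam
  hD : 0 < D
  hH : 0 < H
  hL : ∀ i, 0 < L i
  hLD : ∀ i, L i ∣ D

namespace Stage

variable (S : Stage)

/-- frequency of the oscillating factor -/
def freq (i k : ℕ) : ℕ := S.D * (i * S.H + k + 1)

/-- index of the level-`L i` cell used by index `k` -/
def idx (i k : ℕ) : ℕ := (k % S.D) / (S.D / S.L i)

/-- the normalized function -/
noncomputable def phi (i k : ℕ) (t : ℝ) : ℝ :=
  (cell (S.L i) (S.idx i k)).indicator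
    (fun t => Real.sqrt 2 * Real.sqrt (S.L i) * Real.cos (2 * Real.pi * S.freq i k * t)) t

lemma freq_pos (i k : ℕ) : 0 < S.freq i k := by
  unfold freq
  have := S.hD
  positivity

lemma dvd_freq (i k : ℕ) : S.D ∣ S.freq i k := ⟨_, rfl⟩

lemma freq_inj {i k i' k' : ℕ} (hk : k < S.H) (hk' : k' < S.H) (h : S.freq i k = S.freq i' k') :
    i = i' ∧ k = k' := by
  unfold freq at h
  have h1 : i * S.H + k + 1 = i' * S.H + k' + 1 := Nat.eq_of_mul_eq_mul_left S.hD h
  have h2 : i * S.H + k = i' * S.H + k' := by omega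
  have h3 : (i * S.H + k) / S.H = i := by
    rw [mul_comm, Nat.mul_add_div S.hH, Nat.div_eq_of_lt hk, add_zero]
  have h4 : (i' * S.H + k') / S.H = i' := by
    rw [mul_comm, Nat.mul_add_div S.hH, Nat.div_eq_of_lt hk', add_zero]
  have h5 : i = i' := by rw [← h3, h2, h4]
  subst h5
  exact ⟨rfl, by omega⟩

lemma idx_lt (i k : ℕ) : S.idx i k < S.L i := by
  unfold idx
  have h1 : S.D / S.L i * S.L i = S.D := Nat.div_mul_cancel (S.hLD i)
  apply Nat.div_lt_of_lt_mul
  rw [h1]
  exact Nat.mod_lt _ S.hD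

lemma cell_endpoints (i j : ℕ) : ∃ α β : ℤ, ((j:ℝ) / S.L i) = (α:ℝ) / S.D ∧
    ((j + 1 : ℝ) / S.L i) = (β:ℝ) / S.D := by
  obtain ⟨c, hc⟩ := S.hLD i
  have hL : (S.L i : ℝ) ≠ 0 := by exact_mod_cast (S.hL i).ne'
  have hD : (S.D : ℝ) ≠ 0 := by exact_mod_cast S.hD.ne'
  have hc' : (S.D : ℝ) = S.L i * c := by exact_mod_cast hc
  have hc0 : (c:ℝ) ≠ 0 := by
    intro h
    rw [h, mul_zero] at hc'
    exact hD hc'
  refine ⟨j * c, (j + 1) * c, ?_, ?_⟩
  · push_cast; rw [hc']; field_simp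
  · push_cast; rw [hc']; field_simp

lemma phi_measurable (i k : ℕ) : Measurable (S.phi i k) := by
  unfold phi
  apply Measurable.indicator _ (measurableSet_cell _ _)
  fun_prop

lemma phi_bound (i k : ℕ) (t : ℝ) : |S.phi i k t| ≤ Real.sqrt 2 * Real.sqrt (S.L i) := by
  unfold phi
  by_cases h : t ∈ cell (S.L i) (S.idx i k)
  · rw [indicator_of_mem h, abs_mul, abs_of_nonneg (by positivity)]
    exact mul_le_of_le_one_right (by positivity) (Real.abs_cos_le_one _)
  · rw [indicator_of_notMem h]; simp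

lemma phi_memLp (i k : ℕ) (p : ℝ≥0∞) : MemLp (S.phi i k) p mu01 := by
  apply MemLp.of_bound (S.phi_measurable i k).aestronglyMeasurable (Real.sqrt 2 * Real.sqrt (S.L i))
  exact Filter.Eventually.of_forall (fun t => by rw [Real.norm_eq_abs]; exact S.phi_bound i k t)

lemma phi_orth {i k i' k' : ℕ} (hk : k < S.H) (hk' : k' < S.H) :
    ∫ t, S.phi i k t * S.phi i' k' t ∂mu01 = if (i, k) = (i', k') then 1 else 0 := by
  obtain ⟨α, β, hα, hβ⟩ := S.cell_endpoints i (S.idx i k)
  obtain ⟨α', β', hα', hβ'⟩ := S.cell_endpoints i' (S.idx i' k')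
  have hD : (0:ℝ) < S.D := by exact_mod_cast S.hD
  have hcell : cell (S.L i) (S.idx i k) ∩ cell (S.L i') (S.idx i' k')
      = Ico (((max α α' : ℤ) : ℝ) / S.D) (((min β β' : ℤ) : ℝ) / S.D) := by
    unfold cell
    rw [Ico_inter_Ico, hα, hβ, hα', hβ']
    congr 1
    · rw [Int.cast_max]
      exact (Monotone.map_max (fun x y h => div_le_div_of_nonneg_right h hD.le)).symm
    · rw [Int.cast_min]
      exact (Monotone.map_min (fun x y h => div_le_div_of_nonneg_right h hD.le)).symm
  have hsub : cell (S.L i) (S.idx i k) ∩ cell (S.L i') (S.idx i' k') ⊆ Ico (0:ℝ) 1 :=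
    inter_subset_left.trans (cell_subset (S.hL i) (S.idx_lt i k))
  have e1 : ∀ t, S.phi i k t * S.phi i' k' t =
      (cell (S.L i) (S.idx i k) ∩ cell (S.L i') (S.idx i' k')).indicator
        (fun t => (Real.sqrt 2 * Real.sqrt (S.L i)) * (Real.sqrt 2 * Real.sqrt (S.L i')) *
          (Real.cos (2 * Real.pi * S.freq i k * t) * Real.cos (2 * Real.pi * S.freq i' k' * t))) t := by
    intro t
    unfold phi
    rw [← Set.inter_indicator_mul]
    congr 1
    ext t
    ring
  simp_rw [e1]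
  rw [integral_indicator ((measurableSet_cell _ _).inter (measurableSet_cell _ _))]
  have e2 : mu01.restrict (cell (S.L i) (S.idx i k) ∩ cell (S.L i') (S.idx i' k'))
      = volume.restrict (cell (S.L i) (S.idx i k) ∩ cell (S.L i') (S.idx i' k')) := by
    unfold mu01
    rw [Measure.restrict_restrict ((measurableSet_cell _ _).inter (measurableSet_cell _ _)),
      inter_eq_left.2 hsub]
  rw [e2, hcell, integral_const_mul]
  by_cases hle : (((max α α' : ℤ) : ℝ) / S.D) ≤ (((min β β' : ℤ) : ℝ) / S.D)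
  · rw [integral_Ico_eq_integral_Ioc, ← intervalIntegral.integral_of_le hle,
      integral_cos_cos S.hD (S.freq_pos i k) (S.dvd_freq i k) (S.dvd_freq i' k')]
    by_cases heq : (i, k) = (i', k')
    · rw [if_pos heq]
      obtain ⟨rfl, rfl⟩ := Prod.mk.inj heq
      rw [if_pos rfl]
      have hα1 : (α:ℝ) / S.D = (α':ℝ) / S.D := by rw [← hα, ← hα']
      have hβ1 : (β:ℝ) / S.D = (β':ℝ) / S.D := by rw [← hβ, ← hβ']
      have hα2 : α = α' := by
        have := (div_left_inj' hD.ne').1 hα1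
        exact_mod_cast this
      have hβ2 : β = β' := by
        have := (div_left_inj' hD.ne').1 hβ1
        exact_mod_cast this
      subst hα2 hβ2
      rw [max_self, min_self, ← hα, ← hβ]
      have hL : (0:ℝ) < S.L i := by exact_mod_cast S.hL i
      have h2 : Real.sqrt 2 * Real.sqrt 2 = 2 := Real.mul_self_sqrt (by norm_num)
      have h3 : Real.sqrt (S.L i) * Real.sqrt (S.L i) = S.L i := Real.mul_self_sqrt hL.le
      calc Real.sqrt 2 * Real.sqrt (S.L i) * (Real.sqrt 2 * Real.sqrt (S.L i)) *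
            ((((S.idx i k : ℝ) + 1) / S.L i - (S.idx i k : ℝ) / S.L i) / 2)
          = (Real.sqrt 2 * Real.sqrt 2) * (Real.sqrt (S.L i) * Real.sqrt (S.L i)) *
            ((((S.idx i k : ℝ) + 1) / S.L i - (S.idx i k : ℝ) / S.L i) / 2) := by ring
        _ = 1 := by
            rw [h2, h3]
            field_simp
            ring
    · rw [if_neg heq]
      have hne : S.freq i k ≠ S.freq i' k' := by
        intro h
        obtain ⟨h1, h2⟩ := S.freq_inj hk hk' h
        exact heq (by rw [h1, h2])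
      rw [if_neg hne, mul_zero]
  · have hemp : Ico (((max α α' : ℤ) : ℝ) / S.D) (((min β β' : ℤ) : ℝ) / S.D) = ∅ :=
      Ico_eq_empty (fun h => hle h.le)
    rw [hemp, Measure.restrict_empty, integral_zero_measure, mul_zero]
    have heq : (i, k) ≠ (i', k') := by
      intro heq
      obtain ⟨rfl, rfl⟩ := Prod.mk.inj heq
      have h1 : cell (S.L i) (S.idx i k) = ∅ := by
        rw [← hcell] at hemp
        rwa [inter_self] at hemp
      have h2 := volume_cell (S.hL i) (S.idx i k)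
      rw [h1, measure_empty] at h2
      have hL : (0:ℝ) < S.L i := by exact_mod_cast S.hL i
      have h3 : (0:ℝ≥0∞) < ENNReal.ofReal (1 / S.L i) := ENNReal.ofReal_pos.2 (by positivity)
      rw [← h2] at h3
      exact lt_irrefl _ h3
    rw [if_neg heq]

end Stage

end LorentzBlocks
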